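import Pool.Agent.Helix.Defs

/-!
# Consequences of the constraints
-/

set_option autoImplicit false

namespace Pool.Agent.Helix

open Set Filter Topology

variable {m : ℕ} {M : E m →L[ℝ] E m} {c : ℝ} {J : Set ℝ} {T P h Q : ℝ → E m}

/-- Derivative of `λ = |P|^2`. -/
theorem lam_deriv (hs : Sol M c J T P h Q) (hc : ∀ t ∈ J, Cons (T t) (P t) (h t)) {t : ℝ}
    (ht : t ∈ J) :
    HasDerivAt (fun s => ‖P s‖ ^ 2) (-(2 * inner ℝ (P t) (M (T t)))) t := by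
  have h1 := (hs.dP t ht).norm_sq
  have h2 : 2 * inner ℝ (P t) (-(M (T t)) + (‖P t‖ ^ 2) • h t) =
      -(2 * inner ℝ (P t) (M (T t))) := by
    rw [inner_add_right, inner_neg_right, inner_smul_right, (hc t ht).Ph]
    ring
  rw [h2] at h1
  exact h1

/-- Derivative of `P · h = 0`. -/
theorem c5 (hM : IsSim M c) (hJ : IsOpen J) (hs : Sol M c J T P h Q)
    (hc : ∀ t ∈ J, Cons (T t) (P t) (h t)) {t : ℝ} (ht : t ∈ J) :
    inner ℝ (P t) (Q t) + inner ℝ (T t) (NN M c (h t)) = -(‖P t‖ ^ 2 * ‖h t‖ ^ 2) := by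
  have h1 := (hs.dP t ht).inner ℝ (hs.dh t ht)
  have h2 : (fun s => inner ℝ (P s) (h s)) =ᶠ[𝓝 t] fun _ => (0 : ℝ) := by
    filter_upwards [hJ.mem_nhds ht] with s hs'
    exact (hc s hs').Ph
  have h3 := (h1.congr_of_eventuallyEq h2.symm).unique (hasDerivAt_const t (0 : ℝ))
  rw [inner_add_left, inner_neg_left, inner_smul_left, real_inner_self_eq_norm_sq,
    hM.inner_left] at h3
  simp only [conj_trivial] at h3
  linarith

/-- Derivative of `T · h = 0`. -/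
theorem c6 (hM : IsSim M c) (hJ : IsOpen J) (hs : Sol M c J T P h Q)
    (hc : ∀ t ∈ J, Cons (T t) (P t) (h t)) {t : ℝ} (ht : t ∈ J) :
    inner ℝ (T t) (Q t) = inner ℝ (P t) (NN M c (h t)) := by
  have h1 := (hs.dT t ht).inner ℝ (hs.dh t ht)
  have h2 : (fun s => inner ℝ (T s) (h s)) =ᶠ[𝓝 t] fun _ => (0 : ℝ) := by
    filter_upwards [hJ.mem_nhds ht] with s hs'
    exact (hc s hs').Th
  have h3 := (h1.congr_of_eventuallyEq h2.symm).unique (hasDerivAt_const t (0 : ℝ))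
  rw [hM.inner_left] at h3
  linarith

/-- The logarithmic derivative of `λ` is bounded. -/
theorem lam_deriv_bound (hs : Sol M c J T P h Q)
    (hc : ∀ t ∈ J, Cons (T t) (P t) (h t)) {t : ℝ} (ht : t ∈ J) :
    |2 * inner ℝ (P t) (M (T t))| ≤ 2 * ‖M‖ * ‖P t‖ ^ 2 := by
  have h1 : ‖P t‖ = ‖T t‖ := by
    have h2 := (hc t ht).norm_eq
    exact (sq_eq_sq₀ (norm_nonneg _) (norm_nonneg _)).1 h2
  rw [abs_mul, abs_of_pos (by norm_num : (0 : ℝ) < 2)]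
  have h3 : |inner ℝ (P t) (M (T t))| ≤ ‖P t‖ * ‖M (T t)‖ := abs_real_inner_le_norm _ _
  have h4 : ‖M (T t)‖ ≤ ‖M‖ * ‖P t‖ := by
    rw [h1]
    exact M.le_opNorm _
  have h5 : ‖P t‖ * ‖M (T t)‖ ≤ ‖P t‖ * (‖M‖ * ‖P t‖) :=
    mul_le_mul_of_nonneg_left h4 (norm_nonneg _)
  nlinarith

end Pool.Agent.Helix
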