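import Pool.Agent.Helix.Lead

/-!
# Growth of `|h|^2`
-/

set_option autoImplicit false

namespace Pool.Agent.Helix

open Set Filter Topology

variable {m : ℕ} {M : E m →L[ℝ] E m} {c : ℝ} {T P h Q : ℝ → E m}

private theorem as_re_norm (c μ : ℝ) {a b : E m} (hab : inner ℝ a b = 0) (hn : ‖a‖ ^ 2 = ‖b‖ ^ 2)
    (t : ℝ) : ‖reM c μ a b t‖ ^ 2 = ‖a‖ ^ 2 * Real.exp (2 * μ * t) := by
  have h1 : ‖Real.cos (c * t) • a + Real.sin (c * t) • b‖ ^ 2 = ‖a‖ ^ 2 := by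
    rw [norm_add_sq_real, inner_smul_left, inner_smul_right, hab, norm_smul, norm_smul, mul_pow,
      mul_pow, ← hn, Real.norm_eq_abs, Real.norm_eq_abs, sq_abs, sq_abs]
    have h2 := Real.sin_sq_add_cos_sq (c * t)
    linear_combination ‖a‖ ^ 2 * h2
  have h3 : Real.exp (μ * t) ^ 2 = Real.exp (2 * μ * t) := by
    rw [sq, ← Real.exp_add]
    congr 1
    ring
  unfold reM
  rw [norm_smul, mul_pow, h1, Real.norm_eq_abs, sq_abs, h3]
  ring

private theorem as_re_im (c μ : ℝ) {a b : E m} (hab : inner ℝ a b = 0) (hn : ‖a‖ ^ 2 = ‖b‖ ^ 2)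
    (t : ℝ) : inner ℝ (reM c μ a b t) (imM c μ a b t) = 0 := by
  have hba : inner ℝ b a = 0 := by rw [real_inner_comm a b]; exact hab
  unfold reM imM
  rw [inner_smul_left, inner_smul_right, inner_add_left, inner_sub_right, inner_sub_right]
  simp only [inner_smul_left, inner_smul_right, hab, hba, real_inner_self_eq_norm_sq,
    conj_trivial, hn]
  ring

/-- The growth of `|h|^2` and of its derivative. -/
theorem h_asymp (hM : IsSim M c) (hs : Sol M c univ T P h Q) {S : Finset ℝ} {a b : ℝ → E m}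
    (hm : Modes (BB M c) S a b (Q 0) (NN M c (h 0))) {κ : ℝ} (hκ : 0 < κ) (hκS : κ ∈ S)
    (hle : ∀ μ ∈ S, μ ≤ κ) :
    ∃ A > 0, ∃ δ > 0, ∃ C : ℝ, ∀ t ≥ 0,
      |‖h t‖ ^ 2 - A * Real.exp (2 * κ * t)| ≤ C * Real.exp ((2 * κ - δ) * t) ∧
      |2 * inner ℝ (h t) (Q t) - 2 * κ * ‖h t‖ ^ 2| ≤ C * Real.exp ((2 * κ - δ) * t) := by
  obtain ⟨δ, hδ, hδκ, C, hC⟩ := h_lead hs hm hκ hκS hle
  have hk2 : κ ^ 2 + c ^ 2 ≠ 0 := by positivity
  have hBa := hm.Ba κ hκS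
  have hBb := hm.Bb κ hκS
  set a' : E m := (κ ^ 2 + c ^ 2)⁻¹ • (κ • a κ - c • b κ) with ha'
  set b' : E m := (κ ^ 2 + c ^ 2)⁻¹ • (κ • b κ + c • a κ) with hb'
  have hBa' : BB M c a' = κ • b' := by
    rw [ha', hb', map_smul, map_sub, map_smul, map_smul, hBa, hBb]
    module
  have hBb' : BB M c b' = -(κ • a') := by
    rw [ha', hb', map_smul, map_add, map_smul, map_smul, hBa, hBb]
    module
  obtain ⟨hab, hn⟩ := mode_iso hM.skew hκ.ne' hBa' hBb'
  have e1 : κ • a' + c • b' = a κ := by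
    rw [ha', hb', smul_comm κ, smul_comm c, ← smul_add]
    have : κ • (κ • a κ - c • b κ) + c • (κ • b κ + c • a κ) = (κ ^ 2 + c ^ 2) • a κ := by
      module
    rw [this, inv_smul_smul₀ hk2]
  have e2 : κ • b' - c • a' = b κ := by
    rw [ha', hb', smul_comm κ, smul_comm c, ← smul_sub]
    have : κ • (κ • b κ + c • a κ) - c • (κ • a κ - c • b κ) = (κ ^ 2 + c ^ 2) • b κ := by
      module
    rw [this, inv_smul_smul₀ hk2]
  have hlead : ∀ t, reM c κ (a κ) (b κ) t = κ • reM c κ a' b' t + c • imM c κ a' b' t := by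
    intro t
    rw [← e1, ← e2]
    simp only [reM, imM]
    module
  have hApos : 0 < ‖a'‖ ^ 2 := by
    rcases eq_or_ne a' 0 with h0 | h0
    · exfalso
      have hb0 : b' = 0 := by
        rw [h0, norm_zero] at hn
        have : ‖b'‖ ^ 2 = 0 := by rw [← hn]; norm_num
        exact norm_eq_zero.1 (pow_eq_zero_iff (two_ne_zero) |>.1 this)
      rw [h0, hb0] at e1 e2
      simp only [smul_zero, add_zero, sub_zero] at e1 e2
      rcases hm.ne κ hκS with h | h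
      · exact h e1.symm
      · exact h e2.symm
    · have := norm_pos_iff.2 h0
      positivity
  have hH : ∀ t, ‖reM c κ a' b' t‖ = ‖a'‖ * Real.exp (κ * t) := by
    intro t
    have h1 := as_re_norm c κ hab hn t
    have h2 : ‖a'‖ ^ 2 * Real.exp (2 * κ * t) = (‖a'‖ * Real.exp (κ * t)) ^ 2 := by
      rw [mul_pow, sq (Real.exp (κ * t)), ← Real.exp_add]
      congr 2
      ring
    rw [h2] at h1
    exact (pow_left_inj₀ (norm_nonneg _) (by positivity) two_ne_zero).1 h1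
  have hQ0 : ∀ t, ‖reM c κ (a κ) (b κ) t‖ ≤ (‖a κ‖ + ‖b κ‖) * Real.exp (κ * t) := by
    intro t
    unfold reM
    rw [norm_smul, Real.norm_eq_abs, abs_of_pos (Real.exp_pos _), mul_comm]
    refine mul_le_mul_of_nonneg_right ?_ (Real.exp_pos _).le
    refine (norm_add_le _ _).trans ?_
    rw [norm_smul, norm_smul, Real.norm_eq_abs, Real.norm_eq_abs]
    have h1 := mul_le_mul_of_nonneg_right (Real.abs_cos_le_one (c * t)) (norm_nonneg (a κ))
    have h2 := mul_le_mul_of_nonneg_right (Real.abs_sin_le_one (c * t)) (norm_nonneg (b κ))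
    linarith
  have hC0 : 0 ≤ C := by
    have h1 := (hC 0 le_rfl).1
    rw [mul_zero, Real.exp_zero, mul_one] at h1
    exact (norm_nonneg _).trans h1
  set Y : ℝ := ‖a κ‖ + ‖b κ‖ with hY
  have hY0 : 0 ≤ Y := by positivity
  set C₁ : ℝ := 2 * C * ‖a'‖ + C ^ 2 with hC₁
  set C₂ : ℝ := C * Y + C ^ 2 + C * ‖a'‖ with hC₂
  have hC₁0 : 0 ≤ C₁ := by positivity
  have hC₂0 : 0 ≤ C₂ := by positivity
  refine ⟨‖a'‖ ^ 2, hApos, δ, hδ, C₁ + 2 * C₂ + 2 * κ * C₁, fun t ht => ?_⟩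
  obtain ⟨h1, h2⟩ := hC t ht
  set H := reM c κ a' b' t with hHdef
  set Q0 := reM c κ (a κ) (b κ) t with hQ0def
  set E1 : ℝ := Real.exp (κ * t) with hE1
  set E2 : ℝ := Real.exp ((κ - δ) * t) with hE2
  set E3 : ℝ := Real.exp ((2 * κ - δ) * t) with hE3
  have hE1p : 0 < E1 := Real.exp_pos _
  have hE2p : 0 < E2 := Real.exp_pos _
  have hE3p : 0 < E3 := Real.exp_pos _
  have hE12 : E1 * E2 = E3 := by
    rw [hE1, hE2, hE3, ← Real.exp_add]
    congr 1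
    ring
  have hE22 : E2 * E2 ≤ E3 := by
    rw [← hE12]
    refine mul_le_mul_of_nonneg_right ?_ hE2p.le
    exact Real.exp_le_exp.2 (mul_le_mul_of_nonneg_right (by linarith) ht)
  have hHn : ‖H‖ = ‖a'‖ * E1 := hH t
  have hQn : ‖Q0‖ ≤ Y * E1 := hQ0 t
  have hhn : ‖h t‖ ≤ ‖a'‖ * E1 + C * E2 := by
    have h3 : h t = H + (h t - H) := by abel
    rw [h3]
    refine (norm_add_le _ _).trans ?_
    rw [hHn]
    linarith
  have hQtn : ‖Q t‖ ≤ Y * E1 + C * E2 := by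
    have h3 : Q t = Q0 + (Q t - Q0) := by abel
    rw [h3]
    exact (norm_add_le _ _).trans (add_le_add hQn h2)
  have key1 : |‖h t‖ ^ 2 - ‖H‖ ^ 2| ≤ C₁ * E3 := by
    have h3 : ‖h t‖ ^ 2 - ‖H‖ ^ 2 = (‖h t‖ - ‖H‖) * (‖h t‖ + ‖H‖) := by ring
    rw [h3, abs_mul, abs_of_nonneg (show 0 ≤ ‖h t‖ + ‖H‖ by positivity)]
    have h4 : |‖h t‖ - ‖H‖| ≤ C * E2 := (abs_norm_sub_norm_le _ _).trans h1
    have h5 : ‖h t‖ + ‖H‖ ≤ 2 * (‖a'‖ * E1) + C * E2 := by rw [hHn]; linarith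
    calc |‖h t‖ - ‖H‖| * (‖h t‖ + ‖H‖) ≤ (C * E2) * (2 * (‖a'‖ * E1) + C * E2) :=
          mul_le_mul h4 h5 (by positivity) (by positivity)
      _ = 2 * C * ‖a'‖ * (E1 * E2) + C ^ 2 * (E2 * E2) := by ring
      _ ≤ 2 * C * ‖a'‖ * E3 + C ^ 2 * E3 := by
          rw [hE12]
          have := mul_le_mul_of_nonneg_left hE22 (sq_nonneg C)
          linarith
      _ = C₁ * E3 := by rw [hC₁]; ring
  have key2 : |inner ℝ (h t) (Q t) - inner ℝ H Q0| ≤ C₂ * E3 := by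
    have h3 : inner ℝ (h t) (Q t) - inner ℝ H Q0 =
        inner ℝ (h t - H) (Q t) + inner ℝ H (Q t - Q0) := by
      rw [inner_sub_left, inner_sub_right]
      ring
    rw [h3]
    have h4 : |inner ℝ (h t - H) (Q t)| ≤ (C * E2) * (Y * E1 + C * E2) :=
      (abs_real_inner_le_norm _ _).trans
        (mul_le_mul h1 hQtn (norm_nonneg _) (by positivity))
    have h5 : |inner ℝ H (Q t - Q0)| ≤ (‖a'‖ * E1) * (C * E2) := by
      refine (abs_real_inner_le_norm _ _).trans ?_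
      rw [hHn]
      exact mul_le_mul_of_nonneg_left h2 (by positivity)
    calc |inner ℝ (h t - H) (Q t) + inner ℝ H (Q t - Q0)|
        ≤ |inner ℝ (h t - H) (Q t)| + |inner ℝ H (Q t - Q0)| := abs_add_le _ _
      _ ≤ (C * E2) * (Y * E1 + C * E2) + (‖a'‖ * E1) * (C * E2) := add_le_add h4 h5
      _ = C * Y * (E1 * E2) + C ^ 2 * (E2 * E2) + C * ‖a'‖ * (E1 * E2) := by ring
      _ ≤ C * Y * E3 + C ^ 2 * E3 + C * ‖a'‖ * E3 := by
          rw [hE12]
          have := mul_le_mul_of_nonneg_left hE22 (sq_nonneg C)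
          linarith
      _ = C₂ * E3 := by rw [hC₂]; ring
  have key3 : inner ℝ H Q0 = κ * ‖H‖ ^ 2 := by
    rw [hQ0def, hlead t, inner_add_right, inner_smul_right, inner_smul_right,
      real_inner_self_eq_norm_sq, hHdef, as_re_im c κ hab hn t]
    ring
  have hE3' : ‖H‖ ^ 2 = ‖a'‖ ^ 2 * Real.exp (2 * κ * t) := as_re_norm c κ hab hn t
  constructor
  · rw [← hE3']
    refine key1.trans (mul_le_mul_of_nonneg_right ?_ hE3p.le)
    have : 0 ≤ 2 * κ * C₁ := by positivity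
    linarith
  · have h3 : 2 * inner ℝ (h t) (Q t) - 2 * κ * ‖h t‖ ^ 2 =
        2 * (inner ℝ (h t) (Q t) - inner ℝ H Q0) - 2 * κ * (‖h t‖ ^ 2 - ‖H‖ ^ 2) := by
      rw [key3]
      ring
    rw [h3]
    calc |2 * (inner ℝ (h t) (Q t) - inner ℝ H Q0) - 2 * κ * (‖h t‖ ^ 2 - ‖H‖ ^ 2)|
        ≤ |2 * (inner ℝ (h t) (Q t) - inner ℝ H Q0)| + |2 * κ * (‖h t‖ ^ 2 - ‖H‖ ^ 2)| :=
          abs_sub _ _
      _ = 2 * |inner ℝ (h t) (Q t) - inner ℝ H Q0| + 2 * κ * |‖h t‖ ^ 2 - ‖H‖ ^ 2| := by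
          rw [abs_mul, abs_mul, abs_of_pos (show (0 : ℝ) < 2 by norm_num),
            abs_of_pos (show (0 : ℝ) < 2 * κ by positivity)]
      _ ≤ 2 * (C₂ * E3) + 2 * κ * (C₁ * E3) := by
          have := mul_le_mul_of_nonneg_left key1 (show (0 : ℝ) ≤ 2 * κ by positivity)
          linarith
      _ ≤ (C₁ + 2 * C₂ + 2 * κ * C₁) * E3 := by
          have : 0 ≤ C₁ * E3 := mul_nonneg hC₁0 hE3p.le
          linarith

end Pool.Agent.Helix
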