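import Pool.Agent.Helix.Algebra

/-!
# A priori bounds
-/

set_option autoImplicit false

namespace Pool.Agent.Helix

open Set Filter Topology

variable {m : ℕ} {M : E m →L[ℝ] E m} {c : ℝ} {T P h Q : ℝ → E m}

private theorem Bounds_anti {b : ℝ} (hs : Sol M c (Ioo (-b) b) T P h Q)
    (hc : ∀ t ∈ Ioo (-b) b, Cons (T t) (P t) (h t)) :
    AntitoneOn (fun s => ‖P s‖ ^ 2 * Real.exp (-(2 * ‖M‖) * s)) (Ioo (-b) b) := by
  have hd : ∀ s ∈ Ioo (-b) b, HasDerivAt (fun s => ‖P s‖ ^ 2 * Real.exp (-(2 * ‖M‖) * s))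
      (-(2 * inner ℝ (P s) (M (T s))) * Real.exp (-(2 * ‖M‖) * s) +
        ‖P s‖ ^ 2 * (Real.exp (-(2 * ‖M‖) * s) * (-(2 * ‖M‖)))) s := by
    intro s hs'
    have h1 : HasDerivAt (fun s : ℝ => -(2 * ‖M‖) * s) (-(2 * ‖M‖)) s := by
      simpa using (hasDerivAt_id s).const_mul (-(2 * ‖M‖))
    exact (lam_deriv hs hc hs').mul h1.exp
  refine antitoneOn_of_deriv_nonpos (convex_Ioo _ _) ?_ ?_ ?_
  · intro s hs'
    exact (hd s hs').continuousAt.continuousWithinAt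
  · rw [interior_Ioo]
    intro s hs'
    exact (hd s hs').differentiableAt.differentiableWithinAt
  · rw [interior_Ioo]
    intro s hs'
    rw [(hd s hs').deriv]
    have h2 := lam_deriv_bound hs hc hs'
    have h3 := neg_abs_le (2 * inner ℝ (P s) (M (T s)))
    have h4 : 0 < Real.exp (-(2 * ‖M‖) * s) := Real.exp_pos _
    have h5 : -(2 * inner ℝ (P s) (M (T s))) - 2 * ‖M‖ * ‖P s‖ ^ 2 ≤ 0 := by linarith
    nlinarith

private theorem Bounds_mono {b : ℝ} (hs : Sol M c (Ioo (-b) b) T P h Q)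
    (hc : ∀ t ∈ Ioo (-b) b, Cons (T t) (P t) (h t)) :
    MonotoneOn (fun s => ‖P s‖ ^ 2 * Real.exp (2 * ‖M‖ * s)) (Ioo (-b) b) := by
  have hd : ∀ s ∈ Ioo (-b) b, HasDerivAt (fun s => ‖P s‖ ^ 2 * Real.exp (2 * ‖M‖ * s))
      (-(2 * inner ℝ (P s) (M (T s))) * Real.exp (2 * ‖M‖ * s) +
        ‖P s‖ ^ 2 * (Real.exp (2 * ‖M‖ * s) * (2 * ‖M‖))) s := by
    intro s hs'
    have h1 : HasDerivAt (fun s : ℝ => 2 * ‖M‖ * s) (2 * ‖M‖) s := by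
      simpa using (hasDerivAt_id s).const_mul (2 * ‖M‖)
    exact (lam_deriv hs hc hs').mul h1.exp
  refine monotoneOn_of_deriv_nonneg (convex_Ioo _ _) ?_ ?_ ?_
  · intro s hs'
    exact (hd s hs').continuousAt.continuousWithinAt
  · rw [interior_Ioo]
    intro s hs'
    exact (hd s hs').differentiableAt.differentiableWithinAt
  · rw [interior_Ioo]
    intro s hs'
    rw [(hd s hs').deriv]
    have h2 := lam_deriv_bound hs hc hs'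
    have h3 := le_abs_self (2 * inner ℝ (P s) (M (T s)))
    have h4 : 0 < Real.exp (2 * ‖M‖ * s) := Real.exp_pos _
    have h5 : 0 ≤ -(2 * inner ℝ (P s) (M (T s))) + 2 * ‖M‖ * ‖P s‖ ^ 2 := by linarith
    nlinarith

/-- Upper bound for `|P|`. -/
theorem lam_le {b : ℝ} (hb : 0 < b) (hs : Sol M c (Ioo (-b) b) T P h Q)
    (hc : ∀ t ∈ Ioo (-b) b, Cons (T t) (P t) (h t)) {t : ℝ} (ht : t ∈ Ioo (-b) b) :
    ‖P t‖ ^ 2 ≤ ‖P 0‖ ^ 2 * Real.exp (2 * ‖M‖ * |t|) := by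
  have h0 : (0 : ℝ) ∈ Ioo (-b) b := ⟨by linarith, hb⟩
  rcases le_total 0 t with h1 | h1
  · have h2 := Bounds_anti hs hc h0 ht h1
    simp only [mul_zero, Real.exp_zero, mul_one] at h2
    rw [abs_of_nonneg h1]
    have h3 : Real.exp (-(2 * ‖M‖) * t) * Real.exp (2 * ‖M‖ * t) = 1 := by
      rw [← Real.exp_add]
      simp
    calc ‖P t‖ ^ 2 = ‖P t‖ ^ 2 * Real.exp (-(2 * ‖M‖) * t) * Real.exp (2 * ‖M‖ * t) := by
          rw [mul_assoc, h3, mul_one]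
      _ ≤ ‖P 0‖ ^ 2 * Real.exp (2 * ‖M‖ * t) :=
          mul_le_mul_of_nonneg_right h2 (Real.exp_pos _).le
  · have h2 := Bounds_mono hs hc ht h0 h1
    simp only [mul_zero, Real.exp_zero, mul_one] at h2
    rw [abs_of_nonpos h1]
    have h3 : Real.exp (2 * ‖M‖ * t) * Real.exp (2 * ‖M‖ * -t) = 1 := by
      rw [← Real.exp_add]
      simp
    calc ‖P t‖ ^ 2 = ‖P t‖ ^ 2 * Real.exp (2 * ‖M‖ * t) * Real.exp (2 * ‖M‖ * -t) := by
          rw [mul_assoc, h3, mul_one]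
      _ ≤ ‖P 0‖ ^ 2 * Real.exp (2 * ‖M‖ * -t) :=
          mul_le_mul_of_nonneg_right h2 (Real.exp_pos _).le

/-- Lower bound for `|P|`. -/
theorem le_lam {b : ℝ} (hb : 0 < b) (hs : Sol M c (Ioo (-b) b) T P h Q)
    (hc : ∀ t ∈ Ioo (-b) b, Cons (T t) (P t) (h t)) {t : ℝ} (ht : t ∈ Ioo (-b) b) :
    ‖P 0‖ ^ 2 * Real.exp (-(2 * ‖M‖ * |t|)) ≤ ‖P t‖ ^ 2 := by
  have h0 : (0 : ℝ) ∈ Ioo (-b) b := ⟨by linarith, hb⟩
  rcases le_total 0 t with h1 | h1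
  · have h2 := Bounds_mono hs hc h0 ht h1
    simp only [mul_zero, Real.exp_zero, mul_one] at h2
    rw [abs_of_nonneg h1]
    have h3 : Real.exp (2 * ‖M‖ * t) * Real.exp (-(2 * ‖M‖ * t)) = 1 := by
      rw [← Real.exp_add]
      simp
    calc ‖P 0‖ ^ 2 * Real.exp (-(2 * ‖M‖ * t))
        ≤ ‖P t‖ ^ 2 * Real.exp (2 * ‖M‖ * t) * Real.exp (-(2 * ‖M‖ * t)) :=
          mul_le_mul_of_nonneg_right h2 (Real.exp_pos _).le
      _ = ‖P t‖ ^ 2 := by rw [mul_assoc, h3, mul_one]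
  · have h2 := Bounds_anti hs hc ht h0 h1
    simp only [mul_zero, Real.exp_zero, mul_one] at h2
    rw [abs_of_nonpos h1]
    have h3 : Real.exp (-(2 * ‖M‖) * t) * Real.exp (-(2 * ‖M‖ * -t)) = 1 := by
      rw [← Real.exp_add]
      simp
    calc ‖P 0‖ ^ 2 * Real.exp (-(2 * ‖M‖ * -t))
        ≤ ‖P t‖ ^ 2 * Real.exp (-(2 * ‖M‖) * t) * Real.exp (-(2 * ‖M‖ * -t)) :=
          mul_le_mul_of_nonneg_right h2 (Real.exp_pos _).le
      _ = ‖P t‖ ^ 2 := by rw [mul_assoc, h3, mul_one]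

/-- Gronwall to the right. -/
private theorem Bounds_gronwall {F : Type*} [NormedAddCommGroup F] [NormedSpace ℝ F] {f f' : ℝ → F}
    {K t : ℝ} (ht : 0 ≤ t) (hf : ∀ s ∈ Icc 0 t, HasDerivAt f (f' s) s)
    (hK : ∀ s ∈ Icc 0 t, ‖f' s‖ ≤ K * ‖f s‖) : ‖f t‖ ≤ ‖f 0‖ * Real.exp (K * t) := by
  have h1 := norm_le_gronwallBound_of_norm_deriv_right_le (f := f) (f' := f') (δ := ‖f 0‖) (K := K)
    (ε := 0) (a := 0) (b := t) (fun s hs => (hf s hs).continuousAt.continuousWithinAt)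
    (fun s hs => (hf s ⟨hs.1, hs.2.le⟩).hasDerivWithinAt) le_rfl
    (fun s hs => by
      rw [add_zero]
      exact hK s ⟨hs.1, hs.2.le⟩) t ⟨ht, le_rfl⟩
  rwa [gronwallBound_ε0, sub_zero] at h1

/-- Bound for the linear part. -/
theorem hQ_le {b : ℝ} (hb : 0 < b) (hs : Sol M c (Ioo (-b) b) T P h Q) {t : ℝ}
    (ht : t ∈ Ioo (-b) b) :
    ‖(h t, Q t)‖ ≤ ‖(h 0, Q 0)‖ * Real.exp ((1 + ‖NN M c‖ ^ 2) * |t|) := by
  have hN : ∀ x : E m, ‖NN M c (NN M c x)‖ ≤ ‖NN M c‖ ^ 2 * ‖x‖ := by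
    intro x
    calc ‖NN M c (NN M c x)‖ ≤ ‖NN M c‖ * ‖NN M c x‖ := (NN M c).le_opNorm _
      _ ≤ ‖NN M c‖ * (‖NN M c‖ * ‖x‖) :=
          mul_le_mul_of_nonneg_left ((NN M c).le_opNorm _) (norm_nonneg _)
      _ = ‖NN M c‖ ^ 2 * ‖x‖ := by ring
  have hbound : ∀ s, ‖(Q s, -(NN M c (NN M c (h s))))‖ ≤ (1 + ‖NN M c‖ ^ 2) * ‖(h s, Q s)‖ := by
    intro s
    have e1 : ‖h s‖ ≤ ‖(h s, Q s)‖ := norm_fst_le (h s, Q s)
    have e2 : ‖Q s‖ ≤ ‖(h s, Q s)‖ := norm_snd_le (h s, Q s)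
    rw [Prod.norm_def]
    refine max_le ?_ ?_
    · simp only
      nlinarith [norm_nonneg (h s, Q s), sq_nonneg ‖NN M c‖]
    · simp only
      rw [norm_neg]
      refine (hN _).trans ?_
      nlinarith [norm_nonneg (h s, Q s), sq_nonneg ‖NN M c‖, norm_nonneg (h s)]
  have hd : ∀ s ∈ Ioo (-b) b, HasDerivAt (fun s => (h s, Q s)) (Q s, -(NN M c (NN M c (h s)))) s :=
    fun s hs' => (hs.dh s hs').prodMk (hs.dQ s hs')
  rcases le_total 0 t with h1 | h1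
  · rw [abs_of_nonneg h1]
    exact Bounds_gronwall (f := fun s => (h s, Q s)) (f' := fun s => (Q s, -(NN M c (NN M c (h s)))))
      h1 (fun s hs' => hd s ⟨by linarith [hs'.1], lt_of_le_of_lt hs'.2 ht.2⟩)
      (fun s _ => hbound s)
  · rw [abs_of_nonpos h1]
    have h2 := Bounds_gronwall (f := fun s => (h (-s), Q (-s)))
      (f' := fun s => -((Q (-s), -(NN M c (NN M c (h (-s))))) : E m × E m))
      (K := 1 + ‖NN M c‖ ^ 2) (t := -t) (by linarith)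
      (fun s hs' => by
        have h3 := hd (-s) ⟨by linarith [hs'.2, ht.1], by linarith [hs'.1]⟩
        have h4 := h3.scomp s (hasDerivAt_neg s)
        have h5 : (-1 : ℝ) • ((Q (-s), -(NN M c (NN M c (h (-s))))) : E m × E m) =
            -((Q (-s), -(NN M c (NN M c (h (-s))))) : E m × E m) := neg_one_smul _ _
        rw [h5] at h4
        exact h4)
      (fun s _ => by
        rw [norm_neg]
        exact hbound (-s))
    simp only [neg_neg, neg_zero] at h2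
    exact h2

/-- A bound for the whole state on bounded intervals, depending only on the initial values. -/
theorem state_le (M : E m →L[ℝ] E m) (c : ℝ) (T0 P0 h0 Q0 : E m) (a : ℝ) :
    ∃ R : ℝ, ∀ (T P h Q : ℝ → E m) (b : ℝ), 0 < b → b ≤ a →
      T 0 = T0 → P 0 = P0 → h 0 = h0 → Q 0 = Q0 →
      Sol M c (Ioo (-b) b) T P h Q → (∀ t ∈ Ioo (-b) b, Cons (T t) (P t) (h t)) →
      ∀ t ∈ Ioo (-b) b, ‖T t‖ ≤ R ∧ ‖P t‖ ≤ R ∧ ‖h t‖ ≤ R ∧ ‖Q t‖ ≤ R := by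
  refine ⟨‖P0‖ ^ 2 * Real.exp (2 * ‖M‖ * a) + 1 +
    ‖(h0, Q0)‖ * Real.exp ((1 + ‖NN M c‖ ^ 2) * a), ?_⟩
  intro T P h Q b hb hba hT0 hP0 hh0 hQ0 hs hc t ht
  have hta : |t| ≤ a := by
    rw [abs_le]
    constructor
    · linarith [ht.1]
    · linarith [ht.2]
  have h1 := lam_le hb hs hc ht
  have h2 := hQ_le hb hs ht
  rw [hP0] at h1
  rw [hh0, hQ0] at h2
  have e1 : Real.exp (2 * ‖M‖ * |t|) ≤ Real.exp (2 * ‖M‖ * a) :=
    Real.exp_le_exp.2 (mul_le_mul_of_nonneg_left hta (by positivity))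
  have e2 : Real.exp ((1 + ‖NN M c‖ ^ 2) * |t|) ≤ Real.exp ((1 + ‖NN M c‖ ^ 2) * a) :=
    Real.exp_le_exp.2 (mul_le_mul_of_nonneg_left hta (by positivity))
  have h3 : ‖P t‖ ^ 2 ≤ ‖P0‖ ^ 2 * Real.exp (2 * ‖M‖ * a) :=
    h1.trans (mul_le_mul_of_nonneg_left e1 (by positivity))
  have h4 : ‖(h t, Q t)‖ ≤ ‖(h0, Q0)‖ * Real.exp ((1 + ‖NN M c‖ ^ 2) * a) :=
    h2.trans (mul_le_mul_of_nonneg_left e2 (norm_nonneg _))
  have h5 : ‖P t‖ ≤ ‖P0‖ ^ 2 * Real.exp (2 * ‖M‖ * a) + 1 := by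
    nlinarith [sq_nonneg (‖P t‖ - 1)]
  have h6 : ‖T t‖ = ‖P t‖ :=
    ((sq_eq_sq₀ (norm_nonneg _) (norm_nonneg _)).1 (hc t ht).norm_eq).symm
  have h7 : 0 ≤ ‖(h0, Q0)‖ * Real.exp ((1 + ‖NN M c‖ ^ 2) * a) := by positivity
  have h8 : 0 ≤ ‖P0‖ ^ 2 * Real.exp (2 * ‖M‖ * a) := by positivity
  have h9 : ‖h t‖ ≤ ‖(h t, Q t)‖ := norm_fst_le (h t, Q t)
  have h10 : ‖Q t‖ ≤ ‖(h t, Q t)‖ := norm_snd_le (h t, Q t)
  refine ⟨?_, ?_, ?_, ?_⟩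
  · rw [h6]
    linarith
  · linarith
  · linarith
  · linarith

end Pool.Agent.Helix
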