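import Mathlib

/-!
# Solutions of a compactly supported ordinary differential equation
-/

set_option autoImplicit false

namespace Pool.Agent.Helix

open Set Filter Topology

variable {V : Type*} [NormedAddCommGroup V] [NormedSpace ℝ V] [FiniteDimensional ℝ V]

/-- A compactly supported `C^1` vector field has solutions on every interval `[-a, a]`. -/
theorem exists_sol_of_compact {v : V → V} (hv : ContDiff ℝ 1 v) (hc : HasCompactSupport v)
    (x : V) {a : ℝ} (ha : 0 < a) :
    ∃ Z : ℝ → V, Z 0 = x ∧ ContinuousOn Z (Icc (-a) a) ∧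
      ∀ t ∈ Ioo (-a) a, HasDerivAt Z (v (Z t)) t := by
  have : CompleteSpace V := FiniteDimensional.complete ℝ V
  obtain ⟨K, hK⟩ := ContDiff.lipschitzWith_of_hasCompactSupport hc hv one_ne_zero
  obtain ⟨L, hL⟩ := hc.exists_bound_of_continuous hv.continuous
  have hL0 : 0 ≤ L := (norm_nonneg _).trans (hL 0)
  have h0 : (0 : ℝ) ∈ Icc (-a) a := ⟨by linarith, ha.le⟩
  have hP : IsPicardLindelof (fun _ : ℝ => v) (tmin := -a) (tmax := a) ⟨0, h0⟩ x
      (Real.toNNReal (L * a)) 0 (Real.toNNReal L) K := by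
    refine ⟨fun t _ => hK.lipschitzOnWith, fun y _ => continuousOn_const, fun t _ y _ => ?_, ?_⟩
    · rw [Real.coe_toNNReal L hL0]
      exact hL y
    · rw [Real.coe_toNNReal L hL0, Real.coe_toNNReal _ (mul_nonneg hL0 ha.le)]
      simp
  obtain ⟨Z, hZ0, hZ⟩ := hP.exists_eq_forall_mem_Icc_hasDerivWithinAt₀
  exact ⟨Z, hZ0, fun t ht => (hZ t ht).continuousWithinAt, fun t ht =>
    (hZ t (Ioo_subset_Icc_self ht)).hasDerivAt (Icc_mem_nhds ht.1 ht.2)⟩

end Pool.Agent.Helix
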