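import Mathlib

/-!
# Decay from infinity
-/

set_option autoImplicit false

namespace Pool.Agent.Helix

open Set Filter Topology

private theorem decay_exp_tendsto {r : ℝ} (hr : 0 < r) (A : ℝ) :
    Tendsto (fun s : ℝ => A * Real.exp (-(r * s))) atTop (𝓝 0) := by
  have h1 : Tendsto (fun s : ℝ => -(r * s)) atTop atBot :=
    tendsto_neg_atTop_atBot.comp (Tendsto.const_mul_atTop hr tendsto_id)
  simpa using (Real.tendsto_exp_atBot.comp h1).const_mul A

private theorem decay_gen {F : Type*} [NormedAddCommGroup F] [NormedSpace ℝ F] {f f' : ℝ → F}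
    {t0 r Y : ℝ} (hr : 0 < r)
    (hd : ∀ t ≥ t0, HasDerivAt f (f' t) t)
    (hb : ∀ t ≥ t0, ‖f' t‖ ≤ Y * Real.exp (-(r * t)))
    (h0 : Tendsto f atTop (𝓝 0)) :
    ∀ t ≥ t0, ‖f t‖ ≤ Y / r * Real.exp (-(r * t)) := by
  intro t ht
  have hB : ∀ x : ℝ, HasDerivAt
      (fun s : ℝ => Y / r * Real.exp (-(r * t)) - Y / r * Real.exp (-(r * s)))
      (Y * Real.exp (-(r * x))) x := by
    intro x
    have h1 : HasDerivAt (fun s : ℝ => -(r * s)) (-(r * 1)) x :=
      ((hasDerivAt_id x).const_mul r).neg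
    have h2 := (h1.exp.const_mul (Y / r)).const_sub (Y / r * Real.exp (-(r * t)))
    have h3 : -(Y / r * (Real.exp (-(r * x)) * -(r * 1))) = Y * Real.exp (-(r * x)) := by
      field_simp
    rw [h3] at h2
    exact h2
  have hkey : ∀ s, t ≤ s → ‖f s - f t‖ ≤
      Y / r * Real.exp (-(r * t)) - Y / r * Real.exp (-(r * s)) := by
    intro s hs
    have h1 := image_norm_le_of_norm_deriv_right_le_deriv_boundary
      (f := fun x => f x - f t) (f' := f') (a := t) (b := s)
      (fun x hx => ((hd x (le_trans ht hx.1)).continuousAt.continuousWithinAt).sub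
        continuousWithinAt_const)
      (fun x hx => ((hd x (le_trans ht hx.1)).sub_const (f t)).hasDerivWithinAt)
      (B := fun s : ℝ => Y / r * Real.exp (-(r * t)) - Y / r * Real.exp (-(r * s)))
      (B' := fun x => Y * Real.exp (-(r * x)))
      (by simp) hB (fun x hx => hb x (le_trans ht hx.1))
    exact h1 ⟨hs, le_refl s⟩
  have hl1 : Tendsto (fun s => ‖f s - f t‖) atTop (𝓝 ‖(0 : F) - f t‖) :=
    (h0.sub_const (f t)).norm
  have hl2 : Tendsto (fun s : ℝ => Y / r * Real.exp (-(r * t)) - Y / r * Real.exp (-(r * s)))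
      atTop (𝓝 (Y / r * Real.exp (-(r * t)) - 0)) :=
    (decay_exp_tendsto hr (Y / r)).const_sub _
  have h := le_of_tendsto_of_tendsto hl1 hl2
    ((eventually_ge_atTop t).mono fun s hs => hkey s hs)
  simpa using h

/-- A function tending to `0` at infinity whose derivative is exponentially small. -/
theorem decay {f f' : ℝ → ℂ} {t0 r Y : ℝ} (hr : 0 < r) (hY : 0 ≤ Y)
    (hd : ∀ t ≥ t0, HasDerivAt f (f' t) t)
    (hb : ∀ t ≥ t0, ‖f' t‖ ≤ Y * Real.exp (-(r * t)))
    (h0 : Tendsto f atTop (𝓝 0)) :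
    ∀ t ≥ t0, ‖f t‖ ≤ Y / r * Real.exp (-(r * t)) :=
  decay_gen hr hd hb h0

/-- The same for real functions. -/
theorem decay_real {f f' : ℝ → ℝ} {t0 r Y : ℝ} (hr : 0 < r) (hY : 0 ≤ Y)
    (hd : ∀ t ≥ t0, HasDerivAt f (f' t) t)
    (hb : ∀ t ≥ t0, |f' t| ≤ Y * Real.exp (-(r * t)))
    (h0 : Tendsto f atTop (𝓝 0)) :
    ∀ t ≥ t0, |f t| ≤ Y / r * Real.exp (-(r * t)) :=
  decay_gen (F := ℝ) hr hd hb h0

/-- Bounded solutions of `y' = κ y + e` with `κ > 0` and `e` exponentially small are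
exponentially small. -/
theorem decay_unstable {y e : ℝ → ℝ} {t0 κ r Y C : ℝ} (hκ : 0 < κ) (hr : 0 < κ + r)
    (hY : 0 ≤ Y) (hd : ∀ t ≥ t0, HasDerivAt y (κ * y t + e t) t)
    (hb : ∀ t ≥ t0, |e t| ≤ Y * Real.exp (-(r * t)))
    (hy : ∀ t ≥ t0, |y t| ≤ C) :
    ∀ t ≥ t0, |y t| ≤ Y / (κ + r) * Real.exp (-(r * t)) := by
  have hexp : ∀ x : ℝ, HasDerivAt (fun s : ℝ => Real.exp (-(κ * s)))
      (Real.exp (-(κ * x)) * -(κ * 1)) x := fun x =>
    ((hasDerivAt_id x).const_mul κ).neg.exp
  have h1 := decay_real (f := fun t => Real.exp (-(κ * t)) * y t)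
    (f' := fun t => Real.exp (-(κ * t)) * e t) (t0 := t0) (r := κ + r) (Y := Y) hr hY
    (fun t ht => by
      have h2 := (hexp t).mul (hd t ht)
      have h3 : Real.exp (-(κ * t)) * -(κ * 1) * y t + Real.exp (-(κ * t)) * (κ * y t + e t) =
          Real.exp (-(κ * t)) * e t := by ring
      rw [h3] at h2
      exact h2)
    (fun t ht => by
      rw [abs_mul, Real.abs_exp]
      have h2 := mul_le_mul_of_nonneg_left (hb t ht) (Real.exp_pos (-(κ * t))).le
      have h3 : Real.exp (-(κ * t)) * (Y * Real.exp (-(r * t))) =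
          Y * Real.exp (-((κ + r) * t)) := by
        have : Real.exp (-((κ + r) * t)) = Real.exp (-(κ * t)) * Real.exp (-(r * t)) := by
          rw [← Real.exp_add]
          congr 1
          ring
        rw [this]
        ring
      rw [h3] at h2
      exact h2)
    (by
      refine squeeze_zero_norm' (a := fun t => C * Real.exp (-(κ * t))) ?_
        (decay_exp_tendsto hκ C)
      filter_upwards [eventually_ge_atTop t0] with t ht
      rw [Real.norm_eq_abs, abs_mul, Real.abs_exp, mul_comm]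
      exact mul_le_mul_of_nonneg_right (hy t ht) (Real.exp_pos _).le)
  intro t ht
  have h2 := h1 t ht
  rw [abs_mul, Real.abs_exp] at h2
  have h3 := mul_le_mul_of_nonneg_left h2 (Real.exp_pos (κ * t)).le
  have h4 : Real.exp (κ * t) * (Real.exp (-(κ * t)) * |y t|) = |y t| := by
    rw [← mul_assoc, ← Real.exp_add]
    simp
  have h5 : Real.exp (κ * t) * (Y / (κ + r) * Real.exp (-((κ + r) * t))) =
      Y / (κ + r) * Real.exp (-(r * t)) := by
    have : Real.exp (-(r * t)) = Real.exp (κ * t) * Real.exp (-((κ + r) * t)) := by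
      rw [← Real.exp_add]
      congr 1
      ring
    rw [this]
    ring
  rw [h4, h5] at h3
  exact h3

/-- Solutions of `p' = ν p + G` with `e^{-ν t} p → 0` and `G` exponentially small. -/
theorem decay_mode {p G : ℝ → ℂ} {ν : ℂ} {t0 r Y : ℝ} (hr : 0 < ν.re + r) (hY : 0 ≤ Y)
    (hd : ∀ t ≥ t0, HasDerivAt p (ν * p t + G t) t)
    (hb : ∀ t ≥ t0, ‖G t‖ ≤ Y * Real.exp (-(r * t)))
    (h0 : Tendsto (fun t => Real.exp (-(ν.re * t)) * ‖p t‖) atTop (𝓝 0)) :
    ∀ t ≥ t0, ‖p t‖ ≤ Y / (ν.re + r) * Real.exp (-(r * t)) := by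
  have hexp : ∀ x : ℝ, HasDerivAt (fun s : ℝ => Complex.exp (-(ν * s)))
      (Complex.exp (-(ν * x)) * -(ν * 1)) x := fun x =>
    ((Complex.ofRealCLM.hasDerivAt (x := x)).const_mul ν).neg.cexp
  have hnorm : ∀ t : ℝ, ‖Complex.exp (-(ν * t))‖ = Real.exp (-(ν.re * t)) := by
    intro t
    rw [Complex.norm_exp]
    simp
  have h1 := decay (f := fun t => Complex.exp (-(ν * t)) * p t)
    (f' := fun t => Complex.exp (-(ν * t)) * G t) (t0 := t0) (r := ν.re + r) (Y := Y) hr hY
    (fun t ht => by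
      have h2 := (hexp t).mul (hd t ht)
      have h3 : Complex.exp (-(ν * t)) * -(ν * 1) * p t +
          Complex.exp (-(ν * t)) * (ν * p t + G t) = Complex.exp (-(ν * t)) * G t := by ring
      rw [h3] at h2
      exact h2)
    (fun t ht => by
      rw [norm_mul, hnorm]
      have h2 := mul_le_mul_of_nonneg_left (hb t ht) (Real.exp_pos (-(ν.re * t))).le
      have h3 : Real.exp (-(ν.re * t)) * (Y * Real.exp (-(r * t))) =
          Y * Real.exp (-((ν.re + r) * t)) := by
        have : Real.exp (-((ν.re + r) * t)) = Real.exp (-(ν.re * t)) * Real.exp (-(r * t)) := by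
          rw [← Real.exp_add]
          congr 1
          ring
        rw [this]
        ring
      rw [h3] at h2
      exact h2)
    (by
      rw [tendsto_zero_iff_norm_tendsto_zero]
      refine h0.congr fun t => ?_
      rw [norm_mul, hnorm])
  intro t ht
  have h2 := h1 t ht
  rw [norm_mul, hnorm] at h2
  have h3 := mul_le_mul_of_nonneg_left h2 (Real.exp_pos (ν.re * t)).le
  have h4 : Real.exp (ν.re * t) * (Real.exp (-(ν.re * t)) * ‖p t‖) = ‖p t‖ := by
    rw [← mul_assoc, ← Real.exp_add]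
    simp
  have h5 : Real.exp (ν.re * t) * (Y / (ν.re + r) * Real.exp (-((ν.re + r) * t))) =
      Y / (ν.re + r) * Real.exp (-(r * t)) := by
    have : Real.exp (-(r * t)) = Real.exp (ν.re * t) * Real.exp (-((ν.re + r) * t)) := by
      rw [← Real.exp_add]
      congr 1
      ring
    rw [this]
    ring
  rw [h4, h5] at h3
  exact h3

end Pool.Agent.Helix
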