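import Mathlib

/-!
# Profile curves of surfaces invariant under a one-parameter group of similarities

Definitions shared by the files of this directory.
-/

set_option autoImplicit false

namespace Pool.Agent.Helix

open Set Filter Topology

/-- Euclidean space. -/
abbrev E (m : ℕ) := EuclideanSpace ℝ (Fin m)

variable {m : ℕ}

/-- `x ↦ M x + w` generates a one-parameter group of similarities with ratio `exp (c s)`. -/
def IsSim (M : E m →L[ℝ] E m) (c : ℝ) : Prop :=
  ∀ x y, inner ℝ (M x) y + inner ℝ x (M y) = 2 * c * inner ℝ x y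

/-- The operator `N = M - 2 c`. -/
noncomputable def NN (M : E m →L[ℝ] E m) (c : ℝ) : E m →L[ℝ] E m :=
  M - (2 * c) • ContinuousLinearMap.id ℝ (E m)

/-- The operator `B = M - c` (skew-symmetric when `IsSim M c`). -/
noncomputable def BB (M : E m →L[ℝ] E m) (c : ℝ) : E m →L[ℝ] E m :=
  M - c • ContinuousLinearMap.id ℝ (E m)

theorem NN_apply (M : E m →L[ℝ] E m) (c : ℝ) (x : E m) : NN M c x = M x - (2 * c) • x := by
  simp [NN]

theorem BB_apply (M : E m →L[ℝ] E m) (c : ℝ) (x : E m) : BB M c x = M x - c • x := by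
  simp [BB]

theorem NN_eq (M : E m →L[ℝ] E m) (c : ℝ) (x : E m) : NN M c x = BB M c x - c • x := by
  rw [NN_apply, BB_apply, two_mul, add_smul]; abel

theorem M_eq (M : E m →L[ℝ] E m) (c : ℝ) (x : E m) : M x = BB M c x + c • x := by
  rw [BB_apply]; abel

/-- The transpose of `M` is `-N`. -/
theorem IsSim.inner_left {M : E m →L[ℝ] E m} {c : ℝ} (hM : IsSim M c) (x y : E m) :
    inner ℝ (M x) y = - inner ℝ x (NN M c y) := by
  have h := hM x y
  rw [NN_apply, inner_sub_right, inner_smul_right]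
  linarith

/-- The transpose of `N` is `-M`. -/
theorem IsSim.inner_NN_left {M : E m →L[ℝ] E m} {c : ℝ} (hM : IsSim M c) (x y : E m) :
    inner ℝ (NN M c x) y = - inner ℝ x (M y) := by
  have h := hM x y
  rw [NN_apply, inner_sub_left, inner_smul_left]
  simp only [conj_trivial]
  linarith

/-- `B` is skew-symmetric. -/
theorem IsSim.skew {M : E m →L[ℝ] E m} {c : ℝ} (hM : IsSim M c) (x y : E m) :
    inner ℝ (BB M c x) y = - inner ℝ x (BB M c y) := by
  have h := hM x y
  rw [BB_apply, BB_apply, inner_sub_left, inner_sub_right, inner_smul_left, inner_smul_right]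
  simp only [conj_trivial]
  linarith

theorem IsSim.skew_self {M : E m →L[ℝ] E m} {c : ℝ} (hM : IsSim M c) (x : E m) :
    inner ℝ (BB M c x) x = 0 := by
  have h := hM.skew x x
  rw [real_inner_comm x (BB M c x)] at h
  linarith [real_inner_comm x (BB M c x)]

theorem BB_NN_comm (M : E m →L[ℝ] E m) (c : ℝ) (x : E m) :
    BB M c (NN M c x) = NN M c (BB M c x) := by
  simp only [NN_apply, BB_apply, map_sub, map_smul, smul_sub, smul_smul]
  rw [mul_comm c (2 * c)]
  abel

/-- The system of ordinary differential equations of the profile curve, on a set of times `J`: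
`T' = M P`, `P' = - M T + |P|^2 h`, `h' = Q`, `Q' = - N^2 h`. -/
structure Sol (M : E m →L[ℝ] E m) (c : ℝ) (J : Set ℝ) (T P h Q : ℝ → E m) : Prop where
  dT : ∀ t ∈ J, HasDerivAt T (M (P t)) t
  dP : ∀ t ∈ J, HasDerivAt P (-(M (T t)) + (‖P t‖ ^ 2) • h t) t
  dh : ∀ t ∈ J, HasDerivAt h (Q t) t
  dQ : ∀ t ∈ J, HasDerivAt Q (-(NN M c (NN M c (h t)))) t

/-- The constraints at one time. -/
structure Cons (T P h : E m) : Prop where
  norm_eq : ‖P‖ ^ 2 = ‖T‖ ^ 2
  PT : inner ℝ P T = 0
  Ph : inner ℝ P h = 0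
  Th : inner ℝ T h = 0

end Pool.Agent.Helix
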