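import Pool.Agent.Helix.Algebra

/-!
# The case `c ≠ 0`, `h` with values in the kernel of `B`
-/

set_option autoImplicit false

namespace Pool.Agent.Helix

open Set Filter Topology

variable {m : ℕ} {M : E m →L[ℝ] E m} {c : ℝ} {T P h Q : ℝ → E m}

/-- The case `c ≠ 0`. -/
theorem end_ne (hM : IsSim M c) (hc0 : c ≠ 0) (hs : Sol M c univ T P h Q)
    (hc : ∀ t, Cons (T t) (P t) (h t)) (hP : ∀ t, P t ≠ 0)
    (hB : ∀ t, BB M c (h t) = 0 ∧ BB M c (Q t) = 0) : h 0 = 0 := by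
  have hNh : ∀ t, NN M c (h t) = -(c • h t) := fun t => by rw [NN_eq, (hB t).1, zero_sub]
  have hNQ : ∀ t, NN M c (Q t) = -(c • Q t) := fun t => by rw [NN_eq, (hB t).2, zero_sub]
  have hTQ : ∀ t, inner ℝ (T t) (Q t) = (0 : ℝ) := by
    intro t
    rw [c6 hM isOpen_univ hs (fun t _ => hc t) (mem_univ t), hNh, inner_neg_right,
      inner_smul_right, (hc t).Ph, mul_zero, neg_zero]
  have hMPQ : ∀ t, inner ℝ (M (P t)) (Q t) = (0 : ℝ) := by
    intro t
    have h1 : HasDerivAt (fun s => (inner ℝ (T s) (Q s) : ℝ))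
        (inner ℝ (T t) (-(NN M c (NN M c (h t)))) + inner ℝ (M (P t)) (Q t)) t :=
      (hs.dT t (mem_univ t)).inner ℝ (hs.dQ t (mem_univ t))
    have h2 : (fun s => (inner ℝ (T s) (Q s) : ℝ)) = fun _ => (0 : ℝ) := funext hTQ
    rw [h2] at h1
    have h3 := h1.unique (hasDerivAt_const t (0 : ℝ))
    rw [hNh, map_neg, map_smul, hNh, inner_neg_right, inner_neg_right, inner_smul_right,
      inner_neg_right, inner_smul_right, (hc t).Th] at h3
    simpa using h3
  have hPQ : inner ℝ (P 0) (Q 0) = (0 : ℝ) := by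
    have h1 := hMPQ 0
    rw [hM.inner_left, hNQ, inner_neg_right, inner_smul_right, neg_neg] at h1
    exact (mul_eq_zero.mp h1).resolve_left hc0
  have h5 := c5 hM isOpen_univ hs (fun t _ => hc t) (mem_univ (0 : ℝ))
  rw [hPQ, hNh, inner_neg_right, inner_smul_right, (hc 0).Th, mul_zero, neg_zero, add_zero] at h5
  have h6 : ‖P 0‖ ^ 2 * ‖h 0‖ ^ 2 = 0 := by linarith
  rcases mul_eq_zero.mp h6 with h7 | h7
  · exact absurd (norm_eq_zero.mp (pow_eq_zero_iff (two_ne_zero) |>.mp h7)) (hP 0)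
  · exact norm_eq_zero.mp (pow_eq_zero_iff (two_ne_zero) |>.mp h7)

end Pool.Agent.Helix
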