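import Pool.Agent.Helix.Algebra

/-!
# The case `c = 0`, `h` with values in the kernel of `B`
-/

set_option autoImplicit false

namespace Pool.Agent.Helix

open Set Filter Topology

variable {m : ℕ} {M : E m →L[ℝ] E m} {c : ℝ} {T P h Q : ℝ → E m}

/-- A convex function on the line which tends to `0` at both ends is nowhere positive. -/
theorem convex_nonpos {f : ℝ → ℝ} (hf : ConvexOn ℝ univ f) (h1 : Tendsto f atTop (𝓝 0))
    (h2 : Tendsto f atBot (𝓝 0)) (t : ℝ) : f t ≤ 0 := by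
  refine le_of_forall_pos_le_add fun ε hε => ?_
  rw [zero_add]
  obtain ⟨b, hb1, hb2⟩ := ((h1.eventually (gt_mem_nhds hε)).and (eventually_ge_atTop t)).exists
  obtain ⟨a, ha1, ha2⟩ := ((h2.eventually (gt_mem_nhds hε)).and (eventually_le_atBot t)).exists
  refine le_trans (hf.le_max_of_mem_Icc (mem_univ a) (mem_univ b) ⟨ha2, hb2⟩) ?_
  exact max_le ha1.le hb1.le

private theorem endgame_NN (M : E m →L[ℝ] E m) (x : E m) : NN M 0 x = M x := by
  rw [NN_apply]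
  simp

private theorem endgame_BB (M : E m →L[ℝ] E m) (x : E m) : BB M 0 x = M x := by
  rw [BB_apply]
  simp

private theorem endgame_skew (hM : IsSim M 0) (x y : E m) :
    inner ℝ (M x) y = - inner ℝ x (M y) := by
  have h := hM x y
  linarith

/-- In the case `c = 0`, `|P|^2` is a convex function. -/
theorem lam_convex (hM : IsSim M 0) (hs : Sol M 0 univ T P h Q)
    (hc : ∀ t, Cons (T t) (P t) (h t)) (hP : ∀ t, P t ≠ 0)
    (hB : ∀ t, BB M 0 (h t) = 0 ∧ BB M 0 (Q t) = 0) :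
    ConvexOn ℝ univ fun t => ‖P t‖ ^ 2 := by
  have he : (fun t => ‖P t‖ ^ 2) = fun t => inner ℝ (T t) (T t) := by
    funext t
    rw [(hc t).norm_eq, real_inner_self_eq_norm_sq]
  rw [he]
  have hd1 : ∀ t, HasDerivAt (fun s => inner ℝ (T s) (T s)) (2 * inner ℝ (T t) (M (P t))) t := by
    intro t
    have h1 := (hs.dT t (mem_univ t)).inner ℝ (hs.dT t (mem_univ t))
    have h2 : inner ℝ (T t) (M (P t)) + inner ℝ (M (P t)) (T t) =
        2 * inner ℝ (T t) (M (P t)) := by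
      rw [real_inner_comm (T t) (M (P t))]
      ring
    rw [h2] at h1
    exact h1
  have hderiv : deriv (fun s => inner ℝ (T s) (T s)) = fun t => 2 * inner ℝ (T t) (M (P t)) := by
    funext t
    exact (hd1 t).deriv
  have hd2 : ∀ t, HasDerivAt (fun s => 2 * inner ℝ (T s) (M (P s)))
      (2 * (‖M (P t)‖ ^ 2 + ‖M (T t)‖ ^ 2)) t := by
    intro t
    have h1 : HasDerivAt (fun s => M (P s)) (M (-(M (T t)) + (‖P t‖ ^ 2) • h t)) t :=
      M.hasFDerivAt.comp_hasDerivAt t (hs.dP t (mem_univ t))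
    have h2 := ((hs.dT t (mem_univ t)).inner ℝ h1).const_mul 2
    have hMh : M (h t) = 0 := by
      have := (hB t).1
      rwa [endgame_BB] at this
    have h3 : inner ℝ (T t) (M (-(M (T t)) + (‖P t‖ ^ 2) • h t)) = ‖M (T t)‖ ^ 2 := by
      rw [map_add, map_neg, map_smul, hMh, smul_zero, add_zero, inner_neg_right,
        ← endgame_skew hM, real_inner_self_eq_norm_sq]
    rw [h3, real_inner_self_eq_norm_sq] at h2
    have h4 : ‖M (T t)‖ ^ 2 + ‖M (P t)‖ ^ 2 = ‖M (P t)‖ ^ 2 + ‖M (T t)‖ ^ 2 := add_comm _ _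
    rw [h4] at h2
    exact h2
  refine Monotone.convexOn_univ_of_deriv (fun t => (hd1 t).differentiableAt) ?_
  rw [hderiv]
  refine monotone_of_deriv_nonneg (fun t => (hd2 t).differentiableAt) fun t => ?_
  rw [(hd2 t).deriv]
  positivity

private theorem endgame_inner (hM : IsSim M 0) (hs : Sol M 0 univ T P h Q)
    (hc : ∀ t, Cons (T t) (P t) (h t))
    (hB : ∀ t, BB M 0 (h t) = 0 ∧ BB M 0 (Q t) = 0) (t : ℝ) :
    inner ℝ (P t) (Q t) = -(‖P t‖ ^ 2 * ‖h t‖ ^ 2) := by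
  have h1 := c5 hM isOpen_univ hs (fun t _ => hc t) (mem_univ t)
  have hMh : M (h t) = 0 := by
    have := (hB t).1
    rwa [endgame_BB] at this
  rw [endgame_NN, hMh, inner_zero_right, add_zero] at h1
  exact h1

private theorem endgame_Q (hs : Sol M 0 univ T P h Q)
    (hB : ∀ t, BB M 0 (h t) = 0 ∧ BB M 0 (Q t) = 0) (t : ℝ) : HasDerivAt Q 0 t := by
  have h1 := hs.dQ t (mem_univ t)
  have hMh : M (h t) = 0 := by
    have := (hB t).1
    rwa [endgame_BB] at this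
  rw [endgame_NN, endgame_NN, hMh, map_zero, neg_zero] at h1
  exact h1

/-- In the case `c = 0`, `|P|^2 |h|^3` is constant. -/
theorem lam_cube (hM : IsSim M 0) (hs : Sol M 0 univ T P h Q)
    (hc : ∀ t, Cons (T t) (P t) (h t)) (hP : ∀ t, P t ≠ 0)
    (hB : ∀ t, BB M 0 (h t) = 0 ∧ BB M 0 (Q t) = 0) :
    ∃ C : ℝ, ∀ t, ‖P t‖ ^ 4 * ‖h t‖ ^ 6 = C := by
  -- derivative of `λ`
  have hl : ∀ t, HasDerivAt (fun s => ‖P s‖ ^ 2) (-(2 * inner ℝ (P t) (M (T t)))) t := fun t =>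
    lam_deriv hs (fun t _ => hc t) (mem_univ t)
  have hsg : ∀ t, HasDerivAt (fun s => ‖h s‖ ^ 2) (2 * inner ℝ (h t) (Q t)) t := fun t =>
    (hs.dh t (mem_univ t)).norm_sq
  have hprod : ∀ t, HasDerivAt (fun s => ‖P s‖ ^ 2 * ‖h s‖ ^ 2)
      (-(‖P t‖ ^ 2 * inner ℝ (h t) (Q t))) t := by
    intro t
    have h1 := ((hs.dP t (mem_univ t)).inner ℝ (endgame_Q hs hB t)).neg
    have h2 : (fun s => ‖P s‖ ^ 2 * ‖h s‖ ^ 2) = fun s => -inner ℝ (P s) (Q s) := by
      funext s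
      rw [endgame_inner hM hs hc hB s, neg_neg]
    have hMQ : M (Q t) = 0 := by
      have := (hB t).2
      rwa [endgame_BB] at this
    have h3 : inner ℝ (P t) (0 : E m) + inner ℝ (-(M (T t)) + (‖P t‖ ^ 2) • h t) (Q t) =
        ‖P t‖ ^ 2 * inner ℝ (h t) (Q t) := by
      rw [inner_zero_right, zero_add, inner_add_left, inner_neg_left, endgame_skew hM, hMQ,
        inner_zero_right, neg_zero, neg_zero, zero_add, real_inner_smul_left]
    rw [h3] at h1
    rw [h2]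
    exact h1
  -- the relation between the derivatives
  have hrel : ∀ t, -(2 * inner ℝ (P t) (M (T t))) * ‖h t‖ ^ 2 +
      ‖P t‖ ^ 2 * (2 * inner ℝ (h t) (Q t)) = -(‖P t‖ ^ 2 * inner ℝ (h t) (Q t)) := fun t =>
    ((hl t).mul (hsg t)).unique (hprod t)
  have hz : ∀ t, HasDerivAt (fun s => (‖P s‖ ^ 2) ^ 2 * (‖h s‖ ^ 2) ^ 3) 0 t := by
    intro t
    have h1 : HasDerivAt (fun s => (‖P s‖ ^ 2) ^ 2 * (‖h s‖ ^ 2) ^ 3)
        (((2 : ℕ) : ℝ) * (‖P t‖ ^ 2) ^ (2 - 1) * -(2 * inner ℝ (P t) (M (T t))) *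
        (‖h t‖ ^ 2) ^ 3 + (‖P t‖ ^ 2) ^ 2 * (((3 : ℕ) : ℝ) * (‖h t‖ ^ 2) ^ (3 - 1) *
          (2 * inner ℝ (h t) (Q t)))) t := ((hl t).pow 2).mul ((hsg t).pow 3)
    have h2 : ((2 : ℕ) : ℝ) * (‖P t‖ ^ 2) ^ (2 - 1) * -(2 * inner ℝ (P t) (M (T t))) *
        (‖h t‖ ^ 2) ^ 3 + (‖P t‖ ^ 2) ^ 2 * (((3 : ℕ) : ℝ) * (‖h t‖ ^ 2) ^ (3 - 1) *
          (2 * inner ℝ (h t) (Q t))) = 0 := by
      have h3 := hrel t
      push_cast
      have h4 : (2 : ℝ) * (‖P t‖ ^ 2) ^ (2 - 1) * -(2 * inner ℝ (P t) (M (T t))) *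
        (‖h t‖ ^ 2) ^ 3 + (‖P t‖ ^ 2) ^ 2 * ((3 : ℝ) * (‖h t‖ ^ 2) ^ (3 - 1) *
          (2 * inner ℝ (h t) (Q t))) = 2 * ‖P t‖ ^ 2 * (‖h t‖ ^ 2) ^ 2 *
          ((-(2 * inner ℝ (P t) (M (T t))) * ‖h t‖ ^ 2 +
      ‖P t‖ ^ 2 * (2 * inner ℝ (h t) (Q t))) + ‖P t‖ ^ 2 * inner ℝ (h t) (Q t)) := by
        norm_num
        ring
      rw [h4, h3]
      ring
    rw [h2] at h1
    exact h1
  refine ⟨(‖P 0‖ ^ 2) ^ 2 * (‖h 0‖ ^ 2) ^ 3, fun t => ?_⟩
  have h1 := is_const_of_deriv_eq_zero (fun t => (hz t).differentiableAt)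
    (fun t => (hz t).deriv) t 0
  rw [← h1]
  ring

/-- The case `c = 0`. -/
theorem end_zero (hM : IsSim M 0) (hs : Sol M 0 univ T P h Q)
    (hc : ∀ t, Cons (T t) (P t) (h t)) (hP : ∀ t, P t ≠ 0)
    (hB : ∀ t, BB M 0 (h t) = 0 ∧ BB M 0 (Q t) = 0) : h 0 = 0 := by
  by_cases hQ : Q 0 = 0
  · have h1 := endgame_inner hM hs hc hB 0
    rw [hQ, inner_zero_right] at h1
    have h2 : ‖P 0‖ ^ 2 * ‖h 0‖ ^ 2 = 0 := by linarith
    rcases mul_eq_zero.1 h2 with h3 | h3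
    · exact absurd (norm_eq_zero.1 (pow_eq_zero_iff (by norm_num) |>.1 h3)) (hP 0)
    · exact norm_eq_zero.1 (pow_eq_zero_iff (by norm_num) |>.1 h3)
  · exfalso
    have hQc : ∀ t, Q t = Q 0 := fun t =>
      is_const_of_deriv_eq_zero (fun t => (endgame_Q hs hB t).differentiableAt)
        (fun t => (endgame_Q hs hB t).deriv) t 0
    have hd : ∀ t, HasDerivAt (fun s => h s - s • Q 0) 0 t := by
      intro t
      have h1 := (hs.dh t (mem_univ t)).sub ((hasDerivAt_id t).smul_const (Q 0))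
      rw [hQc t, one_smul, sub_self] at h1
      exact h1
    have hh : ∀ t, h t = h 0 + t • Q 0 := by
      intro t
      have h1 := is_const_of_deriv_eq_zero (fun t => (hd t).differentiableAt)
        (fun t => (hd t).deriv) t 0
      simp only [zero_smul, sub_zero] at h1
      rw [← h1]
      abel
    have hq0 : 0 < ‖Q 0‖ := norm_pos_iff.2 hQ
    have hlow : ∀ t, |t| * ‖Q 0‖ - ‖h 0‖ ≤ ‖h t‖ := by
      intro t
      have h1 := norm_sub_le (h t) (h 0)
      have h2 : h t - h 0 = t • Q 0 := by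
        rw [hh t]
        abel
      rw [h2, norm_smul, Real.norm_eq_abs] at h1
      linarith
    obtain ⟨C, hC⟩ := lam_cube hM hs hc hP hB
    have hlim : ∀ l : Filter ℝ, Tendsto (fun t : ℝ => |t|) l atTop →
        Tendsto (fun t => ‖P t‖ ^ 2) l (𝓝 0) := by
      intro l hl
      have h1 : Tendsto (fun t : ℝ => |t| * ‖Q 0‖ - ‖h 0‖) l atTop :=
        tendsto_atTop_add_const_right _ _ (hl.atTop_mul_const hq0)
      have h2 : Tendsto (fun t => ‖h t‖) l atTop := tendsto_atTop_mono hlow h1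
      have h3 : Tendsto (fun t => C / ‖h t‖ ^ 6) l (𝓝 0) :=
        Tendsto.div_atTop tendsto_const_nhds ((tendsto_pow_atTop (by norm_num)).comp h2)
      have h4 : Tendsto (fun t => √(C / ‖h t‖ ^ 6)) l (𝓝 0) := by
        have := h3.sqrt
        rwa [Real.sqrt_zero] at this
      refine h4.congr' ?_
      filter_upwards [h2.eventually (eventually_gt_atTop 0)] with t ht
      have h5 : C / ‖h t‖ ^ 6 = (‖P t‖ ^ 2) ^ 2 := by
        rw [← hC t]
        field_simp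
      rw [h5, Real.sqrt_sq (by positivity)]
    have h1 := convex_nonpos (lam_convex hM hs hc hP hB) (hlim atTop tendsto_abs_atTop_atTop)
      (hlim atBot tendsto_abs_atBot_atTop) 0
    have h2 : 0 < ‖P 0‖ ^ 2 := by
      have := norm_pos_iff.2 (hP 0)
      positivity
    linarith

end Pool.Agent.Helix
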