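import Pool.Agent.Helix.CutODE

/-!
# Solutions on long intervals from a priori bounds
-/

set_option autoImplicit false

namespace Pool.Agent.Helix

open Set Filter Topology

variable {V : Type*} [NormedAddCommGroup V] [NormedSpace ℝ V] [FiniteDimensional ℝ V]

/-- Solutions of a `C^1` ordinary differential equation on a long interval, from an a priori
bound. -/
theorem exists_sol_Ioo {F : V → V} (hF : ContDiff ℝ 1 F) (Y0 : V) {a R : ℝ} (ha : 0 < a)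
    (hb : ∀ (Z : ℝ → V) (b : ℝ), 0 < b → b ≤ a → Z 0 = Y0 →
      (∀ t ∈ Ioo (-b) b, HasDerivAt Z (F (Z t)) t) → ∀ t ∈ Ioo (-b) b, ‖Z t‖ ≤ R) :
    ∃ Z : ℝ → V, Z 0 = Y0 ∧ ∀ t ∈ Ioo (-a) a, HasDerivAt Z (F (Z t)) t := by
  obtain ⟨R', hR'⟩ : ∃ R' : ℝ, R' = max R ‖Y0‖ + 1 := ⟨_, rfl⟩
  have h1 : R < R' := by
    rw [hR']
    linarith [le_max_left R ‖Y0‖]
  have h2 : ‖Y0‖ < R' := by
    rw [hR']
    linarith [le_max_right R ‖Y0‖]
  have h3 : 0 < R' := (norm_nonneg _).trans_lt h2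
  obtain ⟨χ, hχ⟩ : ∃ χ : ContDiffBump (0 : V), χ.rIn = R' := ⟨⟨R', R' + 1, h3, by linarith⟩, rfl⟩
  have hv : ContDiff ℝ 1 (fun x => χ x • F x) := χ.contDiff.smul hF
  have hc : HasCompactSupport (fun x => χ x • F x) := χ.hasCompactSupport.smul_right
  obtain ⟨Z, hZ0, -, hZ⟩ := exists_sol_of_compact hv hc Y0 ha
  have hval : ∀ t ∈ Ioo (-a) a, ‖Z t‖ < R' → HasDerivAt Z (F (Z t)) t := by
    intro t ht hlt
    have h4 := hZ t ht
    have h5 : χ (Z t) = 1 := by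
      apply χ.one_of_mem_closedBall
      rw [hχ, mem_closedBall_zero_iff]
      exact hlt.le
    simp only [h5, one_smul] at h4
    exact h4
  refine ⟨Z, hZ0, fun t0 ht0 => hval t0 ht0 ?_⟩
  by_contra hcon
  push Not at hcon
  have hta : |t0| < a := abs_lt.mpr ht0
  have hsub : Icc (-|t0|) |t0| ⊆ Ioo (-a) a := fun t ht =>
    ⟨by linarith [ht.1], by linarith [ht.2]⟩
  have hcont : ContinuousOn Z (Icc (-|t0|) |t0|) := fun t ht =>
    (hZ t (hsub ht)).continuousAt.continuousWithinAt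
  have hcomp : IsCompact (Icc (-|t0|) |t0| ∩ {t | R' ≤ ‖Z t‖}) := by
    have hcl : IsClosed (Icc (-|t0|) |t0| ∩ (fun t => ‖Z t‖) ⁻¹' (Ici R')) :=
      ContinuousOn.preimage_isClosed_of_isClosed hcont.norm isClosed_Icc isClosed_Ici
    exact isCompact_Icc.of_isClosed_subset hcl inter_subset_left
  have hne : (Icc (-|t0|) |t0| ∩ {t | R' ≤ ‖Z t‖}).Nonempty :=
    ⟨t0, ⟨neg_abs_le t0, le_abs_self t0⟩, hcon⟩
  obtain ⟨t1, ht1, hmin⟩ := hcomp.exists_isMinOn hne continuous_abs.continuousOn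
  have hb0 : 0 < |t1| := by
    rw [abs_pos]
    intro h0
    have h4 : R' ≤ ‖Z t1‖ := ht1.2
    rw [h0, hZ0] at h4
    linarith
  have hb1 : |t1| ≤ |t0| := abs_le.mpr ht1.1
  have hin : ∀ t ∈ Ioo (-|t1|) |t1|, ‖Z t‖ < R' := by
    intro t ht
    by_contra h4
    push Not at h4
    have h5 : t ∈ Icc (-|t0|) |t0| ∩ {t | R' ≤ ‖Z t‖} :=
      ⟨⟨by linarith [ht.1], by linarith [ht.2]⟩, h4⟩
    have h6 : |t1| ≤ |t| := hmin h5
    have h7 : |t| < |t1| := abs_lt.mpr ht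
    linarith
  have hR : ∀ t ∈ Ioo (-|t1|) |t1|, ‖Z t‖ ≤ R :=
    hb Z |t1| hb0 (by linarith) hZ0 fun t ht =>
      hval t ⟨by linarith [ht.1], by linarith [ht.2]⟩ (hin t ht)
  have hcl : t1 ∈ closure (Ioo (-|t1|) |t1|) := by
    rw [closure_Ioo (by linarith : (-|t1|) ≠ |t1|)]
    exact ⟨neg_abs_le t1, le_abs_self t1⟩
  have hnb : (𝓝[Ioo (-|t1|) |t1|] t1).NeBot := mem_closure_iff_nhdsWithin_neBot.mp hcl
  have hlim : Tendsto (fun t => ‖Z t‖) (𝓝[Ioo (-|t1|) |t1|] t1) (𝓝 ‖Z t1‖) :=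
    ((hZ t1 (hsub ht1.1)).continuousAt.norm).mono_left nhdsWithin_le_nhds
  have h8 : ‖Z t1‖ ≤ R := le_of_tendsto hlim (eventually_mem_nhdsWithin.mono hR)
  have h9 : R' ≤ ‖Z t1‖ := ht1.2
  linarith

end Pool.Agent.Helix
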