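import Mathlib

/-!
# Polynomial functions on a finite-dimensional real space
-/

set_option autoImplicit false

namespace Pool.Agent.Helix

open Set Filter Topology
open scoped ContDiff

variable {V : Type*} [NormedAddCommGroup V] [NormedSpace ℝ V]

/-- The algebra of polynomial functions on `V`: generated by the continuous linear forms. -/
noncomputable def polyFun (V : Type*) [NormedAddCommGroup V] [NormedSpace ℝ V] :
    Subalgebra ℝ (V → ℝ) :=
  Algebra.adjoin ℝ (Set.range fun l : V →L[ℝ] ℝ => (l : V → ℝ))

theorem polyFun_noetherian [FiniteDimensional ℝ V] : IsNoetherianRing (polyFun V) := by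
  classical
  have hfg : (polyFun V).FG := by
    let b := Module.finBasis ℝ V
    let co : Fin (Module.finrank ℝ V) → (V → ℝ) := fun i =>
      ((LinearMap.toContinuousLinearMap (b.coord i) : V →L[ℝ] ℝ) : V → ℝ)
    refine ⟨Finset.univ.image co, ?_⟩
    apply le_antisymm
    · apply Algebra.adjoin_mono
      intro f hf
      obtain ⟨i, -, rfl⟩ := Finset.mem_image.1 (Finset.mem_coe.1 hf)
      exact ⟨_, rfl⟩
    · apply Algebra.adjoin_le
      rintro _ ⟨l, rfl⟩
      have e : (l : V → ℝ) = ∑ i, l (b i) • co i := by
        funext x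
        rw [Finset.sum_apply]
        conv_lhs => rw [← b.sum_repr x, map_sum]
        refine Finset.sum_congr rfl fun i _ => ?_
        rw [map_smul, smul_eq_mul, Pi.smul_apply, smul_eq_mul, mul_comm]
        rfl
      show (l : V → ℝ) ∈ Algebra.adjoin ℝ _
      rw [e]
      refine Subalgebra.sum_mem _ fun i _ => Subalgebra.smul_mem _ ?_ _
      exact Algebra.subset_adjoin (Finset.mem_coe.2 (Finset.mem_image_of_mem _ (Finset.mem_univ i)))
  have : Algebra.FiniteType ℝ (polyFun V) := (polyFun V).fg_iff_finiteType.1 hfg
  exact Algebra.FiniteType.isNoetherianRing ℝ (polyFun V)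

theorem polyFun_linear (l : V →L[ℝ] ℝ) : (fun x => l x) ∈ polyFun V :=
  Algebra.subset_adjoin ⟨l, rfl⟩

theorem polyFun_const (r : ℝ) : (fun _ : V => r) ∈ polyFun V :=
  (polyFun V).algebraMap_mem r

theorem polyFun_contDiff {g : V → ℝ} (hg : g ∈ polyFun V) : ContDiff ℝ ∞ g := by
  unfold polyFun at hg
  induction hg using Algebra.adjoin_induction with
  | mem x hx =>
    obtain ⟨l, rfl⟩ := hx
    exact l.contDiff
  | algebraMap r => exact contDiff_const
  | add x y _ _ hx hy => exact hx.add hy
  | mul x y _ _ hx hy => exact hx.mul hy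

/-- A vector field all of whose components are polynomial. -/
def IsPolyField (F : V → V) : Prop := ∀ l : V →L[ℝ] ℝ, (fun x => l (F x)) ∈ polyFun V

/-- The derivative of a polynomial function along a polynomial vector field is polynomial. -/
theorem polyFun_fderiv {F : V → V} (hF : IsPolyField F) {g : V → ℝ} (hg : g ∈ polyFun V) :
    (fun x => fderiv ℝ g x (F x)) ∈ polyFun V := by
  unfold polyFun at hg
  induction hg using Algebra.adjoin_induction with
  | mem x hx =>
    obtain ⟨l, rfl⟩ := hx
    have e : (fun x => fderiv ℝ (l : V → ℝ) x (F x)) = fun x => l (F x) := by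
      funext x
      rw [l.fderiv]
    rw [e]
    exact hF l
  | algebraMap r =>
    have e : (fun x => fderiv ℝ ((algebraMap ℝ (V → ℝ)) r) x (F x)) = fun _ => (0 : ℝ) := by
      funext x
      have e1 : ((algebraMap ℝ (V → ℝ)) r) = fun _ => r := rfl
      rw [e1, fderiv_fun_const]
      rfl
    rw [e]
    exact polyFun_const 0
  | add y z hy hz ihy ihz =>
    have dy : Differentiable ℝ y := (polyFun_contDiff hy).differentiable (by simp)
    have dz : Differentiable ℝ z := (polyFun_contDiff hz).differentiable (by simp)
    have e : (fun x => fderiv ℝ (y + z) x (F x)) =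
        (fun x => fderiv ℝ y x (F x)) + fun x => fderiv ℝ z x (F x) := by
      funext x
      rw [fderiv_add (dy x) (dz x)]
      rfl
    rw [e]
    exact (polyFun V).add_mem ihy ihz
  | mul y z hy hz ihy ihz =>
    have dy : Differentiable ℝ y := (polyFun_contDiff hy).differentiable (by simp)
    have dz : Differentiable ℝ z := (polyFun_contDiff hz).differentiable (by simp)
    have e : (fun x => fderiv ℝ (y * z) x (F x)) =
        y * (fun x => fderiv ℝ z x (F x)) + z * fun x => fderiv ℝ y x (F x) := by
      funext x
      rw [fderiv_mul (dy x) (dz x)]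
      rfl
    rw [e]
    exact (polyFun V).add_mem ((polyFun V).mul_mem hy ihz) ((polyFun V).mul_mem hz ihy)

end Pool.Agent.Helix
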