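import Pool.Agent.Helix.Defs
import Pool.Agent.Helix.PolyFun

/-!
# The profile system as a polynomial vector field on `E^4`
-/

set_option autoImplicit false

namespace Pool.Agent.Helix

open Set Filter Topology
open scoped ContDiff

variable {m : ℕ}

/-- The state space. -/
abbrev St (m : ℕ) := E m × E m × E m × E m

/-- The vector field of the profile system. -/
noncomputable def field (M : E m →L[ℝ] E m) (c : ℝ) (Y : St m) : St m :=
  (M Y.2.1, -(M Y.1) + (‖Y.2.1‖ ^ 2) • Y.2.2.1, Y.2.2.2, -(NN M c (NN M c Y.2.2.1)))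

private noncomputable def fld_p1 (m : ℕ) : St m →L[ℝ] E m :=
  ContinuousLinearMap.fst ℝ (E m) (E m × E m × E m)

private noncomputable def fld_p2 (m : ℕ) : St m →L[ℝ] E m :=
  (ContinuousLinearMap.fst ℝ (E m) (E m × E m)).comp
    (ContinuousLinearMap.snd ℝ (E m) (E m × E m × E m))

private noncomputable def fld_p3 (m : ℕ) : St m →L[ℝ] E m :=
  (ContinuousLinearMap.fst ℝ (E m) (E m)).comp
    ((ContinuousLinearMap.snd ℝ (E m) (E m × E m)).comp
      (ContinuousLinearMap.snd ℝ (E m) (E m × E m × E m)))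

private noncomputable def fld_p4 (m : ℕ) : St m →L[ℝ] E m :=
  (ContinuousLinearMap.snd ℝ (E m) (E m)).comp
    ((ContinuousLinearMap.snd ℝ (E m) (E m × E m)).comp
      (ContinuousLinearMap.snd ℝ (E m) (E m × E m × E m)))

private theorem fld_p1_apply (Y : St m) : fld_p1 m Y = Y.1 := rfl
private theorem fld_p2_apply (Y : St m) : fld_p2 m Y = Y.2.1 := rfl
private theorem fld_p3_apply (Y : St m) : fld_p3 m Y = Y.2.2.1 := rfl
private theorem fld_p4_apply (Y : St m) : fld_p4 m Y = Y.2.2.2 := rfl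

/-- the linear part of the field -/
private noncomputable def fld_lin (M : E m →L[ℝ] E m) (c : ℝ) : St m →L[ℝ] St m :=
  (M.comp (fld_p2 m)).prod ((-(M.comp (fld_p1 m))).prod ((fld_p4 m).prod
    (-((NN M c).comp ((NN M c).comp (fld_p3 m))))))

/-- the vector of the cubic part of the field -/
private noncomputable def fld_cub (m : ℕ) : St m →L[ℝ] St m :=
  (0 : St m →L[ℝ] E m).prod ((fld_p3 m).prod ((0 : St m →L[ℝ] E m).prod (0 : St m →L[ℝ] E m)))

private theorem fld_eq (M : E m →L[ℝ] E m) (c : ℝ) (Y : St m) :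
    field M c Y = fld_lin M c Y + (‖fld_p2 m Y‖ ^ 2) • fld_cub m Y := by
  simp only [field, fld_lin, fld_cub, ContinuousLinearMap.prod_apply,
    ContinuousLinearMap.comp_apply, neg_apply, fld_p1_apply, fld_p2_apply,
    fld_p3_apply, fld_p4_apply, zero_apply, Prod.smul_mk, smul_zero,
    Prod.mk_add_mk, add_zero]

private theorem fld_inner (A B : St m →L[ℝ] E m) :
    (fun Y : St m => (inner ℝ (A Y) (B Y) : ℝ)) ∈ polyFun (St m) := by
  have h : (fun Y : St m => (inner ℝ (A Y) (B Y) : ℝ)) =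
      ∑ i : Fin m, (fun Y : St m => ((EuclideanSpace.proj i : E m →L[ℝ] ℝ).comp A) Y) *
        (fun Y : St m => ((EuclideanSpace.proj i : E m →L[ℝ] ℝ).comp B) Y) := by
    funext Y
    rw [Finset.sum_apply, PiLp.inner_apply]
    refine Finset.sum_congr rfl fun i _ => ?_
    simp only [Pi.mul_apply, ContinuousLinearMap.comp_apply, PiLp.proj_apply]
    rw [real_inner_comm]
    rfl
  rw [h]
  exact Subalgebra.sum_mem _ fun i _ =>
    (polyFun (St m)).mul_mem (polyFun_linear _) (polyFun_linear _)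

theorem field_poly (M : E m →L[ℝ] E m) (c : ℝ) : IsPolyField (field M c) := by
  intro l
  have h : (fun Y : St m => l (field M c Y)) =
      (fun Y : St m => (l.comp (fld_lin M c)) Y) +
        (fun Y : St m => (inner ℝ (fld_p2 m Y) (fld_p2 m Y) : ℝ)) *
          (fun Y : St m => (l.comp (fld_cub m)) Y) := by
    funext Y
    simp only [Pi.add_apply, Pi.mul_apply, ContinuousLinearMap.comp_apply]
    rw [fld_eq, map_add, map_smul, smul_eq_mul, real_inner_self_eq_norm_sq]
  rw [h]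
  exact (polyFun (St m)).add_mem (polyFun_linear _)
    ((polyFun (St m)).mul_mem (fld_inner _ _) (polyFun_linear _))

theorem field_contDiff (M : E m →L[ℝ] E m) (c : ℝ) : ContDiff ℝ ∞ (field M c) := by
  have h : field M c = fun Y => fld_lin M c Y + (‖fld_p2 m Y‖ ^ 2) • fld_cub m Y :=
    funext (fld_eq M c)
  rw [h]
  exact (fld_lin M c).contDiff.add
    (((fld_p2 m).contDiff.norm_sq ℝ).smul (fld_cub m).contDiff)

/-- Inner products of two linear images of the state are polynomial functions. -/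
theorem poly_inner (A B : St m →L[ℝ] E m) :
    (fun Y : St m => (inner ℝ (A Y) (B Y) : ℝ)) ∈ polyFun (St m) := fld_inner A B

theorem poly_c1 : (fun Y : St m => ‖Y.2.1‖ ^ 2 - ‖Y.1‖ ^ 2) ∈ polyFun (St m) := by
  have h : (fun Y : St m => ‖Y.2.1‖ ^ 2 - ‖Y.1‖ ^ 2) =
      (fun Y : St m => (inner ℝ (fld_p2 m Y) (fld_p2 m Y) : ℝ)) -
        (fun Y : St m => (inner ℝ (fld_p1 m Y) (fld_p1 m Y) : ℝ)) := by
    funext Y
    simp only [Pi.sub_apply, real_inner_self_eq_norm_sq, fld_p1_apply, fld_p2_apply]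
  rw [h]
  exact (polyFun (St m)).sub_mem (fld_inner _ _) (fld_inner _ _)

theorem poly_c2 : (fun Y : St m => (inner ℝ Y.2.1 Y.1 : ℝ)) ∈ polyFun (St m) :=
  fld_inner (fld_p2 m) (fld_p1 m)

theorem poly_c3 : (fun Y : St m => (inner ℝ Y.2.1 Y.2.2.1 : ℝ)) ∈ polyFun (St m) :=
  fld_inner (fld_p2 m) (fld_p3 m)

theorem poly_c4 : (fun Y : St m => (inner ℝ Y.1 Y.2.2.1 : ℝ)) ∈ polyFun (St m) :=
  fld_inner (fld_p1 m) (fld_p3 m)

theorem sol_of_field {M : E m →L[ℝ] E m} {c : ℝ} {J : Set ℝ} {Z : ℝ → St m}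
    (hZ : ∀ t ∈ J, HasDerivAt Z (field M c (Z t)) t) :
    Sol M c J (fun t => (Z t).1) (fun t => (Z t).2.1) (fun t => (Z t).2.2.1)
      (fun t => (Z t).2.2.2) :=
  ⟨fun t ht => (fld_p1 m).hasFDerivAt.comp_hasDerivAt t (hZ t ht),
    fun t ht => (fld_p2 m).hasFDerivAt.comp_hasDerivAt t (hZ t ht),
    fun t ht => (fld_p3 m).hasFDerivAt.comp_hasDerivAt t (hZ t ht),
    fun t ht => (fld_p4 m).hasFDerivAt.comp_hasDerivAt t (hZ t ht)⟩

theorem field_of_sol {M : E m →L[ℝ] E m} {c : ℝ} {J : Set ℝ} {T P h Q : ℝ → E m}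
    (hs : Sol M c J T P h Q) :
    ∀ t ∈ J, HasDerivAt (fun t => ((T t, P t, h t, Q t) : St m))
      (field M c (T t, P t, h t, Q t)) t :=
  fun t ht => (hs.dT t ht).prodMk ((hs.dP t ht).prodMk ((hs.dh t ht).prodMk (hs.dQ t ht)))

end Pool.Agent.Helix
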