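import Pool.Agent.Helix.GeoMetric

/-!
# The Laplace-Beltrami operator in coordinates
-/

set_option autoImplicit false

namespace Pool.Agent.Helix

open Set Filter Topology
open scoped ContDiff

variable {m k : ℕ} {M : E m →L[ℝ] E m} {c : ℝ} {w : E m} {U : Set (E 2)} {f : E 2 → E m}

private theorem geoCoord_matrix (f : E 2 → E m) (y : E 2) :
    inducedMetric f y = !![gE f y, gF f y; gF f y, gG f y] := by
  ext i j
  fin_cases i <;> fin_cases j
  · rfl
  · rfl
  · exact real_inner_comm (pd 0 f y) (pd 1 f y)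
  · rfl

private theorem geoCoord_det (f : E 2 → E m) (y : E 2) :
    (inducedMetric f y).det = gE f y * gG f y - gF f y ^ 2 := by
  rw [geoCoord_matrix, Matrix.det_fin_two_of]
  ring

private theorem geoCoord_inv (f : E 2 → E m) (y : E 2) :
    (inducedMetric f y)⁻¹ = (gE f y * gG f y - gF f y ^ 2)⁻¹ •
      !![gG f y, -gF f y; -gF f y, gE f y] := by
  rw [Matrix.inv_def, geoCoord_det, geoCoord_matrix, Matrix.adjugate_fin_two_of,
    Ring.inverse_eq_inv']

/-- The operator in terms of `gE`, `gF`, `gG`, `gW`. -/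
theorem Surf.lap_coord (h : Surf M c w U f) {u : E 2 → E k} (hu : ContDiffOn ℝ ∞ u U)
    {x : E 2} (hx : x ∈ U) :
    laplaceBeltrami (inducedMetric f) u x = (gW f x)⁻¹ •
      (pd 0 (DD f u) x +
        pd 1 (fun y => (gE f y / gW f y) • pd 1 u y - (gF f y / gW f y) • pd 0 u y) x) := by
  have hsqrt : ∀ y, Real.sqrt (inducedMetric f y).det = gW f y := by
    intro y
    rw [geoCoord_det]; rfl
  have hq : ∀ y ∈ U, gW f y * (gE f y * gG f y - gF f y ^ 2)⁻¹ = (gW f y)⁻¹ := by
    intro y hy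
    rw [← h.W_sq hy]
    have := h.W_pos hy
    field_simp
  have h0 : ∀ y ∈ U, (Real.sqrt (inducedMetric f y).det •
      ∑ j, (inducedMetric f y)⁻¹ 0 j • pd j u y) = DD f u y := by
    intro y hy
    rw [hsqrt, geoCoord_inv, Fin.sum_univ_two, DD, ← hq y hy]
    simp only [Matrix.smul_apply, Matrix.of_apply, Matrix.cons_val_zero, Matrix.cons_val_one,
      smul_eq_mul]
    module
  have h1 : ∀ y ∈ U, (Real.sqrt (inducedMetric f y).det •
      ∑ j, (inducedMetric f y)⁻¹ 1 j • pd j u y) =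
      (gE f y / gW f y) • pd 1 u y - (gF f y / gW f y) • pd 0 u y := by
    intro y hy
    rw [hsqrt, geoCoord_inv, Fin.sum_univ_two, div_eq_mul_inv, div_eq_mul_inv, ← hq y hy]
    simp only [Matrix.smul_apply, Matrix.of_apply, Matrix.cons_val_zero, Matrix.cons_val_one,
      smul_eq_mul]
    module
  have e0 := (Filter.eventuallyEq_of_mem (h.isOpen.mem_nhds hx) h0).fderiv_eq (𝕜 := ℝ)
  have e1 := (Filter.eventuallyEq_of_mem (h.isOpen.mem_nhds hx) h1).fderiv_eq (𝕜 := ℝ)
  unfold laplaceBeltrami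
  rw [hsqrt, Fin.sum_univ_two]
  unfold pd at e0 e1 ⊢
  rw [e0, e1]

end Pool.Agent.Helix
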