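import Pool.Agent.Helix.GeoFacts

/-!
# The profile along an orthogonal trajectory
-/

set_option autoImplicit false

namespace Pool.Agent.Helix

open Set Filter Topology
open scoped ContDiff

variable {m : ℕ} {M : E m →L[ℝ] E m} {c : ℝ} {w : E m} {U : Set (E 2)} {f : E 2 → E m}

private theorem GC_XX_smooth (h : Surf M c w U f) : ContDiffOn ℝ ∞ (XX f) U := by
  have hW : ContDiffOn ℝ ∞ (fun x => (gW f x)⁻¹) U :=
    h.W_smooth.inv fun x hx => (h.W_pos hx).ne'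
  exact hW.smul ((h.G_smooth.smul contDiffOn_const).sub (h.F_smooth.smul contDiffOn_const))

/-- Orthogonal trajectories of the group orbits. -/
theorem Surf.exists_curve (h : Surf M c w U f) {x₀ : E 2} (hx : x₀ ∈ U) :
    ∃ σ : ℝ → E 2, ∃ r > 0, σ 0 = x₀ ∧ ∀ t ∈ Ioo (-r) r, σ t ∈ U ∧ HasDerivAt σ (XX f (σ t)) t := by
  have h1 : ContDiffAt ℝ 1 (XX f) x₀ :=
    ((GC_XX_smooth h).contDiffAt (h.isOpen.mem_nhds hx)).of_le (by simp)
  obtain ⟨σ, hσ0, ε, hε, hσ⟩ :=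
    h1.exists_forall_mem_closedBall_exists_eq_forall_mem_Ioo_hasDerivAt₀ 0
  have hc : ContinuousAt σ 0 := (hσ 0 ⟨by linarith, by linarith⟩).continuousAt
  have h2 : ∀ᶠ t in 𝓝 (0 : ℝ), σ t ∈ U := hc.eventually (by
    rw [hσ0]
    exact h.isOpen.mem_nhds hx)
  obtain ⟨δ, hδ, hδU⟩ := Metric.eventually_nhds_iff.1 h2
  refine ⟨σ, min ε δ, lt_min hε hδ, hσ0, fun t ht => ⟨hδU ?_, hσ t ⟨?_, ?_⟩⟩⟩
  · rw [Real.dist_eq, sub_zero, abs_lt]
    exact ⟨lt_of_le_of_lt (neg_le_neg (min_le_right _ _)) ht.1, ht.2.trans_le (min_le_right _ _)⟩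
  · have := min_le_left ε δ
    have := ht.1
    linarith
  · have := min_le_left ε δ
    have := ht.2
    linarith

private theorem GC_diff {F' : Type*} [NormedAddCommGroup F'] [NormedSpace ℝ F'] {u : E 2 → F'}
    (hU : IsOpen U) (hu : ContDiffOn ℝ ∞ u U) {x : E 2} (hx : x ∈ U) : DifferentiableAt ℝ u x :=
  (hu.differentiableOn (by simp)).differentiableAt (hU.mem_nhds hx)

/-- The profile of an invariant biharmonic surface. -/
theorem Surf.exists_germ (h : Surf M c w U f)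
    (hbi : ∀ x ∈ U, laplaceBeltrami (inducedMetric f)
      (laplaceBeltrami (inducedMetric f) f) x = 0) {x₀ : E 2} (hx : x₀ ∈ U) :
    ∃ (T P h' Q : ℝ → E m) (r : ℝ), 0 < r ∧ Sol M c (Ioo (-r) r) T P h' Q ∧
      (∀ t ∈ Ioo (-r) r, Cons (T t) (P t) (h' t)) ∧ P 0 ≠ 0 ∧
      h' 0 = laplaceBeltrami (inducedMetric f) f x₀ := by
  obtain ⟨σ, r, hr, hσ0, hσ⟩ := h.exists_curve hx
  set H : E 2 → E m := laplaceBeltrami (inducedMetric f) f with hH
  have hHs : ContDiffOn ℝ ∞ H U := h.lap_smooth h.smooth h.inv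
  have key : ∀ (u : E 2 → E m), ContDiffOn ℝ ∞ u U → ∀ t ∈ Ioo (-r) r,
      HasDerivAt (fun s => u (σ s)) (DD f u (σ t)) t := by
    intro u hu t ht
    have h1 := (GC_diff h.isOpen hu (hσ t ht).1).hasFDerivAt.comp_hasDerivAt t (hσ t ht).2
    rw [← DD_eq] at h1
    exact h1
  refine ⟨fun t => pd 1 f (σ t), fun t => DD f f (σ t), fun t => H (σ t),
    fun t => DD f H (σ t), r, hr, ⟨?_, ?_, ?_, ?_⟩, ?_, ?_, ?_⟩
  · intro t ht
    have h1 := key (pd 1 f) (pd_contDiffOn h.isOpen h.smooth 1) t ht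
    rwa [h.D_T (hσ t ht).1] at h1
  · intro t ht
    have h1 := key (DD f f) (h.DD_smooth h.smooth) t ht
    rw [h.D_P (hσ t ht).1, ← h.P_norm (hσ t ht).1] at h1
    exact h1
  · intro t ht
    exact key H hHs t ht
  · intro t ht
    have h1 := key (DD f H) (h.DD_smooth hHs) t ht
    rw [h.D_Q hbi (hσ t ht).1] at h1
    exact h1
  · intro t ht
    exact h.cons (hσ t ht).1
  · simp only [hσ0]
    intro h0
    have h1 := h.P_norm hx
    rw [h0, norm_zero] at h1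
    have h2 := h.G_pos hx
    norm_num at h1
    linarith
  · simp only [hσ0]

end Pool.Agent.Helix
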