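import Pool.Agent.Helix.Defs

/-!
# Surfaces in coordinates
-/

set_option autoImplicit false

namespace Pool.Agent.Helix

open Set Filter Topology
open scoped ContDiff

/-- The `i`-th partial derivative of `u`. -/
noncomputable def pd {n m : ℕ} (i : Fin n) (u : EuclideanSpace ℝ (Fin n) → EuclideanSpace ℝ (Fin m))
    (x : EuclideanSpace ℝ (Fin n)) : EuclideanSpace ℝ (Fin m) :=
  fderiv ℝ u x (EuclideanSpace.single i (1 : ℝ))

/-- The matrix of the metric induced by `f` in the standard coordinates. -/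
noncomputable def inducedMetric {n m : ℕ} (f : EuclideanSpace ℝ (Fin n) → EuclideanSpace ℝ (Fin m))
    (x : EuclideanSpace ℝ (Fin n)) : Matrix (Fin n) (Fin n) ℝ :=
  Matrix.of fun i j => inner ℝ (pd i f x) (pd j f x)

/-- The Laplace-Beltrami operator of the metric `g`, applied componentwise to an
`ℝ^m`-valued map. -/
noncomputable def laplaceBeltrami {n m : ℕ} (g : EuclideanSpace ℝ (Fin n) → Matrix (Fin n) (Fin n) ℝ)
    (u : EuclideanSpace ℝ (Fin n) → EuclideanSpace ℝ (Fin m)) (x : EuclideanSpace ℝ (Fin n)) :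
    EuclideanSpace ℝ (Fin m) :=
  (Real.sqrt (g x).det)⁻¹ •
    ∑ i, pd i (fun y => Real.sqrt (g y).det • ∑ j, (g y)⁻¹ i j • pd j u y) x

variable {m : ℕ}

/-- A smooth immersed surface in coordinates `(x 0, x 1)` such that the lines `x 0 = const` are
trajectories of the one-parameter group of similarities generated by `y ↦ M y + w`. -/
structure Surf (M : E m →L[ℝ] E m) (c : ℝ) (w : E m) (U : Set (E 2)) (f : E 2 → E m) : Prop where
  isOpen : IsOpen U
  smooth : ContDiffOn ℝ ∞ f U
  imm : ∀ x ∈ U, Function.Injective (fderiv ℝ f x)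
  sim : IsSim M c
  inv : ∀ x ∈ U, pd 1 f x = M (f x) + w

/-- First fundamental form, `E`. -/
noncomputable def gE (f : E 2 → E m) (x : E 2) : ℝ := inner ℝ (pd 0 f x) (pd 0 f x)
/-- First fundamental form, `F`. -/
noncomputable def gF (f : E 2 → E m) (x : E 2) : ℝ := inner ℝ (pd 0 f x) (pd 1 f x)
/-- First fundamental form, `G`. -/
noncomputable def gG (f : E 2 → E m) (x : E 2) : ℝ := inner ℝ (pd 1 f x) (pd 1 f x)
/-- The area element. -/
noncomputable def gW (f : E 2 → E m) (x : E 2) : ℝ :=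
  Real.sqrt (gE f x * gG f x - gF f x ^ 2)

/-- The vector field orthogonal to `∂_1` and of the same length. -/
noncomputable def XX (f : E 2 → E m) (x : E 2) : E 2 :=
  (gW f x)⁻¹ • (gG f x • EuclideanSpace.single 0 (1 : ℝ) - gF f x • EuclideanSpace.single 1 (1 : ℝ))

/-- The derivative along `XX f`. -/
noncomputable def DD {k : ℕ} (f : E 2 → E m) (u : E 2 → E k) (x : E 2) : E k :=
  (gW f x)⁻¹ • (gG f x • pd 0 u x - gF f x • pd 1 u x)

theorem DD_eq {k : ℕ} (f : E 2 → E m) (u : E 2 → E k) (x : E 2) :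
    DD f u x = fderiv ℝ u x (XX f x) := by
  simp [DD, XX, pd, map_sub, map_smul]

end Pool.Agent.Helix
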