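import Pool.Agent.Helix.GeoLap

/-!
# The first-order system of an invariant biharmonic surface
-/

set_option autoImplicit false

namespace Pool.Agent.Helix

open Set Filter Topology
open scoped ContDiff

variable {m : ℕ} {M : E m →L[ℝ] E m} {c : ℝ} {w : E m} {U : Set (E 2)} {f : E 2 → E m}

private theorem GF_diff {F' : Type*} [NormedAddCommGroup F'] [NormedSpace ℝ F'] {u : E 2 → F'}
    (hU : IsOpen U) (hu : ContDiffOn ℝ ∞ u U) {x : E 2} (hx : x ∈ U) : DifferentiableAt ℝ u x :=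
  (hu.differentiableOn (by simp)).differentiableAt (hU.mem_nhds hx)

theorem Surf.P_norm (h : Surf M c w U f) {x : E 2} (hx : x ∈ U) :
    ‖DD f f x‖ ^ 2 = gG f x := by
  have hW := h.W_pos hx
  have hWs := h.W_sq hx
  rw [← real_inner_self_eq_norm_sq]
  have e : inner ℝ (DD f f x) (DD f f x) = (gW f x)⁻¹ ^ 2 *
      (gG f x ^ 2 * gE f x - 2 * gG f x * gF f x * gF f x + gF f x ^ 2 * gG f x) := by
    unfold DD gE gF
    have hG : gG f x = inner ℝ (pd 1 f x) (pd 1 f x) := rfl
    simp only [inner_smul_left, inner_smul_right, inner_sub_left, inner_sub_right, conj_trivial]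
    rw [← hG, real_inner_comm (pd 0 f x) (pd 1 f x)]
    ring
  rw [e]
  have e2 : gG f x ^ 2 * gE f x - 2 * gG f x * gF f x * gF f x + gF f x ^ 2 * gG f x =
      gG f x * gW f x ^ 2 := by
    rw [hWs]
    ring
  rw [e2]
  field_simp

theorem Surf.P_T (h : Surf M c w U f) {x : E 2} (hx : x ∈ U) :
    inner ℝ (DD f f x) (pd 1 f x) = 0 := by
  have _ := h
  have _ := hx
  unfold DD
  rw [inner_smul_left, inner_sub_left, inner_smul_left, inner_smul_left]
  unfold gG gF
  simp only [conj_trivial]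
  ring

private theorem GF_pd (h : Surf M c w U f) (i : Fin 2) {x : E 2} (hx : x ∈ U) :
    pd i (pd 1 f) x = M (pd i f x) := by
  rw [pd_comm h.isOpen h.smooth i 1 hx, h.pd1_pd i hx]

theorem Surf.D_T (h : Surf M c w U f) {x : E 2} (hx : x ∈ U) :
    DD f (pd 1 f) x = M (DD f f x) := by
  unfold DD
  rw [GF_pd h 0 hx, GF_pd h 1 hx]
  simp only [map_smul, map_sub]

theorem Surf.D_P (h : Surf M c w U f) {x : E 2} (hx : x ∈ U) :
    DD f (DD f f) x = -(M (pd 1 f x)) + gG f x • laplaceBeltrami (inducedMetric f) f x := by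
  have hG := h.G_pos hx
  rw [h.lap_eq h.smooth h.inv hx, GF_pd h 1 hx, smul_smul, mul_inv_cancel₀ hG.ne', one_smul]
  abel

/-- the derivative of an inner product along the vector field -/
private theorem GF_inner {u v : E 2 → E m} {x : E 2} (hu : DifferentiableAt ℝ u x)
    (hv : DifferentiableAt ℝ v x) (y : E 2) : fderiv ℝ (fun z => inner ℝ (u z) (v z)) x y =
      inner ℝ (u x) (fderiv ℝ v x y) + inner ℝ (fderiv ℝ u x y) (v x) :=
  fderiv_inner_apply ℝ hu hv y

private theorem GF_const (h : Surf M c w U f) {φ : E 2 → ℝ} {x : E 2} (hx : x ∈ U)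
    (hφ : ∀ y ∈ U, φ y = 0) (v : E 2) : fderiv ℝ φ x v = 0 := by
  have h1 : φ =ᶠ[𝓝 x] fun _ => 0 := by
    filter_upwards [h.isOpen.mem_nhds hx] with y hy
    exact hφ y hy
  rw [h1.fderiv_eq]
  simp

/-- The Laplacian of `f` is normal to the surface. -/
theorem Surf.P_h (h : Surf M c w U f) {x : E 2} (hx : x ∈ U) :
    inner ℝ (DD f f x) (laplaceBeltrami (inducedMetric f) f x) = 0 := by
  have hG := h.G_pos hx
  have hP := GF_diff h.isOpen (h.DD_smooth h.smooth) hx
  have hT := GF_diff h.isOpen (pd_contDiffOn h.isOpen h.smooth 1) hx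
  have h1 := GF_const h (φ := fun y => inner ℝ (DD f f y) (DD f f y) -
    inner ℝ (pd 1 f y) (pd 1 f y)) hx (fun y hy => by
      have := h.P_norm hy
      rw [← real_inner_self_eq_norm_sq] at this
      show inner ℝ (DD f f y) (DD f f y) - gG f y = 0
      rw [this, sub_self]) (XX f x)
  have h2 : fderiv ℝ (fun y => inner ℝ (DD f f y) (DD f f y) -
      inner ℝ (pd 1 f y) (pd 1 f y)) x (XX f x) =
      (inner ℝ (DD f f x) (DD f (DD f f) x) + inner ℝ (DD f (DD f f) x) (DD f f x)) -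
      (inner ℝ (pd 1 f x) (DD f (pd 1 f) x) + inner ℝ (DD f (pd 1 f) x) (pd 1 f x)) := by
    have h3 : DifferentiableAt ℝ (fun y => inner ℝ (DD f f y) (DD f f y)) x := hP.inner ℝ hP
    have h4 : DifferentiableAt ℝ (fun y => inner ℝ (pd 1 f y) (pd 1 f y)) x := hT.inner ℝ hT
    have h5 : HasFDerivAt (fun y => inner ℝ (DD f f y) (DD f f y) -
      inner ℝ (pd 1 f y) (pd 1 f y)) _ x := h3.hasFDerivAt.sub h4.hasFDerivAt
    rw [h5.fderiv, DD_eq f (DD f f), DD_eq f (pd 1 f)]
    show fderiv ℝ (fun y => inner ℝ (DD f f y) (DD f f y)) x (XX f x) -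
      fderiv ℝ (fun y => inner ℝ (pd 1 f y) (pd 1 f y)) x (XX f x) = _
    rw [GF_inner hP hP, GF_inner hT hT]
  rw [h2, real_inner_comm (DD f f x) (DD f (DD f f) x),
    real_inner_comm (pd 1 f x) (DD f (pd 1 f) x), h.D_T hx, h.D_P hx, inner_add_right,
    inner_neg_right, inner_smul_right] at h1
  have h6 := h.sim (DD f f x) (pd 1 f x)
  rw [h.P_T hx, mul_zero] at h6
  have h7 : inner ℝ (M (DD f f x)) (pd 1 f x) = inner ℝ (pd 1 f x) (M (DD f f x)) :=
    real_inner_comm _ _
  rw [h7] at h6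
  have h9 : gG f x * inner ℝ (DD f f x) (laplaceBeltrami (inducedMetric f) f x) = 0 := by
    linarith
  exact (mul_eq_zero.1 h9).resolve_left hG.ne'

theorem Surf.T_h (h : Surf M c w U f) {x : E 2} (hx : x ∈ U) :
    inner ℝ (pd 1 f x) (laplaceBeltrami (inducedMetric f) f x) = 0 := by
  have hG := h.G_pos hx
  have hP := GF_diff h.isOpen (h.DD_smooth h.smooth) hx
  have hT := GF_diff h.isOpen (pd_contDiffOn h.isOpen h.smooth 1) hx
  have h1 := GF_const h (φ := fun y => inner ℝ (DD f f y) (pd 1 f y)) hx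
    (fun y hy => h.P_T hy) (XX f x)
  rw [GF_inner hP hT, ← DD_eq, ← DD_eq, h.D_T hx, h.D_P hx, inner_add_left,
    inner_neg_left, inner_smul_left] at h1
  simp only [conj_trivial] at h1
  have h2 := h.sim (DD f f x) (DD f f x)
  have h3 := h.sim (pd 1 f x) (pd 1 f x)
  have h4 : inner ℝ (DD f f x) (DD f f x) = gG f x := by
    rw [real_inner_self_eq_norm_sq, h.P_norm hx]
  have h5 : inner ℝ (pd 1 f x) (pd 1 f x) = gG f x := rfl
  rw [h4, real_inner_comm (DD f f x) (M (DD f f x))] at h2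
  rw [h5, real_inner_comm (M (pd 1 f x)) (pd 1 f x)] at h3
  have h6 : inner ℝ (laplaceBeltrami (inducedMetric f) f x) (pd 1 f x) =
      inner ℝ (pd 1 f x) (laplaceBeltrami (inducedMetric f) f x) := real_inner_comm _ _
  rw [h6] at h1
  have h9 : gG f x * inner ℝ (pd 1 f x) (laplaceBeltrami (inducedMetric f) f x) = 0 := by
    linarith
  exact (mul_eq_zero.1 h9).resolve_left hG.ne'

theorem Surf.cons (h : Surf M c w U f) {x : E 2} (hx : x ∈ U) :
    Cons (pd 1 f x) (DD f f x) (laplaceBeltrami (inducedMetric f) f x) := by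
  refine ⟨?_, h.P_T hx, h.P_h hx, h.T_h hx⟩
  rw [h.P_norm hx, ← real_inner_self_eq_norm_sq]
  rfl

/-- The biharmonic equation. -/
theorem Surf.D_Q (h : Surf M c w U f)
    (hbi : ∀ x ∈ U, laplaceBeltrami (inducedMetric f)
      (laplaceBeltrami (inducedMetric f) f) x = 0) {x : E 2} (hx : x ∈ U) :
    DD f (DD f (laplaceBeltrami (inducedMetric f) f)) x =
      -(NN M c (NN M c (laplaceBeltrami (inducedMetric f) f x))) := by
  have hG := h.G_pos hx
  set H : E 2 → E m := laplaceBeltrami (inducedMetric f) f with hH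
  have hHs : ContDiffOn ℝ ∞ H U := h.lap_smooth h.smooth h.inv
  have hA : ∀ y ∈ U, pd 1 H y = NN M c (H y) + 0 := by
    intro y hy
    rw [add_zero, NN_apply]
    exact h.lap_pd1 h.smooth h.inv hy
  have h1 := h.lap_eq hHs hA hx
  rw [hbi x hx] at h1
  have h2 : DD f (DD f H) x + pd 1 (pd 1 H) x = 0 :=
    (smul_eq_zero.1 h1.symm).resolve_left (inv_ne_zero hG.ne')
  have h3 : pd 1 (pd 1 H) x = NN M c (NN M c (H x)) := by
    have h4 : pd 1 H =ᶠ[𝓝 x] fun y => NN M c (H y) := by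
      filter_upwards [h.isOpen.mem_nhds hx] with y hy
      rw [hA y hy, add_zero]
    have h5 : HasFDerivAt (fun y => NN M c (H y)) _ x :=
      (NN M c).hasFDerivAt.comp x (GF_diff h.isOpen hHs hx).hasFDerivAt
    show fderiv ℝ (pd 1 H) x (EuclideanSpace.single 1 (1 : ℝ)) = _
    rw [h4.fderiv_eq, h5.fderiv]
    show NN M c (pd 1 H x) = _
    rw [hA x hx, add_zero]
  rw [h3] at h2
  exact eq_neg_of_add_eq_zero_left h2

end Pool.Agent.Helix
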