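import Pool.Agent.Helix.GeoCoord

/-!
# The Laplace-Beltrami operator on equivariant maps
-/

set_option autoImplicit false

namespace Pool.Agent.Helix

open Set Filter Topology
open scoped ContDiff

variable {m k : ℕ} {M : E m →L[ℝ] E m} {c : ℝ} {w : E m} {U : Set (E 2)} {f : E 2 → E m}

private theorem GL_congr {u v : E 2 → E k} {x : E 2} (h : u =ᶠ[𝓝 x] v) (i : Fin 2) :
    pd i u x = pd i v x := by
  unfold pd
  rw [h.fderiv_eq]

private theorem GL_smul {φ : E 2 → ℝ} {v : E 2 → E k} {x : E 2} (hφ : DifferentiableAt ℝ φ x)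
    (hv : DifferentiableAt ℝ v x) (i : Fin 2) : pd i (fun y => φ y • v y) x =
      φ x • pd i v x + (fderiv ℝ φ x (EuclideanSpace.single i (1 : ℝ))) • v x := by
  unfold pd
  have h : HasFDerivAt (fun y => φ y • v y) _ x := hφ.hasFDerivAt.smul hv.hasFDerivAt
  rw [h.fderiv]
  simp

private theorem GL_add {u v : E 2 → E k} {x : E 2} (hu : DifferentiableAt ℝ u x)
    (hv : DifferentiableAt ℝ v x) (i : Fin 2) :
    pd i (fun y => u y + v y) x = pd i u x + pd i v x := by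
  unfold pd
  have h : HasFDerivAt (fun y => u y + v y) _ x := hu.hasFDerivAt.add hv.hasFDerivAt
  rw [h.fderiv]
  rfl

private theorem GL_sub {u v : E 2 → E k} {x : E 2} (hu : DifferentiableAt ℝ u x)
    (hv : DifferentiableAt ℝ v x) (i : Fin 2) :
    pd i (fun y => u y - v y) x = pd i u x - pd i v x := by
  unfold pd
  have h : HasFDerivAt (fun y => u y - v y) _ x := hu.hasFDerivAt.sub hv.hasFDerivAt
  rw [h.fderiv]
  rfl

private theorem GL_clm {u : E 2 → E k} {x : E 2} (hu : DifferentiableAt ℝ u x)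
    (A : E k →L[ℝ] E k) (b : E k) (i : Fin 2) :
    pd i (fun y => A (u y) + b) x = A (pd i u x) := by
  unfold pd
  have h : HasFDerivAt (fun y => A (u y) + b) _ x :=
    (A.hasFDerivAt.comp x hu.hasFDerivAt).add_const b
  rw [h.fderiv]
  rfl

private theorem GL_diff {F' : Type*} [NormedAddCommGroup F'] [NormedSpace ℝ F'] {u : E 2 → F'}
    (hU : IsOpen U) (hu : ContDiffOn ℝ ∞ u U) {x : E 2} (hx : x ∈ U) : DifferentiableAt ℝ u x :=
  (hu.differentiableOn (by simp)).differentiableAt (hU.mem_nhds hx)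

/-- equivariance of the partial derivatives -/
private theorem GL_equi (hU : IsOpen U) {u : E 2 → E k} (hu : ContDiffOn ℝ ∞ u U)
    {A : E k →L[ℝ] E k} {b : E k} (hA : ∀ x ∈ U, pd 1 u x = A (u x) + b) (i : Fin 2) {x : E 2}
    (hx : x ∈ U) : pd 1 (pd i u) x = A (pd i u x) := by
  rw [pd_comm hU hu 1 i hx]
  have h : pd 1 u =ᶠ[𝓝 x] fun y => A (u y) + b := by
    filter_upwards [hU.mem_nhds hx] with y hy
    exact hA y hy
  rw [GL_congr h, GL_clm (GL_diff hU hu hx)]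

private theorem GL_DD (f : E 2 → E m) (u : E 2 → E k) :
    DD f u = fun y => (gG f y / gW f y) • pd 0 u y - (gF f y / gW f y) • pd 1 u y := by
  funext y
  unfold DD
  rw [smul_sub, smul_smul, smul_smul, div_eq_inv_mul, div_eq_inv_mul]

private theorem GL_quot (h : Surf M c w U f) {p : E 2 → ℝ} (hp : ContDiffOn ℝ ∞ p U)
    (hp1 : ∀ x ∈ U, fderiv ℝ p x (EuclideanSpace.single 1 (1 : ℝ)) = 2 * c * p x) {x : E 2}
    (hx : x ∈ U) : DifferentiableAt ℝ (fun y => p y / gW f y) x ∧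
      fderiv ℝ (fun y => p y / gW f y) x (EuclideanSpace.single 1 (1 : ℝ)) = 0 := by
  have h1 := GL_diff h.isOpen hp hx
  have h2 := GL_diff h.isOpen h.W_smooth hx
  have h3 : gW f x ≠ 0 := (h.W_pos hx).ne'
  refine ⟨?_, quot_d1 h1 h2 h3 (hp1 x hx) (h.W_d1 hx)⟩
  have h4 : DifferentiableAt ℝ (fun y => p y * (gW f y)⁻¹) x := h1.mul (h2.inv h3)
  simpa only [div_eq_mul_inv] using h4

/-- derivative along `∂_1` of a combination with coefficients which are constant along `∂_1` -/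
private theorem GL_comb {p q : E 2 → ℝ} {u v : E 2 → E k} {x : E 2}
    (hp : DifferentiableAt ℝ p x ∧ fderiv ℝ p x (EuclideanSpace.single 1 (1 : ℝ)) = 0)
    (hq : DifferentiableAt ℝ q x ∧ fderiv ℝ q x (EuclideanSpace.single 1 (1 : ℝ)) = 0)
    (hu : DifferentiableAt ℝ u x) (hv : DifferentiableAt ℝ v x) :
    pd 1 (fun y => p y • u y - q y • v y) x = p x • pd 1 u x - q x • pd 1 v x := by
  have h1 : DifferentiableAt ℝ (fun y => p y • u y) x := hp.1.smul hu
  have h2 : DifferentiableAt ℝ (fun y => q y • v y) x := hq.1.smul hv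
  rw [GL_sub h1 h2, GL_smul hp.1 hu, GL_smul hq.1 hv, hp.2, hq.2]
  simp

private theorem GL_DD1 (h : Surf M c w U f) {u : E 2 → E k} (hu : ContDiffOn ℝ ∞ u U)
    {x : E 2} (hx : x ∈ U) : pd 1 (DD f u) x =
      (gG f x / gW f x) • pd 1 (pd 0 u) x - (gF f x / gW f x) • pd 1 (pd 1 u) x := by
  rw [GL_DD]
  exact GL_comb (GL_quot h h.G_smooth (fun x hx => h.G_d1 hx) hx)
    (GL_quot h h.F_smooth (fun x hx => h.F_d1 hx) hx)
    (GL_diff h.isOpen (pd_contDiffOn h.isOpen hu 0) hx)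
    (GL_diff h.isOpen (pd_contDiffOn h.isOpen hu 1) hx)

theorem Surf.DD_smooth (h : Surf M c w U f) {u : E 2 → E k} (hu : ContDiffOn ℝ ∞ u U) :
    ContDiffOn ℝ ∞ (DD f u) U := by
  have hW : ContDiffOn ℝ ∞ (fun x => (gW f x)⁻¹) U :=
    h.W_smooth.inv fun x hx => (h.W_pos hx).ne'
  exact hW.smul ((h.G_smooth.smul (pd_contDiffOn h.isOpen hu 0)).sub
    (h.F_smooth.smul (pd_contDiffOn h.isOpen hu 1)))

/-- `D` commutes with `∂_1` on equivariant maps. -/
theorem Surf.DD_pd1 (h : Surf M c w U f) {u : E 2 → E k} (hu : ContDiffOn ℝ ∞ u U)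
    {A : E k →L[ℝ] E k} {b : E k} (hA : ∀ x ∈ U, pd 1 u x = A (u x) + b) {x : E 2} (hx : x ∈ U) :
    pd 1 (DD f u) x = A (DD f u x) := by
  rw [GL_DD1 h hu hx, GL_equi h.isOpen hu hA 0 hx, GL_equi h.isOpen hu hA 1 hx, GL_DD]
  simp only [map_sub, map_smul]

/-- The operator on equivariant maps. -/
theorem Surf.lap_eq (h : Surf M c w U f) {u : E 2 → E k} (hu : ContDiffOn ℝ ∞ u U)
    {A : E k →L[ℝ] E k} {b : E k} (hA : ∀ x ∈ U, pd 1 u x = A (u x) + b) {x : E 2} (hx : x ∈ U) :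
    laplaceBeltrami (inducedMetric f) u x =
      (gG f x)⁻¹ • (DD f (DD f u) x + pd 1 (pd 1 u) x) := by
  have _ := hA
  have hW := h.W_pos hx
  have hG := h.G_pos hx
  have hWs := h.W_sq hx
  rw [h.lap_coord hu hx]
  have h1 : pd 1 (fun y => (gE f y / gW f y) • pd 1 u y - (gF f y / gW f y) • pd 0 u y) x =
      (gE f x / gW f x) • pd 1 (pd 1 u) x - (gF f x / gW f x) • pd 1 (pd 0 u) x :=
    GL_comb (GL_quot h h.E_smooth (fun x hx => h.E_d1 hx) hx)
      (GL_quot h h.F_smooth (fun x hx => h.F_d1 hx) hx)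
      (GL_diff h.isOpen (pd_contDiffOn h.isOpen hu 1) hx)
      (GL_diff h.isOpen (pd_contDiffOn h.isOpen hu 0) hx)
  have h2 : DD f (DD f u) x = (gW f x)⁻¹ • (gG f x • pd 0 (DD f u) x - gF f x •
      ((gG f x / gW f x) • pd 1 (pd 0 u) x - (gF f x / gW f x) • pd 1 (pd 1 u) x)) := by
    show (gW f x)⁻¹ • (gG f x • pd 0 (DD f u) x - gF f x • pd 1 (DD f u) x) = _
    rw [GL_DD1 h hu hx]
  rw [h1, h2]
  generalize pd 0 (DD f u) x = a
  generalize pd 1 (pd 0 u) x = v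
  generalize pd 1 (pd 1 u) x = z
  have e1 : gE f x = (gW f x ^ 2 + gF f x ^ 2) / gG f x := by
    rw [hWs]
    field_simp
    ring
  rw [e1]
  match_scalars <;> (field_simp; try ring)

theorem Surf.lap_smooth (h : Surf M c w U f) {u : E 2 → E k} (hu : ContDiffOn ℝ ∞ u U)
    {A : E k →L[ℝ] E k} {b : E k} (hA : ∀ x ∈ U, pd 1 u x = A (u x) + b) :
    ContDiffOn ℝ ∞ (laplaceBeltrami (inducedMetric f) u) U := by
  have hG : ContDiffOn ℝ ∞ (fun x => (gG f x)⁻¹) U :=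
    h.G_smooth.inv fun x hx => (h.G_pos hx).ne'
  have h1 : ContDiffOn ℝ ∞ (fun x => (gG f x)⁻¹ • (DD f (DD f u) x + pd 1 (pd 1 u) x)) U :=
    hG.smul ((h.DD_smooth (h.DD_smooth hu)).add
      (pd_contDiffOn h.isOpen (pd_contDiffOn h.isOpen hu 1) 1))
  exact h1.congr fun x hx => h.lap_eq hu hA hx

/-- The Laplacian of an equivariant map is equivariant. -/
theorem Surf.lap_pd1 (h : Surf M c w U f) {u : E 2 → E k} (hu : ContDiffOn ℝ ∞ u U)
    {A : E k →L[ℝ] E k} {b : E k} (hA : ∀ x ∈ U, pd 1 u x = A (u x) + b) {x : E 2} (hx : x ∈ U) :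
    pd 1 (laplaceBeltrami (inducedMetric f) u) x =
      A (laplaceBeltrami (inducedMetric f) u x) -
        (2 * c) • laplaceBeltrami (inducedMetric f) u x := by
  have hG := h.G_pos hx
  have hGd := GL_diff h.isOpen h.G_smooth hx
  have hDu := h.DD_smooth hu
  have h1 : laplaceBeltrami (inducedMetric f) u =ᶠ[𝓝 x]
      fun y => (gG f y)⁻¹ • (DD f (DD f u) y + pd 1 (pd 1 u) y) := by
    filter_upwards [h.isOpen.mem_nhds hx] with y hy
    exact h.lap_eq hu hA hy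
  have h2 : HasFDerivAt (fun y => (gG f y)⁻¹) (-(gG f x ^ 2)⁻¹ • fderiv ℝ (gG f) x) x :=
    (hasDerivAt_inv hG.ne').comp_hasFDerivAt x hGd.hasFDerivAt
  have h3 : fderiv ℝ (fun y => (gG f y)⁻¹) x (EuclideanSpace.single 1 (1 : ℝ)) =
      -(2 * c) * (gG f x)⁻¹ := by
    rw [h2.fderiv, smul_apply, h.G_d1 hx, smul_eq_mul]
    field_simp
  have hpd : ContDiffOn ℝ ∞ (pd 1 (pd 1 u)) U :=
    pd_contDiffOn h.isOpen (pd_contDiffOn h.isOpen hu 1) 1
  have h4 : pd 1 (DD f (DD f u)) x = A (DD f (DD f u) x) :=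
    h.DD_pd1 hDu (b := 0) (fun y hy => by rw [h.DD_pd1 hu hA hy, add_zero]) hx
  have h5 : pd 1 (pd 1 (pd 1 u)) x = A (pd 1 (pd 1 u) x) :=
    GL_equi h.isOpen (pd_contDiffOn h.isOpen hu 1) (b := 0)
      (fun y hy => by rw [GL_equi h.isOpen hu hA 1 hy, add_zero]) 1 hx
  have h6 : DifferentiableAt ℝ (fun y => DD f (DD f u) y + pd 1 (pd 1 u) y) x :=
    (GL_diff h.isOpen (h.DD_smooth hDu) hx).add (GL_diff h.isOpen hpd hx)
  rw [GL_congr h1, GL_smul h2.differentiableAt h6, h3,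
    GL_add (GL_diff h.isOpen (h.DD_smooth hDu) hx) (GL_diff h.isOpen hpd hx), h4, h5,
    h.lap_eq hu hA hx]
  simp only [map_smul, map_add]
  module

end Pool.Agent.Helix
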