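import Pool.Agent.Helix.GeoDefs

/-!
# The induced metric of an invariant surface
-/

set_option autoImplicit false

namespace Pool.Agent.Helix

open Set Filter Topology
open scoped ContDiff

variable {m k : ℕ} {M : E m →L[ℝ] E m} {c : ℝ} {w : E m} {U : Set (E 2)} {f : E 2 → E m}

theorem pd_contDiffOn {n : ℕ} {U : Set (E n)} (hU : IsOpen U) {u : E n → E k}
    (hu : ContDiffOn ℝ ∞ u U) (i : Fin n) : ContDiffOn ℝ ∞ (pd i u) U := by
  have h1 : ContDiffOn ℝ ∞ (fderiv ℝ u) U := hu.fderiv_of_isOpen hU (by simp)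
  exact h1.clm_apply contDiffOn_const

private theorem geo_diffAt {n : ℕ} {F : Type*} [NormedAddCommGroup F] [NormedSpace ℝ F]
    {U : Set (E n)} (hU : IsOpen U) {u : E n → F}
    (hu : ContDiffOn ℝ ∞ u U) {x : E n} (hx : x ∈ U) : DifferentiableAt ℝ u x :=
  ((hu x hx).contDiffAt (hU.mem_nhds hx)).differentiableAt (by simp)

private theorem geo_pd_pd {n : ℕ} {U : Set (E n)} (hU : IsOpen U) {u : E n → E k}
    (hu : ContDiffOn ℝ ∞ u U) (i j : Fin n) {x : E n} (hx : x ∈ U) :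
    pd i (pd j u) x = fderiv ℝ (fderiv ℝ u) x (EuclideanSpace.single i (1 : ℝ))
      (EuclideanSpace.single j (1 : ℝ)) := by
  have h1 : ContDiffOn ℝ ∞ (fderiv ℝ u) U := hu.fderiv_of_isOpen hU (by simp)
  have h2 : DifferentiableAt ℝ (fderiv ℝ u) x := geo_diffAt hU h1 hx
  have h3 := h2.hasFDerivAt.clm_apply
    (hasFDerivAt_const (EuclideanSpace.single j (1 : ℝ) : E n) x)
  have h4 : HasFDerivAt (pd j u) _ x := h3
  change fderiv ℝ (pd j u) x (EuclideanSpace.single i (1 : ℝ)) = _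
  rw [h4.fderiv]
  simp

/-- Mixed partial derivatives commute. -/
theorem pd_comm {n : ℕ} {U : Set (E n)} (hU : IsOpen U) {u : E n → E k}
    (hu : ContDiffOn ℝ ∞ u U) (i j : Fin n) {x : E n} (hx : x ∈ U) :
    pd i (pd j u) x = pd j (pd i u) x := by
  rw [geo_pd_pd hU hu i j hx, geo_pd_pd hU hu j i hx]
  have h1 : ContDiffAt ℝ ∞ u x := (hu x hx).contDiffAt (hU.mem_nhds hx)
  have h2 : minSmoothness ℝ 2 ≤ ∞ := by
    rw [minSmoothness_of_isRCLikeNormedField]
    exact WithTop.coe_le_coe.mpr le_top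
  exact (h1.isSymmSndFDerivAt h2) _ _

theorem Surf.G_pos (h : Surf M c w U f) {x : E 2} (hx : x ∈ U) : 0 < gG f x := by
  have h1 : pd 1 f x ≠ 0 := by
    intro h0
    have h2 : fderiv ℝ f x (EuclideanSpace.single 1 (1 : ℝ)) = fderiv ℝ f x 0 := by
      rw [map_zero]; exact h0
    have h3 := h.imm x hx h2
    have h4 := congrArg (fun v : E 2 => v 1) h3
    simp at h4
  exact real_inner_self_pos.mpr h1

theorem Surf.det_pos (h : Surf M c w U f) {x : E 2} (hx : x ∈ U) :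
    0 < gE f x * gG f x - gF f x ^ 2 := by
  have hG := h.G_pos hx
  have h1 : gG f x • pd 0 f x - gF f x • pd 1 f x ≠ 0 := by
    intro h0
    have h2 : fderiv ℝ f x (gG f x • EuclideanSpace.single 0 (1 : ℝ) -
        gF f x • EuclideanSpace.single 1 (1 : ℝ)) = fderiv ℝ f x 0 := by
      rw [map_zero, map_sub, map_smul, map_smul]; exact h0
    have h3 := h.imm x hx h2
    have h4 := congrArg (fun v : E 2 => v 0) h3
    simp at h4
    exact hG.ne' h4
  have h2 := real_inner_self_pos.mpr h1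
  have h3 : inner ℝ (gG f x • pd 0 f x - gF f x • pd 1 f x)
      (gG f x • pd 0 f x - gF f x • pd 1 f x) = gG f x * (gE f x * gG f x - gF f x ^ 2) := by
    simp only [inner_sub_left, inner_sub_right, inner_smul_left, inner_smul_right,
      conj_trivial]
    have e1 : inner ℝ (pd 0 f x) (pd 0 f x) = gE f x := rfl
    have e2 : inner ℝ (pd 0 f x) (pd 1 f x) = gF f x := rfl
    have e3 : inner ℝ (pd 1 f x) (pd 0 f x) = gF f x := by rw [real_inner_comm]; rfl
    have e4 : inner ℝ (pd 1 f x) (pd 1 f x) = gG f x := rfl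
    rw [e1, e2, e3, e4]
    ring
  rw [h3] at h2
  exact (mul_pos_iff_of_pos_left hG).mp h2

theorem Surf.W_pos (h : Surf M c w U f) {x : E 2} (hx : x ∈ U) : 0 < gW f x :=
  Real.sqrt_pos.mpr (h.det_pos hx)

theorem Surf.W_sq (h : Surf M c w U f) {x : E 2} (hx : x ∈ U) :
    gW f x ^ 2 = gE f x * gG f x - gF f x ^ 2 :=
  Real.sq_sqrt (h.det_pos hx).le

theorem Surf.E_smooth (h : Surf M c w U f) : ContDiffOn ℝ ∞ (gE f) U :=
  (pd_contDiffOn h.isOpen h.smooth 0).inner ℝ (pd_contDiffOn h.isOpen h.smooth 0)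

theorem Surf.F_smooth (h : Surf M c w U f) : ContDiffOn ℝ ∞ (gF f) U :=
  (pd_contDiffOn h.isOpen h.smooth 0).inner ℝ (pd_contDiffOn h.isOpen h.smooth 1)

theorem Surf.G_smooth (h : Surf M c w U f) : ContDiffOn ℝ ∞ (gG f) U :=
  (pd_contDiffOn h.isOpen h.smooth 1).inner ℝ (pd_contDiffOn h.isOpen h.smooth 1)

theorem Surf.W_smooth (h : Surf M c w U f) : ContDiffOn ℝ ∞ (gW f) U := by
  have h1 : ContDiffOn ℝ ∞ (fun x => gE f x * gG f x - gF f x ^ 2) U :=
    (h.E_smooth.mul h.G_smooth).sub (h.F_smooth.pow 2)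
  exact h1.sqrt fun x hx => (h.det_pos hx).ne'

/-- `∂_1 ∂_i f = M ∂_i f`. -/
theorem Surf.pd1_pd (h : Surf M c w U f) (i : Fin 2) {x : E 2} (hx : x ∈ U) :
    pd 1 (pd i f) x = M (pd i f x) := by
  rw [pd_comm h.isOpen h.smooth 1 i hx]
  have h1 : pd 1 f =ᶠ[𝓝 x] fun y => M (f y) + w := by
    filter_upwards [h.isOpen.mem_nhds hx] with y hy
    exact h.inv y hy
  change fderiv ℝ (pd 1 f) x (EuclideanSpace.single i (1 : ℝ)) = _
  rw [h1.fderiv_eq]
  have h2 : DifferentiableAt ℝ f x := geo_diffAt h.isOpen h.smooth hx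
  have h3 : HasFDerivAt (fun y => M (f y) + w) (M.comp (fderiv ℝ f x)) x :=
    (M.hasFDerivAt.comp x h2.hasFDerivAt).add_const w
  rw [h3.fderiv]
  rfl

private theorem geo_inner_d1 (h : Surf M c w U f) (i j : Fin 2) {x : E 2} (hx : x ∈ U) :
    fderiv ℝ (fun y => inner ℝ (pd i f y) (pd j f y)) x (EuclideanSpace.single 1 (1 : ℝ)) =
      2 * c * inner ℝ (pd i f x) (pd j f x) := by
  have hi : DifferentiableAt ℝ (pd i f) x :=
    geo_diffAt h.isOpen (pd_contDiffOn h.isOpen h.smooth i) hx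
  have hj : DifferentiableAt ℝ (pd j f) x :=
    geo_diffAt h.isOpen (pd_contDiffOn h.isOpen h.smooth j) hx
  rw [fderiv_inner_apply ℝ hi hj]
  have h1 : fderiv ℝ (pd i f) x (EuclideanSpace.single 1 (1 : ℝ)) = M (pd i f x) :=
    h.pd1_pd i hx
  have h2 : fderiv ℝ (pd j f) x (EuclideanSpace.single 1 (1 : ℝ)) = M (pd j f x) :=
    h.pd1_pd j hx
  rw [h1, h2, ← h.sim, add_comm]

theorem Surf.E_d1 (h : Surf M c w U f) {x : E 2} (hx : x ∈ U) :
    fderiv ℝ (gE f) x (EuclideanSpace.single 1 (1 : ℝ)) = 2 * c * gE f x :=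
  geo_inner_d1 h 0 0 hx

theorem Surf.F_d1 (h : Surf M c w U f) {x : E 2} (hx : x ∈ U) :
    fderiv ℝ (gF f) x (EuclideanSpace.single 1 (1 : ℝ)) = 2 * c * gF f x :=
  geo_inner_d1 h 0 1 hx

theorem Surf.G_d1 (h : Surf M c w U f) {x : E 2} (hx : x ∈ U) :
    fderiv ℝ (gG f) x (EuclideanSpace.single 1 (1 : ℝ)) = 2 * c * gG f x :=
  geo_inner_d1 h 1 1 hx

theorem Surf.W_d1 (h : Surf M c w U f) {x : E 2} (hx : x ∈ U) :
    fderiv ℝ (gW f) x (EuclideanSpace.single 1 (1 : ℝ)) = 2 * c * gW f x := by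
  have hE := (geo_diffAt h.isOpen h.E_smooth hx).hasFDerivAt
  have hF := (geo_diffAt h.isOpen h.F_smooth hx).hasFDerivAt
  have hG := (geo_diffAt h.isOpen h.G_smooth hx).hasFDerivAt
  have hD := (hE.mul hG).sub (hF.mul hF)
  have hD' : HasFDerivAt (fun y => gE f y * gG f y - gF f y ^ 2) _ x :=
    hD.congr_of_eventuallyEq (Eventually.of_forall fun y => by
      simp only [Pi.sub_apply, Pi.mul_apply]; ring)
  have hW := hD'.sqrt (h.det_pos hx).ne'
  have hW' : HasFDerivAt (gW f) _ x := hW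
  rw [hW'.fderiv]
  have hWp := h.W_pos hx
  have hWs := h.W_sq hx
  have e : √(gE f x * gG f x - gF f x ^ 2) = gW f x := rfl
  rw [e]
  simp only [_root_.smul_apply, _root_.sub_apply,
    _root_.add_apply, h.E_d1 hx, h.F_d1 hx, h.G_d1 hx, smul_eq_mul]
  field_simp
  rw [hWs]
  ring

/-- Quotients of two functions scaling in the same way are constant along `∂_1`. -/
theorem quot_d1 {p q : E 2 → ℝ} {x : E 2} {c : ℝ} (hp : DifferentiableAt ℝ p x)
    (hq : DifferentiableAt ℝ q x) (hq0 : q x ≠ 0)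
    (hp1 : fderiv ℝ p x (EuclideanSpace.single 1 (1 : ℝ)) = 2 * c * p x)
    (hq1 : fderiv ℝ q x (EuclideanSpace.single 1 (1 : ℝ)) = 2 * c * q x) :
    fderiv ℝ (fun y => p y / q y) x (EuclideanSpace.single 1 (1 : ℝ)) = 0 := by
  have hr : DifferentiableAt ℝ (fun y => p y / q y) x := by
    simp only [div_eq_mul_inv]
    exact hp.mul (hq.inv hq0)
  have h1 := hr.hasFDerivAt.mul hq.hasFDerivAt
  have h2 : p =ᶠ[𝓝 x] ((fun y => p y / q y) * q) := by
    filter_upwards [hq.continuousAt.eventually_ne hq0] with y hy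
    change p y = p y / q y * q y
    field_simp
  have h3 := (h1.congr_of_eventuallyEq h2).fderiv
  have h4 := congrArg (fun L : E 2 →L[ℝ] ℝ => L (EuclideanSpace.single 1 (1 : ℝ))) h3
  simp only [_root_.add_apply, _root_.smul_apply, smul_eq_mul, hp1,
    hq1] at h4
  have h5 : q x * fderiv ℝ (fun y => p y / q y) x (EuclideanSpace.single 1 (1 : ℝ)) = 0 := by
    have h6 : p x / q x * (2 * c * q x) = 2 * c * p x := by field_simp
    rw [h6] at h4
    linarith
  exact (mul_eq_zero.mp h5).resolve_left hq0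

end Pool.Agent.Helix
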