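import Mathlib

/-!
# Gluing solutions
-/

set_option autoImplicit false

namespace Pool.Agent.Helix

open Set Filter Topology

variable {V : Type*} [NormedAddCommGroup V] [NormedSpace ℝ V] [FiniteDimensional ℝ V]

/-- Uniqueness on a symmetric open interval. -/
private theorem glue_unique {F : V → V} (hF : ContDiff ℝ 1 F) {a : ℝ} {Z W : ℝ → V}
    (hZ : ∀ t ∈ Ioo (-a) a, HasDerivAt Z (F (Z t)) t)
    (hW : ∀ t ∈ Ioo (-a) a, HasDerivAt W (F (W t)) t) (h0 : Z 0 = W 0) {t : ℝ}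
    (ht : |t| < a) : Z t = W t := by
  have : ProperSpace V := FiniteDimensional.proper ℝ V
  obtain ⟨b, hb1, hb2⟩ := exists_between ht
  have hb0 : 0 < b := lt_of_le_of_lt (abs_nonneg t) hb1
  have hsub : Icc (-b) b ⊆ Ioo (-a) a := fun s hs => ⟨by linarith [hs.1], by linarith [hs.2]⟩
  have hZc : ContinuousOn Z (Icc (-b) b) := fun s hs =>
    (hZ s (hsub hs)).continuousAt.continuousWithinAt
  have hWc : ContinuousOn W (Icc (-b) b) := fun s hs =>
    (hW s (hsub hs)).continuousAt.continuousWithinAt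
  have hKc : IsCompact (Z '' Icc (-b) b ∪ W '' Icc (-b) b) :=
    (isCompact_Icc.image_of_continuousOn hZc).union (isCompact_Icc.image_of_continuousOn hWc)
  obtain ⟨R, hR⟩ := hKc.isBounded.subset_closedBall (0 : V)
  obtain ⟨K, hK⟩ := ContDiffOn.exists_lipschitzOnWith (n := 1) hF.contDiffOn (by norm_num)
    (convex_closedBall (0 : V) R) (isCompact_closedBall (0 : V) R)
  have hss : Ioo (-b) b ⊆ Icc (-b) b := Ioo_subset_Icc_self
  have := ODE_solution_unique_of_mem_Ioo (v := fun _ => F)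
    (s := fun _ => Metric.closedBall (0 : V) R) (t₀ := 0) (K := K) (f := Z) (g := W)
    (a := -b) (b := b) (fun _ _ => hK) ⟨by linarith, hb0⟩
    (fun s hs => ⟨hZ s (hsub (hss hs)), hR (Or.inl ⟨s, hss hs, rfl⟩)⟩)
    (fun s hs => ⟨hW s (hsub (hss hs)), hR (Or.inr ⟨s, hss hs, rfl⟩)⟩) h0
  exact this ⟨by linarith [(abs_lt.1 hb1).1], (abs_lt.1 hb1).2⟩

/-- Solutions on all intervals `(-a, a)` give a solution on the line. -/
theorem exists_global {F : V → V} (hF : ContDiff ℝ 1 F) (Y0 : V)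
    (h : ∀ a : ℝ, 0 < a → ∃ Z : ℝ → V, Z 0 = Y0 ∧
      ∀ t ∈ Ioo (-a) a, HasDerivAt Z (F (Z t)) t) :
    ∃ Z : ℝ → V, Z 0 = Y0 ∧ ∀ t, HasDerivAt Z (F (Z t)) t := by
  have h' : ∀ n : ℕ, ∃ Z : ℝ → V, Z 0 = Y0 ∧
      ∀ t ∈ Ioo (-((n : ℝ) + 1)) ((n : ℝ) + 1), HasDerivAt Z (F (Z t)) t :=
    fun n => h _ (by positivity)
  choose Z hZ0 hZ using h'
  have key : ∀ m n : ℕ, ∀ t : ℝ, |t| < (m : ℝ) + 1 → |t| < (n : ℝ) + 1 → Z m t = Z n t := by
    intro m n t hm hn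
    rcases le_total m n with hmn | hmn
    · refine glue_unique (a := (m : ℝ) + 1) hF (hZ m) (fun s hs => hZ n s ?_)
        ((hZ0 m).trans (hZ0 n).symm) hm
      have : (m : ℝ) ≤ n := by exact_mod_cast hmn
      exact ⟨by linarith [hs.1], by linarith [hs.2]⟩
    · refine glue_unique (a := (n : ℝ) + 1) hF (fun s hs => hZ m s ?_) (hZ n)
        ((hZ0 m).trans (hZ0 n).symm) hn
      have : (n : ℝ) ≤ m := by exact_mod_cast hmn
      exact ⟨by linarith [hs.1], by linarith [hs.2]⟩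
  refine ⟨fun t => Z ⌊|t|⌋₊ t, hZ0 _, ?_⟩
  intro t
  have ht : |t| < ((⌊|t|⌋₊ : ℕ) : ℝ) + 1 := Nat.lt_floor_add_one _
  have hev : (fun s => Z ⌊|s|⌋₊ s) =ᶠ[𝓝 t] Z ⌊|t|⌋₊ := by
    have : ∀ᶠ s in 𝓝 t, |s| < ((⌊|t|⌋₊ : ℕ) : ℝ) + 1 :=
      (continuous_abs.continuousAt).eventually_lt continuousAt_const ht
    filter_upwards [this] with s hs
    exact key _ _ s (Nat.lt_floor_add_one _) hs
  exact (hZ ⌊|t|⌋₊ t (abs_lt.1 ht)).congr_of_eventuallyEq hev

end Pool.Agent.Helix
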