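import Pool.Agent.Helix.Pairs

/-!
# There is no growing mode
-/

set_option autoImplicit false

namespace Pool.Agent.Helix

open Set Filter Topology

variable {m : ℕ} {M : E m →L[ℝ] E m} {c : ℝ} {T P h Q : ℝ → E m}

/-- Time reversal. -/
theorem Sol.reverse (hs : Sol M c univ T P h Q) :
    Sol M c univ (fun t => T (-t)) (fun t => -P (-t)) (fun t => h (-t)) (fun t => -Q (-t)) := by
  have key : ∀ {f : ℝ → E m} {f' : E m} {t : ℝ}, HasDerivAt f f' (-t) →
      HasDerivAt (fun t => f (-t)) (-f') t := by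
    intro f f' t hf
    have h1 := hf.scomp t (hasDerivAt_neg t)
    rw [neg_one_smul] at h1
    exact h1
  refine ⟨fun t _ => ?_, fun t _ => ?_, fun t _ => ?_, fun t _ => ?_⟩
  · rw [map_neg]
    exact key (hs.dT (-t) (mem_univ _))
  · have h1 := (key (hs.dP (-t) (mem_univ _))).neg
    rw [neg_neg] at h1
    rw [norm_neg]
    exact h1
  · exact key (hs.dh (-t) (mem_univ _))
  · have h1 := (key (hs.dQ (-t) (mem_univ _))).neg
    rw [neg_neg] at h1
    exact h1

theorem Cons.reverse {T P h : E m} (hc : Cons T P h) : Cons T (-P) h := by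
  refine ⟨?_, ?_, ?_, hc.Th⟩
  · rw [norm_neg, hc.norm_eq]
  · rw [inner_neg_left, hc.PT, neg_zero]
  · rw [inner_neg_left, hc.Ph, neg_zero]

theorem Modes.reverse {B : E m →L[ℝ] E m} {S : Finset ℝ} {a b : ℝ → E m} {q r : E m}
    (hm : Modes B S a b q r) :
    Modes B (S.image fun μ => -μ) (fun μ => -a (-μ)) (fun μ => b (-μ)) (-q) r := by
  classical
  have hinj : Set.InjOn (fun μ : ℝ => -μ) S := neg_injective.injOn
  refine ⟨?_, ?_, ?_, ?_, ?_⟩
  · rw [Finset.sum_image hinj, ← hm.sum_a, ← Finset.sum_neg_distrib]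
    exact Finset.sum_congr rfl fun μ _ => by rw [neg_neg]
  · rw [Finset.sum_image hinj, ← hm.sum_b]
    exact Finset.sum_congr rfl fun μ _ => by rw [neg_neg]
  · intro μ' hμ'
    obtain ⟨μ, hμ, rfl⟩ := Finset.mem_image.1 hμ'
    simp only [neg_neg]
    rw [map_neg, hm.Ba μ hμ, neg_smul]
  · intro μ' hμ'
    obtain ⟨μ, hμ, rfl⟩ := Finset.mem_image.1 hμ'
    simp only [neg_neg]
    rw [hm.Bb μ hμ, neg_smul, smul_neg, neg_neg]
  · intro μ' hμ'
    obtain ⟨μ, hμ, rfl⟩ := Finset.mem_image.1 hμ'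
    simp only [neg_neg]
    rcases hm.ne μ hμ with h | h
    · exact Or.inl (neg_ne_zero.2 h)
    · exact Or.inr h

/-- The only mode is the mode `0`. -/
theorem modes_zero (hM : IsSim M c) (hs : Sol M c univ T P h Q)
    (hc : ∀ t, Cons (T t) (P t) (h t)) (hP : ∀ t, P t ≠ 0) {S : Finset ℝ} {a b : ℝ → E m}
    (hm : Modes (BB M c) S a b (Q 0) (NN M c (h 0))) : ∀ μ ∈ S, μ = 0 := by
  classical
  intro μ0 hμ0
  by_contra hne
  obtain ⟨μ1, hμ1, hmax⟩ := Finset.exists_max_image S (fun μ => |μ|) ⟨μ0, hμ0⟩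
  have hκ : 0 < |μ1| := (abs_pos.2 hne).trans_le (hmax μ0 hμ0)
  have hle : ∀ μ ∈ S, μ ≤ |μ1| := fun μ hμ => (le_abs_self μ).trans (hmax μ hμ)
  have hge : ∀ μ ∈ S, -|μ1| ≤ μ := fun μ hμ =>
    (neg_le_neg (hmax μ hμ)).trans (neg_abs_le μ)
  rcases le_total 0 μ1 with h1 | h1
  · have hκS : |μ1| ∈ S := by rwa [abs_of_nonneg h1]
    exact (scalarData hM hs hc hP hm hκ hκS hle hge).false
  · have hκS : |μ1| ∈ S.image fun μ => -μ := by
      rw [abs_of_nonpos h1]
      exact Finset.mem_image.2 ⟨μ1, hμ1, rfl⟩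
    have hm' : Modes (BB M c) (S.image fun μ => -μ) (fun μ => -a (-μ)) (fun μ => b (-μ))
        ((fun t => -Q (-t)) 0) (NN M c ((fun t => h (-t)) 0)) := by
      simp only [neg_zero]
      exact hm.reverse
    refine (scalarData hM hs.reverse (fun t => (hc (-t)).reverse)
      (fun t => neg_ne_zero.2 (hP (-t))) hm' hκ hκS ?_ ?_).false
    · intro μ' hμ'
      obtain ⟨μ, hμ, rfl⟩ := Finset.mem_image.1 hμ'
      linarith [hge μ hμ]
    · intro μ' hμ'
      obtain ⟨μ, hμ, rfl⟩ := Finset.mem_image.1 hμ'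
      linarith [hle μ hμ]

/-- `h` and `Q` take values in the kernel of `B`. -/
theorem B_zero (hM : IsSim M c) (hs : Sol M c univ T P h Q)
    (hc : ∀ t, Cons (T t) (P t) (h t)) (hP : ∀ t, P t ≠ 0) :
    ∀ t, BB M c (h t) = 0 ∧ BB M c (Q t) = 0 := by
  obtain ⟨S, a, b, hm⟩ := exists_modes (BB M c) hM.skew (Q 0) (NN M c (h 0))
  have h0 := modes_zero hM hs hc hP hm
  have hBa : ∀ μ ∈ S, BB M c (a μ) = 0 := fun μ hμ => by
    rw [hm.Ba μ hμ, h0 μ hμ, zero_smul]
  have hBb : ∀ μ ∈ S, BB M c (b μ) = 0 := fun μ hμ => by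
    rw [hm.Bb μ hμ, h0 μ hμ, zero_smul, neg_zero]
  intro t
  have hQ : BB M c (Q t) = 0 := by
    rw [Q_form hs hm t, map_sum]
    refine Finset.sum_eq_zero fun μ hμ => ?_
    unfold reM
    rw [map_smul, map_add, map_smul, map_smul, hBa μ hμ, hBb μ hμ, smul_zero, smul_zero,
      add_zero, smul_zero]
  have hN : BB M c (NN M c (h t)) = 0 := by
    rw [Nh_form hs hm t, map_sum]
    refine Finset.sum_eq_zero fun μ hμ => ?_
    unfold imM
    rw [map_smul, map_sub, map_smul, map_smul, hBa μ hμ, hBb μ hμ, smul_zero, smul_zero,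
      sub_zero, smul_zero]
  refine ⟨?_, hQ⟩
  have h1 : BB M c (BB M c (h t)) = c • BB M c (h t) := by
    rw [BB_NN_comm, NN_eq] at hN
    exact sub_eq_zero.1 hN
  have h2 : c * ‖BB M c (h t)‖ ^ 2 = 0 := by
    have h3 := hM.skew_self (BB M c (h t))
    rw [h1, inner_smul_left, real_inner_self_eq_norm_sq] at h3
    simpa using h3
  rcases mul_eq_zero.1 h2 with h3 | h3
  · have h4 := hM.skew (h t) (BB M c (h t))
    have h5 : BB M c (BB M c (h t)) = 0 := by rw [h1, h3, zero_smul]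
    rw [h5, inner_zero_right, neg_zero, real_inner_self_eq_norm_sq] at h4
    exact norm_eq_zero.1 (pow_eq_zero_iff (two_ne_zero)|>.1 h4)
  · exact norm_eq_zero.1 (pow_eq_zero_iff (two_ne_zero)|>.1 h3)

end Pool.Agent.Helix
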