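import Pool.Agent.Helix.ModeForm

/-!
# The leading term of `h`
-/

set_option autoImplicit false

namespace Pool.Agent.Helix

open Set Filter Topology

variable {m : ℕ} {M : E m →L[ℝ] E m} {c : ℝ} {T P h Q : ℝ → E m}

/-- In the eigenspace of a non-zero eigenvalue: `a` and `b` are orthogonal and of equal norm. -/
theorem mode_iso {B : E m →L[ℝ] E m} (hB : ∀ x y, inner ℝ (B x) y = - inner ℝ x (B y))
    {μ : ℝ} (hμ : μ ≠ 0) {a b : E m} (ha : B a = μ • b) (hb : B b = -(μ • a)) :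
    inner ℝ a b = 0 ∧ ‖a‖ ^ 2 = ‖b‖ ^ 2 := by
  have h1 := hB a a
  rw [ha, inner_smul_left, inner_smul_right, real_inner_comm b a] at h1
  simp only [conj_trivial] at h1
  have h1' : μ * inner ℝ a b = 0 := by
    rw [real_inner_comm b a]
    linarith
  have h2 : inner ℝ a b = 0 := by
    rcases mul_eq_zero.1 h1' with h | h
    · exact absurd h hμ
    · exact h
  refine ⟨h2, ?_⟩
  have h3 := hB a b
  rw [ha, hb, inner_smul_left, inner_neg_right, inner_smul_right, real_inner_self_eq_norm_sq,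
    real_inner_self_eq_norm_sq] at h3
  simp only [conj_trivial, neg_neg] at h3
  exact (mul_left_cancel₀ hμ h3).symm

private theorem ld_gap (κ : ℝ) (hκ : 0 < κ) (S : Finset ℝ) :
    (∀ μ ∈ S, μ < κ) → ∃ δ > 0, δ < κ ∧ ∀ μ ∈ S, δ ≤ κ - μ := by
  induction S using Finset.induction_on with
  | empty => intro _; exact ⟨κ / 2, by linarith, by linarith, by simp⟩
  | insert μ S _ ih =>
    intro h
    obtain ⟨δ, h1, h2, h3⟩ := ih (fun ν hν => h ν (Finset.mem_insert_of_mem hν))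
    have h4 := h μ (Finset.mem_insert_self _ _)
    refine ⟨min δ (κ - μ), lt_min h1 (by linarith), lt_of_le_of_lt (min_le_left _ _) h2, ?_⟩
    intro ν hν
    rcases Finset.mem_insert.1 hν with rfl | hν
    · exact min_le_right _ _
    · exact (min_le_left _ _).trans (h3 ν hν)

private theorem ld_norm (c μ : ℝ) (a b : E m) (t : ℝ) :
    ‖reM c μ a b t‖ ≤ (‖a‖ + ‖b‖) * Real.exp (μ * t) := by
  unfold reM
  rw [norm_smul, Real.norm_eq_abs, abs_of_pos (Real.exp_pos _), mul_comm]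
  refine mul_le_mul_of_nonneg_right ?_ (Real.exp_pos _).le
  refine (norm_add_le _ _).trans ?_
  rw [norm_smul, norm_smul, Real.norm_eq_abs, Real.norm_eq_abs]
  have h1 := mul_le_mul_of_nonneg_right (Real.abs_cos_le_one (c * t)) (norm_nonneg a)
  have h2 := mul_le_mul_of_nonneg_right (Real.abs_sin_le_one (c * t)) (norm_nonneg b)
  linarith

private theorem ld_int {f f' : ℝ → E m} {C k : ℝ} (hk : 0 < k) (hC : 0 ≤ C)
    (hder : ∀ s, HasDerivAt f (f' s) s) (hb : ∀ s, 0 ≤ s → ‖f' s‖ ≤ C * Real.exp (k * s)) :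
    ∀ t, 0 ≤ t → ‖f t‖ ≤ ‖f 0‖ + C / k * Real.exp (k * t) := by
  intro t ht
  have hB : ∀ s : ℝ, HasDerivAt (fun s : ℝ => ‖f 0‖ + C / k * Real.exp (k * s))
      (C * Real.exp (k * s)) s := by
    intro s
    have h0 : HasDerivAt (fun s : ℝ => Real.exp (k * s)) (Real.exp (k * s) * k) s := by
      have h := ((hasDerivAt_id s).const_mul k).exp
      simpa using h
    have h2 := (h0.const_mul (C / k)).const_add ‖f 0‖
    refine h2.congr_deriv ?_
    field_simp
  have h0 : ‖f 0‖ ≤ ‖f 0‖ + C / k * Real.exp (k * 0) := by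
    have h1 : 0 ≤ C / k * Real.exp (k * 0) :=
      mul_nonneg (div_nonneg hC hk.le) (Real.exp_pos _).le
    linarith
  have hcont : ContinuousOn f (Icc 0 t) := fun s _ => (hder s).continuousAt.continuousWithinAt
  have hright : ∀ s ∈ Ico (0 : ℝ) t, HasDerivWithinAt f (f' s) (Ici s) s :=
    fun s _ => (hder s).hasDerivWithinAt
  have hbd : ∀ s ∈ Ico (0 : ℝ) t, ‖f' s‖ ≤ C * Real.exp (k * s) := fun s hs => hb s hs.1
  exact image_norm_le_of_norm_deriv_right_le_deriv_boundary hcont hright h0 hB hbd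
    (right_mem_Icc.2 ht)

/-- The leading terms of `h` and `Q`: there are `a' , b'` (namely `a' + i b' =
(a κ + i b κ) / (κ - i c)`) such that `h = Re (exp ((κ - i c) t) (a' + i b')) + O(e^{(κ-δ)t})`
and `Q` is its derivative up to `O(e^{(κ-δ)t})`. -/
theorem h_lead (hs : Sol M c univ T P h Q) {S : Finset ℝ} {a b : ℝ → E m}
    (hm : Modes (BB M c) S a b (Q 0) (NN M c (h 0))) {κ : ℝ} (hκ : 0 < κ) (hκS : κ ∈ S)
    (hle : ∀ μ ∈ S, μ ≤ κ) :
    ∃ δ > 0, δ < κ ∧ ∃ C : ℝ, ∀ t ≥ 0,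
      ‖h t - reM c κ ((κ ^ 2 + c ^ 2)⁻¹ • (κ • a κ - c • b κ))
        ((κ ^ 2 + c ^ 2)⁻¹ • (κ • b κ + c • a κ)) t‖ ≤ C * Real.exp ((κ - δ) * t) ∧
      ‖Q t - reM c κ (a κ) (b κ) t‖ ≤ C * Real.exp ((κ - δ) * t) := by
  obtain ⟨δ, hδ, hδκ, hgap⟩ := ld_gap κ hκ (S.erase κ) (fun μ hμ =>
    lt_of_le_of_ne (hle μ (Finset.mem_of_mem_erase hμ)) (Finset.ne_of_mem_erase hμ))
  set C₁ : ℝ := ∑ μ ∈ S.erase κ, (‖a μ‖ + ‖b μ‖) with hC₁
  have hC₁0 : 0 ≤ C₁ := Finset.sum_nonneg fun μ _ => by positivity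
  set a' : E m := (κ ^ 2 + c ^ 2)⁻¹ • (κ • a κ - c • b κ) with ha'
  set b' : E m := (κ ^ 2 + c ^ 2)⁻¹ • (κ • b κ + c • a κ) with hb'
  have hk2 : κ ^ 2 + c ^ 2 ≠ 0 := by positivity
  have hQ : ∀ t, Q t - reM c κ (a κ) (b κ) t = ∑ μ ∈ S.erase κ, reM c μ (a μ) (b μ) t := by
    intro t
    rw [Q_form hs hm t, ← Finset.add_sum_erase S _ hκS]
    abel
  have hQn : ∀ t ≥ 0, ‖Q t - reM c κ (a κ) (b κ) t‖ ≤ C₁ * Real.exp ((κ - δ) * t) := by
    intro t ht
    rw [hQ t, hC₁, Finset.sum_mul]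
    refine norm_sum_le_of_le _ fun μ hμ => (ld_norm c μ (a μ) (b μ) t).trans ?_
    refine mul_le_mul_of_nonneg_left ?_ (by positivity)
    exact Real.exp_le_exp.2 (mul_le_mul_of_nonneg_right (by linarith [hgap μ hμ]) ht)
  -- derivative of the leading term
  have hlead : ∀ t, κ • reM c κ a' b' t + c • imM c κ a' b' t = reM c κ (a κ) (b κ) t := by
    intro t
    have e1 : κ • a' + c • b' = a κ := by
      rw [ha', hb', smul_comm κ, smul_comm c, ← smul_add]
      have : κ • (κ • a κ - c • b κ) + c • (κ • b κ + c • a κ) = (κ ^ 2 + c ^ 2) • a κ := by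
        module
      rw [this, inv_smul_smul₀ hk2]
    have e2 : κ • b' - c • a' = b κ := by
      rw [ha', hb', smul_comm κ, smul_comm c, ← smul_sub]
      have : κ • (κ • b κ + c • a κ) - c • (κ • a κ - c • b κ) = (κ ^ 2 + c ^ 2) • b κ := by
        module
      rw [this, inv_smul_smul₀ hk2]
    rw [← e1, ← e2]
    simp only [reM, imM]
    module
  set D : ℝ := ‖h 0 - reM c κ a' b' 0‖ with hD
  have hκδ : 0 < κ - δ := by linarith
  have hh : ∀ t ≥ 0, ‖h t - reM c κ a' b' t‖ ≤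
      D + C₁ / (κ - δ) * Real.exp ((κ - δ) * t) := by
    intro t ht
    have hder : ∀ s, HasDerivAt (fun s => h s - reM c κ a' b' s)
        (Q s - reM c κ (a κ) (b κ) s) s := by
      intro s
      have h1 := (hs.dh s (mem_univ s)).sub (reM_deriv c κ a' b' s)
      rw [hlead s] at h1
      exact h1
    exact ld_int (f := fun s => h s - reM c κ a' b' s)
      (f' := fun s => Q s - reM c κ (a κ) (b κ) s) hκδ hC₁0 hder hQn t ht
  refine ⟨δ, hδ, hδκ, max C₁ (D + C₁ / (κ - δ)), fun t ht => ⟨?_, ?_⟩⟩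
  · have h1 := hh t ht
    have h2 : 1 ≤ Real.exp ((κ - δ) * t) := Real.one_le_exp (by positivity)
    have hD0 : 0 ≤ D := norm_nonneg _
    have h3 : D ≤ D * Real.exp ((κ - δ) * t) := le_mul_of_one_le_right hD0 h2
    have h4 : (D + C₁ / (κ - δ)) * Real.exp ((κ - δ) * t) ≤
        max C₁ (D + C₁ / (κ - δ)) * Real.exp ((κ - δ) * t) :=
      mul_le_mul_of_nonneg_right (le_max_right _ _) (Real.exp_pos _).le
    rw [add_mul] at h4
    linarith
  · exact (hQn t ht).trans (mul_le_mul_of_nonneg_right (le_max_left _ _) (Real.exp_pos _).le)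

end Pool.Agent.Helix
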