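import Pool.Agent.Helix.Profile
import Pool.Agent.Helix.Growth
import Pool.Agent.Helix.EndNe
import Pool.Agent.Helix.Endgame
import Pool.Agent.Helix.GeoCurve

/-!
# Invariant biharmonic surfaces are minimal
-/

set_option autoImplicit false

namespace Pool.Agent.Helix

open Set Filter Topology
open scoped ContDiff

variable {m : ℕ} {M : E m →L[ℝ] E m} {c : ℝ}

/-- A constrained solution on the whole line has `h = 0`. -/
theorem global_h_zero (hM : IsSim M c) {T P h Q : ℝ → E m} (hs : Sol M c univ T P h Q)
    (hc : ∀ t, Cons (T t) (P t) (h t)) (hP : P 0 ≠ 0) : h 0 = 0 := by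
  have hP' : ∀ t, P t ≠ 0 := fun t => P_ne hs hc hP t
  have hB := B_zero hM hs hc hP'
  rcases eq_or_ne c 0 with h0 | h0
  · subst h0
    exact end_zero hM hs hc hP' hB
  · exact end_ne hM h0 hs hc hP' hB

/-- Chen's conjecture for surfaces invariant under a one-parameter group of similarities. -/
theorem surf_minimal {w : E m} {U : Set (E 2)} {f : E 2 → E m} (h : Surf M c w U f)
    (hbi : ∀ x ∈ U, laplaceBeltrami (inducedMetric f)
      (laplaceBeltrami (inducedMetric f) f) x = 0) :
    ∀ x ∈ U, laplaceBeltrami (inducedMetric f) f x = 0 := by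
  intro x hx
  obtain ⟨T, P, h', Q, r, hr, hs, hc, hP, hh⟩ := h.exists_germ hbi hx
  obtain ⟨T', P', h'', Q', h1, h2, h3, h4, hs', hc'⟩ := exists_profile hr hs hc
  rw [← hh, ← h3]
  exact global_h_zero h.sim hs' hc' (by rw [h2]; exact hP)

end Pool.Agent.Helix
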