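import Mathlib

/-!
# Mode decomposition for a skew-symmetric operator
-/

set_option autoImplicit false

namespace Pool.Agent.Helix

open Set Filter Topology

variable {m : ℕ}

/-- `q + i r = ∑ (a μ + i b μ)`, where `a μ + i b μ` is an eigenvector of `i B` with the real
eigenvalue `μ`. -/
structure Modes (B : EuclideanSpace ℝ (Fin m) →L[ℝ] EuclideanSpace ℝ (Fin m)) (S : Finset ℝ)
    (a b : ℝ → EuclideanSpace ℝ (Fin m)) (q r : EuclideanSpace ℝ (Fin m)) : Prop where
  sum_a : ∑ μ ∈ S, a μ = q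
  sum_b : ∑ μ ∈ S, b μ = r
  Ba : ∀ μ ∈ S, B (a μ) = μ • b μ
  Bb : ∀ μ ∈ S, B (b μ) = -(μ • a μ)
  ne : ∀ μ ∈ S, a μ ≠ 0 ∨ b μ ≠ 0

private noncomputable def spT (B : EuclideanSpace ℝ (Fin m) →L[ℝ] EuclideanSpace ℝ (Fin m)) :
    WithLp 2 (EuclideanSpace ℝ (Fin m) × EuclideanSpace ℝ (Fin m)) →ₗ[ℝ]
      WithLp 2 (EuclideanSpace ℝ (Fin m) × EuclideanSpace ℝ (Fin m)) :=
  (WithLp.linearEquiv 2 ℝ (EuclideanSpace ℝ (Fin m) ×
      EuclideanSpace ℝ (Fin m))).symm.toLinearMap ∘ₗ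
    (LinearMap.prod (-(B.toLinearMap ∘ₗ LinearMap.snd ℝ _ _))
      (B.toLinearMap ∘ₗ LinearMap.fst ℝ _ _)) ∘ₗ
    (WithLp.linearEquiv 2 ℝ (EuclideanSpace ℝ (Fin m) ×
      EuclideanSpace ℝ (Fin m))).toLinearMap

private theorem spT_fst (B : EuclideanSpace ℝ (Fin m) →L[ℝ] EuclideanSpace ℝ (Fin m))
    (x : WithLp 2 (EuclideanSpace ℝ (Fin m) × EuclideanSpace ℝ (Fin m))) :
    (spT B x).fst = -(B x.snd) := rfl

private theorem spT_snd (B : EuclideanSpace ℝ (Fin m) →L[ℝ] EuclideanSpace ℝ (Fin m))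
    (x : WithLp 2 (EuclideanSpace ℝ (Fin m) × EuclideanSpace ℝ (Fin m))) :
    (spT B x).snd = B x.fst := rfl

private theorem spT_symm (B : EuclideanSpace ℝ (Fin m) →L[ℝ] EuclideanSpace ℝ (Fin m))
    (hB : ∀ x y, inner ℝ (B x) y = - inner ℝ x (B y)) : (spT B).IsSymmetric := by
  intro x y
  have h1 : inner ℝ (spT B x) y = inner ℝ (spT B x).fst y.fst + inner ℝ (spT B x).snd y.snd := rfl
  have h2 : inner ℝ x (spT B y) = inner ℝ x.fst (spT B y).fst + inner ℝ x.snd (spT B y).snd := rfl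
  rw [h1, h2, spT_fst, spT_snd, spT_fst, spT_snd, inner_neg_left, inner_neg_right, hB, hB]
  ring

theorem exists_modes (B : EuclideanSpace ℝ (Fin m) →L[ℝ] EuclideanSpace ℝ (Fin m))
    (hB : ∀ x y, inner ℝ (B x) y = - inner ℝ x (B y)) (q r : EuclideanSpace ℝ (Fin m)) :
    ∃ (S : Finset ℝ) (a b : ℝ → EuclideanSpace ℝ (Fin m)), Modes B S a b q r := by
  classical
  have hT := spT_symm B hB
  set n := Module.finrank ℝ (WithLp 2 (EuclideanSpace ℝ (Fin m) × EuclideanSpace ℝ (Fin m)))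
    with hn
  set e := hT.eigenvectorBasis hn.symm with he
  set lam := hT.eigenvalues hn.symm with hlam
  set w : WithLp 2 (EuclideanSpace ℝ (Fin m) × EuclideanSpace ℝ (Fin m)) :=
    WithLp.toLp 2 (q, r) with hw
  set f : Fin n → WithLp 2 (EuclideanSpace ℝ (Fin m) × EuclideanSpace ℝ (Fin m)) :=
    fun i => e.repr w i • e i with hf
  set g : ℝ → WithLp 2 (EuclideanSpace ℝ (Fin m) × EuclideanSpace ℝ (Fin m)) :=
    fun μ => ∑ i with lam i = μ, f i with hg
  have hsum : ∑ i, f i = w := e.sum_repr w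
  have hTf : ∀ i, spT B (f i) = lam i • f i := by
    intro i
    have h1 := hT.apply_eigenvectorBasis hn.symm i
    simp only [hf]
    rw [map_smul, he, h1, smul_comm]
    rfl
  have hTg : ∀ μ, spT B (g μ) = μ • g μ := by
    intro μ
    simp only [hg]
    rw [map_sum, Finset.smul_sum]
    refine Finset.sum_congr rfl fun i hi => ?_
    rw [hTf i, (Finset.mem_filter.1 hi).2]
  have hgsum : ∑ μ ∈ (Finset.univ.image lam), g μ = w := by
    rw [← hsum]
    simp only [hg]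
    exact Finset.sum_fiberwise_of_maps_to (fun i _ => Finset.mem_image_of_mem _ (Finset.mem_univ i))
      f
  have hgsum' : ∑ μ ∈ (Finset.univ.image lam).filter (fun μ => g μ ≠ 0), g μ = w := by
    rw [Finset.sum_filter_ne_zero, hgsum]
  refine ⟨(Finset.univ.image lam).filter (fun μ => g μ ≠ 0), fun μ => (g μ).fst,
    fun μ => (g μ).snd, ?_, ?_, ?_, ?_, ?_⟩
  · have h1 := congrArg (WithLp.linearEquiv 2 ℝ (EuclideanSpace ℝ (Fin m) ×
      EuclideanSpace ℝ (Fin m))) hgsum'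
    rw [map_sum] at h1
    have h2 := congrArg Prod.fst h1
    rw [Prod.fst_sum] at h2
    exact h2
  · have h1 := congrArg (WithLp.linearEquiv 2 ℝ (EuclideanSpace ℝ (Fin m) ×
      EuclideanSpace ℝ (Fin m))) hgsum'
    rw [map_sum] at h1
    have h2 := congrArg Prod.snd h1
    rw [Prod.snd_sum] at h2
    exact h2
  · intro μ _
    have h1 := congrArg (fun x => WithLp.snd x) (hTg μ)
    simp only [spT_snd, WithLp.smul_snd] at h1
    exact h1
  · intro μ _
    have h1 := congrArg (fun x => WithLp.fst x) (hTg μ)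
    simp only [spT_fst, WithLp.smul_fst] at h1
    rw [← h1, neg_neg]
  · intro μ hμ
    have h1 := (Finset.mem_filter.1 hμ).2
    by_contra hcon
    push Not at hcon
    apply h1
    apply WithLp.ofLp_injective 2
    exact Prod.ext hcon.1 hcon.2

end Pool.Agent.Helix
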