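import Pool.Agent.Helix.Algebra
import Pool.Agent.Helix.Spectral

/-!
# The field `Q + i N h` as a sum of exponentials
-/

set_option autoImplicit false

namespace Pool.Agent.Helix

open Set Filter Topology

variable {m : ℕ}

/-- Real part of `exp ((μ - i c) t) (a + i b)`. -/
noncomputable def reM (c μ : ℝ) (a b : E m) (t : ℝ) : E m :=
  Real.exp (μ * t) • (Real.cos (c * t) • a + Real.sin (c * t) • b)

/-- Imaginary part of `exp ((μ - i c) t) (a + i b)`. -/
noncomputable def imM (c μ : ℝ) (a b : E m) (t : ℝ) : E m :=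
  Real.exp (μ * t) • (Real.cos (c * t) • b - Real.sin (c * t) • a)

theorem reM_deriv (c μ : ℝ) (a b : E m) (t : ℝ) :
    HasDerivAt (reM c μ a b) (μ • reM c μ a b t + c • imM c μ a b t) t := by
  have h1 : HasDerivAt (fun t : ℝ => Real.exp (μ * t)) (μ * Real.exp (μ * t)) t := by
    have h := ((hasDerivAt_id t).const_mul μ).exp
    simpa [mul_comm] using h
  have h2 : HasDerivAt (fun t : ℝ => Real.cos (c * t)) (-(c * Real.sin (c * t))) t := by
    have h := ((hasDerivAt_id t).const_mul c).cos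
    simpa [mul_comm] using h
  have h3 : HasDerivAt (fun t : ℝ => Real.sin (c * t)) (c * Real.cos (c * t)) t := by
    have h := ((hasDerivAt_id t).const_mul c).sin
    simpa [mul_comm] using h
  have h4 := h1.smul ((h2.smul_const a).add (h3.smul_const b))
  refine h4.congr_deriv ?_
  simp only [reM, imM, Pi.add_apply]
  module

theorem imM_deriv (c μ : ℝ) (a b : E m) (t : ℝ) :
    HasDerivAt (imM c μ a b) (μ • imM c μ a b t - c • reM c μ a b t) t := by
  have h1 : HasDerivAt (fun t : ℝ => Real.exp (μ * t)) (μ * Real.exp (μ * t)) t := by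
    have h := ((hasDerivAt_id t).const_mul μ).exp
    simpa [mul_comm] using h
  have h2 : HasDerivAt (fun t : ℝ => Real.cos (c * t)) (-(c * Real.sin (c * t))) t := by
    have h := ((hasDerivAt_id t).const_mul c).cos
    simpa [mul_comm] using h
  have h3 : HasDerivAt (fun t : ℝ => Real.sin (c * t)) (c * Real.cos (c * t)) t := by
    have h := ((hasDerivAt_id t).const_mul c).sin
    simpa [mul_comm] using h
  have h4 := h1.smul ((h2.smul_const b).sub (h3.smul_const a))
  refine h4.congr_deriv ?_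
  simp only [reM, imM, Pi.sub_apply]
  module

variable {M : E m →L[ℝ] E m} {c : ℝ} {T P h Q : ℝ → E m}

private theorem mf_N_re {S : Finset ℝ} {a b : ℝ → E m} {q r : E m}
    (hm : Modes (BB M c) S a b q r) {μ : ℝ} (hμ : μ ∈ S) (t : ℝ) :
    NN M c (reM c μ (a μ) (b μ) t) =
      μ • imM c μ (a μ) (b μ) t - c • reM c μ (a μ) (b μ) t := by
  rw [NN_eq]
  congr 1
  simp only [reM, imM]
  rw [map_smul, map_add, map_smul, map_smul, hm.Ba μ hμ, hm.Bb μ hμ]
  module

private theorem mf_N_im {S : Finset ℝ} {a b : ℝ → E m} {q r : E m}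
    (hm : Modes (BB M c) S a b q r) {μ : ℝ} (hμ : μ ∈ S) (t : ℝ) :
    NN M c (imM c μ (a μ) (b μ) t) =
      -(μ • reM c μ (a μ) (b μ) t + c • imM c μ (a μ) (b μ) t) := by
  rw [NN_eq]
  simp only [reM, imM]
  rw [map_smul, map_sub, map_smul, map_smul, hm.Ba μ hμ, hm.Bb μ hμ]
  module

private theorem mf_both (hs : Sol M c univ T P h Q) {S : Finset ℝ} {a b : ℝ → E m}
    (hm : Modes (BB M c) S a b (Q 0) (NN M c (h 0))) :
    (fun t => (Q t, NN M c (h t))) =
      fun t => (∑ μ ∈ S, reM c μ (a μ) (b μ) t, ∑ μ ∈ S, imM c μ (a μ) (b μ) t) := by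
  set A : E m × E m →L[ℝ] E m × E m :=
    (-(NN M c).comp (ContinuousLinearMap.snd ℝ (E m) (E m))).prod
      ((NN M c).comp (ContinuousLinearMap.fst ℝ (E m) (E m))) with hA
  have hAx : ∀ x : E m × E m, A x = (-(NN M c x.2), NN M c x.1) := fun x => rfl
  refine ODE_solution_unique_univ (v := fun _ x => A x) (s := fun _ => univ) (K := ‖A‖₊)
    (t₀ := 0) (fun t => (A.lipschitz).lipschitzOnWith) ?_ ?_ ?_
  · intro t
    refine ⟨?_, mem_univ _⟩
    have h1 := hs.dQ t (mem_univ t)
    have h2 : HasDerivAt (fun t => NN M c (h t)) (NN M c (Q t)) t :=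
      (NN M c).hasFDerivAt.comp_hasDerivAt t (hs.dh t (mem_univ t))
    exact h1.prodMk h2
  · intro t
    refine ⟨?_, mem_univ _⟩
    have h1 : HasDerivAt (fun t => ∑ μ ∈ S, reM c μ (a μ) (b μ) t)
        (-(NN M c (∑ μ ∈ S, imM c μ (a μ) (b μ) t))) t := by
      have h3 := HasDerivAt.fun_sum (u := S) (fun μ _ => reM_deriv c μ (a μ) (b μ) t)
      refine h3.congr_deriv ?_
      rw [map_sum, ← Finset.sum_neg_distrib]
      refine Finset.sum_congr rfl fun μ hμ => ?_
      rw [mf_N_im hm hμ, neg_neg]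
    have h2 : HasDerivAt (fun t => ∑ μ ∈ S, imM c μ (a μ) (b μ) t)
        (NN M c (∑ μ ∈ S, reM c μ (a μ) (b μ) t)) t := by
      have h3 := HasDerivAt.fun_sum (u := S) (fun μ _ => imM_deriv c μ (a μ) (b μ) t)
      refine h3.congr_deriv ?_
      rw [map_sum]
      refine Finset.sum_congr rfl fun μ hμ => ?_
      rw [mf_N_re hm hμ]
    exact h1.prodMk h2
  · have h1 : ∀ μ, reM c μ (a μ) (b μ) 0 = a μ := by
      intro μ
      simp [reM]
    have h2 : ∀ μ, imM c μ (a μ) (b μ) 0 = b μ := by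
      intro μ
      simp [imM]
    simp only [h1, h2]
    rw [hm.sum_a, hm.sum_b]

/-- `Q` is the real part of a sum of exponentials. -/
theorem Q_form (hs : Sol M c univ T P h Q) {S : Finset ℝ} {a b : ℝ → E m}
    (hm : Modes (BB M c) S a b (Q 0) (NN M c (h 0))) (t : ℝ) :
    Q t = ∑ μ ∈ S, reM c μ (a μ) (b μ) t :=
  congrArg Prod.fst (congrFun (mf_both hs hm) t)

/-- `N h` is the imaginary part of the same sum of exponentials. -/
theorem Nh_form (hs : Sol M c univ T P h Q) {S : Finset ℝ} {a b : ℝ → E m}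
    (hm : Modes (BB M c) S a b (Q 0) (NN M c (h 0))) (t : ℝ) :
    NN M c (h t) = ∑ μ ∈ S, imM c μ (a μ) (b μ) t :=
  congrArg Prod.snd (congrFun (mf_both hs hm) t)

end Pool.Agent.Helix
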