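import Pool.Agent.Helix.ModeForm

/-!
# Complex pairings
-/

set_option autoImplicit false

namespace Pool.Agent.Helix

open Set Filter Topology

variable {m : ℕ}

/-- `(P - i T) · (a + i b)`. -/
noncomputable def pr (T P a b : E m) : ℂ :=
  ⟨inner ℝ P a + inner ℝ T b, inner ℝ P b - inner ℝ T a⟩

/-- `h · (a + i b)`. -/
noncomputable def gr (h a b : E m) : ℂ := ⟨inner ℝ h a, inner ℝ h b⟩

private theorem PairAlg_exp (c μ t : ℝ) : Complex.exp (((μ : ℂ) - c * Complex.I) * t) =
    ⟨Real.exp (μ * t) * Real.cos (c * t), -(Real.exp (μ * t) * Real.sin (c * t))⟩ := by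
  have h1 : (((μ : ℂ) - c * Complex.I) * t).re = μ * t := by simp
  have h2 : (((μ : ℂ) - c * Complex.I) * t).im = -(c * t) := by simp
  apply Complex.ext
  · rw [Complex.exp_re, h1, h2, Real.cos_neg]
  · rw [Complex.exp_im, h1, h2, Real.sin_neg, mul_neg]

theorem pr_mode (T P a b : E m) (c μ t : ℝ) :
    pr T P (reM c μ a b t) (imM c μ a b t) =
      Complex.exp (((μ : ℂ) - c * Complex.I) * t) * pr T P a b := by
  rw [PairAlg_exp]
  unfold pr reM imM
  apply Complex.ext
  · simp only [Complex.mul_re, inner_smul_right, inner_add_right, inner_sub_right]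
    ring
  · simp only [Complex.mul_im, inner_smul_right, inner_add_right, inner_sub_right]
    ring

theorem gr_mode (h a b : E m) (c μ t : ℝ) :
    gr h (reM c μ a b t) (imM c μ a b t) =
      Complex.exp (((μ : ℂ) - c * Complex.I) * t) * gr h a b := by
  rw [PairAlg_exp]
  unfold gr reM imM
  apply Complex.ext
  · simp only [Complex.mul_re, inner_smul_right, inner_add_right, inner_sub_right]
    ring
  · simp only [Complex.mul_im, inner_smul_right, inner_add_right, inner_sub_right]
    ring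

theorem pr_sum {ι : Type*} (T P : E m) (S : Finset ι) (a b : ι → E m) :
    pr T P (∑ i ∈ S, a i) (∑ i ∈ S, b i) = ∑ i ∈ S, pr T P (a i) (b i) := by
  unfold pr
  apply Complex.ext
  · rw [Complex.re_sum]
    simp only [inner_sum]
    rw [← Finset.sum_add_distrib]
  · rw [Complex.im_sum]
    simp only [inner_sum]
    rw [← Finset.sum_sub_distrib]

theorem gr_sum {ι : Type*} (h : E m) (S : Finset ι) (a b : ι → E m) :
    gr h (∑ i ∈ S, a i) (∑ i ∈ S, b i) = ∑ i ∈ S, gr h (a i) (b i) := by
  unfold gr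
  apply Complex.ext
  · rw [Complex.re_sum]
    simp only [inner_sum]
  · rw [Complex.im_sum]
    simp only [inner_sum]

theorem pr_norm {T P a b : E m} (hTP : ‖P‖ ^ 2 = ‖T‖ ^ 2) :
    ‖pr T P a b‖ ≤ 2 * (‖a‖ + ‖b‖) * Real.sqrt (‖P‖ ^ 2) := by
  have hT : ‖T‖ = ‖P‖ := by
    have := (pow_left_inj₀ (norm_nonneg P) (norm_nonneg T) two_ne_zero).1 hTP
    exact this.symm
  rw [Real.sqrt_sq (norm_nonneg _)]
  refine (Complex.norm_le_abs_re_add_abs_im _).trans ?_
  unfold pr
  simp only
  have h1 := abs_real_inner_le_norm P a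
  have h2 := abs_real_inner_le_norm T b
  have h3 := abs_real_inner_le_norm P b
  have h4 := abs_real_inner_le_norm T a
  have h5 : |inner ℝ P a + inner ℝ T b| ≤ |inner ℝ P a| + |inner ℝ T b| := abs_add_le _ _
  have h6 : |inner ℝ P b - inner ℝ T a| ≤ |inner ℝ P b| + |inner ℝ T a| := abs_sub _ _
  rw [hT] at h2 h4
  nlinarith

theorem gr_norm (h a b : E m) : ‖gr h a b‖ ≤ (‖a‖ + ‖b‖) * Real.sqrt (‖h‖ ^ 2) := by
  rw [Real.sqrt_sq (norm_nonneg _)]
  refine (Complex.norm_le_abs_re_add_abs_im _).trans ?_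
  unfold gr
  simp only
  have h1 := abs_real_inner_le_norm h a
  have h2 := abs_real_inner_le_norm h b
  nlinarith

variable {M : E m →L[ℝ] E m} {c : ℝ} {T P h Q : ℝ → E m}

theorem pr_deriv (hM : IsSim M c) (hs : Sol M c univ T P h Q) {a b : E m} {μ : ℝ}
    (ha : BB M c a = μ • b) (hb : BB M c b = -(μ • a)) (t : ℝ) :
    HasDerivAt (fun t => pr (T t) (P t) a b)
      (((μ : ℂ) - c * Complex.I) * pr (T t) (P t) a b +
        ((‖P t‖ ^ 2 : ℝ) : ℂ) * gr (h t) a b) t := by
  have dT := hs.dT t (mem_univ t)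
  have dP := hs.dP t (mem_univ t)
  have hNa : NN M c a = μ • b - c • a := by rw [NN_eq, ha]
  have hNb : NN M c b = -(μ • a) - c • b := by rw [NN_eq, hb]
  have key : ∀ (x y : E m), HasDerivAt (fun t => inner ℝ (P t) x + inner ℝ (T t) y)
      (inner ℝ (T t) (NN M c x) + ‖P t‖ ^ 2 * inner ℝ (h t) x - inner ℝ (P t) (NN M c y)) t := by
    intro x y
    have h1 := dP.inner ℝ (hasDerivAt_const t x)
    have h2 := dT.inner ℝ (hasDerivAt_const t y)
    refine (h1.add h2).congr_deriv ?_
    rw [inner_zero_right, inner_zero_right, inner_add_left, inner_neg_left, hM.inner_left,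
      hM.inner_left, inner_smul_left]
    simp only [conj_trivial]
    ring
  have k1 := key a b
  have k2 := key b (-a)
  have e1 : (fun t => pr (T t) (P t) a b) = fun t =>
      (((inner ℝ (P t) a + inner ℝ (T t) b : ℝ)) : ℂ) +
      (((inner ℝ (P t) b + inner ℝ (T t) (-a) : ℝ)) : ℂ) * Complex.I := by
    funext t
    unfold pr
    apply Complex.ext
    · simp
    · simp [inner_neg_right, sub_eq_add_neg]
  rw [e1]
  refine (k1.ofReal_comp.add (k2.ofReal_comp.mul_const Complex.I)).congr_deriv ?_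
  rw [map_neg, hNa, hNb]
  unfold pr gr
  apply Complex.ext
  · simp [inner_neg_right, inner_sub_right, inner_smul_right]
    ring
  · simp [inner_neg_right, inner_sub_right, inner_smul_right]
    ring

end Pool.Agent.Helix
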