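import Pool.Agent.Helix.Pass1

/-!
# Second pass: contradiction
-/

set_option autoImplicit false

namespace Pool.Agent.Helix

open Set Filter Topology

variable {c κ : ℝ} {S : Finset ℝ} {lam s s' : ℝ → ℝ} {p g : ℝ → ℝ → ℂ}

/-- The components `p μ` decay faster than `exp (-κ t)`. -/
theorem ScalarData.p_decay (d : ScalarData c κ S lam s s' p g) :
    ∃ δ > 0, ∃ C ≥ 0, ∃ t1 ≥ 0, ∀ t ≥ t1, ∀ μ ∈ S,
      ‖p μ t‖ ≤ C * Real.exp (-((κ + δ) * t)) := by
  obtain ⟨δ, hδ, C, hC, t1, ht1, hy⟩ := d.y_decay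
  obtain ⟨A, hA, δ1, hδ1, C1, hC1, t2, ht2, hs⟩ := d.s_low
  obtain ⟨C0, hC0⟩ := d.pbd
  have hm0 : 0 ≤ max C0 0 := le_max_right _ _
  refine ⟨δ / 2, by positivity, max C0 0 * Real.sqrt (C / A), by positivity, max t1 t2,
    le_max_of_le_left ht1, fun t ht μ hμ => ?_⟩
  have h1 := hy t (le_trans (le_max_left _ _) ht)
  have h2 := (hs t (le_trans (le_max_right _ _) ht)).1
  have hl := d.lam_pos t
  have h3 : lam t ≤ C / A * Real.exp (-((2 * κ + δ) * t)) := by
    have h4 : lam t * (A * Real.exp (2 * κ * t)) ≤ C * Real.exp (-(δ * t)) :=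
      (mul_le_mul_of_nonneg_left h2 hl.le).trans h1
    have h5 : Real.exp (-(δ * t)) = Real.exp (-((2 * κ + δ) * t)) * Real.exp (2 * κ * t) := by
      rw [← Real.exp_add]
      ring_nf
    rw [h5] at h4
    rw [div_mul_eq_mul_div, le_div_iff₀ hA]
    have h7 : lam t * A * Real.exp (2 * κ * t) ≤
        C * Real.exp (-((2 * κ + δ) * t)) * Real.exp (2 * κ * t) := by linarith
    exact le_of_mul_le_mul_right h7 (Real.exp_pos _)
  have h8 : Real.sqrt (lam t) ≤ Real.sqrt (C / A) * Real.exp (-((κ + δ / 2) * t)) := by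
    have h9 : Real.exp (-((2 * κ + δ) * t)) = (Real.exp (-((κ + δ / 2) * t))) ^ 2 := by
      rw [← Real.exp_nat_mul]
      congr 1
      push_cast
      ring
    calc Real.sqrt (lam t) ≤ Real.sqrt (C / A * Real.exp (-((2 * κ + δ) * t))) :=
          Real.sqrt_le_sqrt h3
      _ = Real.sqrt (C / A) * Real.sqrt (Real.exp (-((2 * κ + δ) * t))) :=
          Real.sqrt_mul (by positivity) _
      _ = _ := by rw [h9, Real.sqrt_sq (Real.exp_pos _).le]
  calc ‖p μ t‖ ≤ C0 * Real.sqrt (lam t) := hC0 μ hμ t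
    _ ≤ max C0 0 * Real.sqrt (lam t) :=
        mul_le_mul_of_nonneg_right (le_max_left _ _) (Real.sqrt_nonneg _)
    _ ≤ max C0 0 * (Real.sqrt (C / A) * Real.exp (-((κ + δ / 2) * t))) :=
        mul_le_mul_of_nonneg_left h8 hm0
    _ = _ := by ring

private theorem exists_gap (κ : ℝ) (S : Finset ℝ) (h : ∀ μ ∈ S, μ < κ) :
    ∃ ε > 0, ∀ μ ∈ S, ε ≤ κ - μ := by
  classical
  induction S using Finset.induction_on with
  | empty => exact ⟨1, one_pos, by simp⟩
  | insert a s ha ih =>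
    obtain ⟨ε, hε, h1⟩ := ih (fun μ hμ => h μ (Finset.mem_insert_of_mem hμ))
    refine ⟨min ε (κ - a), lt_min hε (sub_pos.2 (h a (Finset.mem_insert_self _ _))),
      fun μ hμ => ?_⟩
    rcases Finset.mem_insert.1 hμ with rfl | hμ
    · exact min_le_right _ _
    · exact (min_le_left _ _).trans (h1 μ hμ)

private theorem norm_mode (c μ t : ℝ) :
    ‖Complex.exp (((μ : ℂ) - c * Complex.I) * t)‖ = Real.exp (μ * t) := by
  rw [Complex.norm_exp]
  congr 1
  simp

private theorem tendsto_exp_neg {r : ℝ} (hr : 0 < r) (C : ℝ) :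
    Tendsto (fun t : ℝ => C * Real.exp (-(r * t))) atTop (𝓝 0) := by
  have h1 : Tendsto (fun t : ℝ => r * t) atTop atTop := tendsto_id.const_mul_atTop hr
  have h2 : Tendsto (fun t : ℝ => Real.exp (-(r * t))) atTop (𝓝 0) :=
    Real.tendsto_exp_neg_atTop_nhds_zero.comp h1
  simpa using h2.const_mul C

/-- The self-improving estimate: if `y ≤ Y exp (-δ' τ)` for all `τ ≥ t`, then
`y τ ≤ C exp (-ε t) Y exp (-δ' τ)` for all `τ ≥ t`. -/
theorem ScalarData.improve (d : ScalarData c κ S lam s s' p g) :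
    ∃ δ' > 0, ∃ ε > 0, ∃ C ≥ 0, ∃ t1 ≥ 0,
      (∃ Y, ∀ τ ≥ t1, lam τ * s τ ≤ Y * Real.exp (-(δ' * τ))) ∧
      ∀ t ≥ t1, ∀ Y ≥ 0, (∀ τ ≥ t, lam τ * s τ ≤ Y * Real.exp (-(δ' * τ))) →
        ∀ τ ≥ t, lam τ * s τ ≤ C * Real.exp (-(ε * t)) * Y * Real.exp (-(δ' * τ)) := by
  obtain ⟨δ0, hδ0, Cy, hCy, t1, ht1, hy⟩ := d.y_decay
  obtain ⟨A, hA, δ1, hδ1, C1, hC1, t2, ht2, hs⟩ := d.s_low
  obtain ⟨δp, hδp, Cp, hCp, t3, ht3, hp⟩ := d.p_decay
  obtain ⟨Cg, hCg⟩ := d.gbd
  have hlt : ∀ μ ∈ S.erase κ, μ < κ := fun μ hμ =>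
    lt_of_le_of_ne (d.le μ (Finset.mem_of_mem_erase hμ)) (Finset.ne_of_mem_erase hμ)
  obtain ⟨ε0, hε0, hgap⟩ := exists_gap κ (S.erase κ) hlt
  have hκ := d.pos
  set ε : ℝ := min δ1 ε0 with hε
  have hεpos : 0 < ε := lt_min hδ1 hε0
  have hεδ : ε ≤ δ1 := min_le_left _ _
  have hεg : ∀ μ ∈ S.erase κ, ε ≤ κ - μ := fun μ hμ => (min_le_right _ _).trans (hgap μ hμ)
  have hm0 : 0 ≤ max Cg 0 := le_max_right _ _
  set G : ℝ := max Cg 0 / Real.sqrt A with hG
  have hG0 : 0 ≤ G := by positivity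
  have hsA : 0 < Real.sqrt A := Real.sqrt_pos.2 hA
  set R : ℝ := C1 / 2 + 2 * ((S.erase κ).card * (2 * κ * (G / δ0))) with hR
  have hR0 : 0 ≤ R := by positivity
  refine ⟨δ0, hδ0, ε, hεpos, R / (κ + (ε + δ0)), by positivity, max t1 (max t2 t3),
    le_max_of_le_left ht1, ⟨Cy, fun τ hτ => hy τ (le_trans (le_max_left _ _) hτ)⟩,
    fun t ht Y hY hyY τ hτ => ?_⟩
  have htt2 : t2 ≤ t := le_trans (le_trans (le_max_left _ _) (le_max_right _ _)) ht
  have htt3 : t3 ≤ t := le_trans (le_trans (le_max_right _ _) (le_max_right _ _)) ht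
  have ht0 : 0 ≤ t := ht2.trans htt2
  -- the components
  have hpm : ∀ μ ∈ S, ∀ τ ≥ t, ‖p μ τ‖ ≤ G * Y / δ0 * Real.exp (-((κ + δ0) * τ)) := by
    intro μ hμ
    have hge := d.ge μ hμ
    have hGb : ∀ τ ≥ t, ‖(lam τ : ℂ) * g μ τ‖ ≤ G * Y * Real.exp (-((κ + δ0) * τ)) := by
      intro τ hτ
      have hl := d.lam_pos τ
      have h1 := (hs τ (htt2.trans hτ)).1
      have h2 : Real.sqrt A * Real.exp (κ * τ) ≤ Real.sqrt (s τ) := by
        have h3 : Real.exp (2 * κ * τ) = Real.exp (κ * τ) ^ 2 := by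
          rw [← Real.exp_nat_mul]
          congr 1
          push_cast
          ring
        have h4 : Real.sqrt (A * Real.exp (2 * κ * τ)) ≤ Real.sqrt (s τ) := Real.sqrt_le_sqrt h1
        rwa [Real.sqrt_mul hA.le, h3, Real.sqrt_sq (Real.exp_pos _).le] at h4
      have h5 : lam τ * Real.sqrt (s τ) * (Real.sqrt A * Real.exp (κ * τ)) ≤
          Y * Real.exp (-(δ0 * τ)) := by
        calc lam τ * Real.sqrt (s τ) * (Real.sqrt A * Real.exp (κ * τ))
            ≤ lam τ * Real.sqrt (s τ) * Real.sqrt (s τ) :=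
              mul_le_mul_of_nonneg_left h2 (mul_nonneg hl.le (Real.sqrt_nonneg _))
          _ = lam τ * s τ := by rw [mul_assoc, Real.mul_self_sqrt (d.s_nonneg τ)]
          _ ≤ _ := hyY τ hτ
      have h6 : Real.exp (-(δ0 * τ)) = Real.exp (-((κ + δ0) * τ)) * Real.exp (κ * τ) := by
        rw [← Real.exp_add]
        ring_nf
      have h7 : lam τ * Real.sqrt (s τ) ≤ Y / Real.sqrt A * Real.exp (-((κ + δ0) * τ)) := by
        rw [div_mul_eq_mul_div, le_div_iff₀ hsA]
        rw [h6] at h5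
        have h8 : lam τ * Real.sqrt (s τ) * Real.sqrt A * Real.exp (κ * τ) ≤
            Y * Real.exp (-((κ + δ0) * τ)) * Real.exp (κ * τ) := by linarith
        exact le_of_mul_le_mul_right h8 (Real.exp_pos _)
      rw [norm_mul, Complex.norm_real, Real.norm_eq_abs, abs_of_pos hl]
      calc lam τ * ‖g μ τ‖ ≤ lam τ * (max Cg 0 * Real.sqrt (s τ)) := by
            refine mul_le_mul_of_nonneg_left ((hCg μ hμ τ).trans ?_) hl.le
            exact mul_le_mul_of_nonneg_right (le_max_left _ _) (Real.sqrt_nonneg _)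
        _ = max Cg 0 * (lam τ * Real.sqrt (s τ)) := by ring
        _ ≤ max Cg 0 * (Y / Real.sqrt A * Real.exp (-((κ + δ0) * τ))) :=
            mul_le_mul_of_nonneg_left h7 hm0
        _ = _ := by rw [hG]; ring
    have hre : ((μ : ℂ) - c * Complex.I).re = μ := by simp
    have hlim : Tendsto (fun t => Real.exp (-(((μ : ℂ) - c * Complex.I).re * t)) * ‖p μ t‖)
        atTop (𝓝 0) := by
      rw [hre]
      have h1 := tendsto_exp_neg (r := κ + δp + μ) (by linarith) Cp
      refine squeeze_zero' (Eventually.of_forall fun t => by positivity) ?_ h1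
      filter_upwards [eventually_ge_atTop t3] with t ht
      have h2 := hp t ht μ hμ
      calc Real.exp (-(μ * t)) * ‖p μ t‖
          ≤ Real.exp (-(μ * t)) * (Cp * Real.exp (-((κ + δp) * t))) :=
            mul_le_mul_of_nonneg_left h2 (Real.exp_pos _).le
        _ = Cp * (Real.exp (-(μ * t)) * Real.exp (-((κ + δp) * t))) := by ring
        _ = _ := by
          rw [← Real.exp_add]
          ring_nf
    have hdm := decay_mode (p := p μ) (G := fun τ => (lam τ : ℂ) * g μ τ)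
      (ν := (μ : ℂ) - c * Complex.I) (t0 := t) (r := κ + δ0) (Y := G * Y)
      (by rw [hre]; linarith) (by positivity) (fun τ _ => d.dp μ hμ τ) hGb hlim
    intro τ hτ
    refine (hdm τ hτ).trans ?_
    refine mul_le_mul_of_nonneg_right ?_ (Real.exp_pos _).le
    rw [hre]
    exact div_le_div_of_nonneg_left (by positivity) hδ0 (by linarith)
  -- the error term
  have hd : ∀ τ ≥ t, HasDerivAt (fun t => lam t * s t) (κ * (lam τ * s τ) +
      (-(lam τ * (s' τ - 2 * κ * s τ)) / 2 + 2 * (∑ μ ∈ S.erase κ, ((κ - μ : ℝ) : ℂ) *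
        (Complex.exp (((μ : ℂ) - c * Complex.I) * τ) * p μ τ)).re)) τ := by
    intro τ _
    have h1 := d.dy τ
    convert h1 using 1
    ring
  have he : ∀ τ ≥ t, |-(lam τ * (s' τ - 2 * κ * s τ)) / 2 + 2 * (∑ μ ∈ S.erase κ,
      ((κ - μ : ℝ) : ℂ) * (Complex.exp (((μ : ℂ) - c * Complex.I) * τ) * p μ τ)).re| ≤
      R * Y * Real.exp (-((ε + δ0) * τ)) := by
    intro τ hτ
    have hτ0 : 0 ≤ τ := ht0.trans hτ
    have hl := d.lam_pos τ
    have hX : 0 < Real.exp (-((ε + δ0) * τ)) := Real.exp_pos _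
    have h1 : |-(lam τ * (s' τ - 2 * κ * s τ)) / 2| ≤
        C1 / 2 * Y * Real.exp (-((ε + δ0) * τ)) := by
      have h2 := (hs τ (htt2.trans hτ)).2
      have h3 : Real.exp (-(δ1 * τ)) ≤ Real.exp (-(ε * τ)) := by
        refine Real.exp_le_exp.2 (neg_le_neg (mul_le_mul_of_nonneg_right hεδ hτ0))
      rw [abs_div, abs_neg, abs_mul, abs_of_pos hl, abs_of_pos (two_pos : (0 : ℝ) < 2),
        div_le_iff₀ two_pos]
      calc lam τ * |s' τ - 2 * κ * s τ|
          ≤ lam τ * (C1 * Real.exp (-(δ1 * τ)) * s τ) := mul_le_mul_of_nonneg_left h2 hl.le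
        _ = C1 * Real.exp (-(δ1 * τ)) * (lam τ * s τ) := by ring
        _ ≤ C1 * Real.exp (-(ε * τ)) * (Y * Real.exp (-(δ0 * τ))) := by
            refine mul_le_mul (mul_le_mul_of_nonneg_left h3 hC1) (hyY τ hτ)
              (mul_nonneg hl.le (d.s_nonneg τ)) (by positivity)
        _ = C1 * Y * (Real.exp (-(ε * τ)) * Real.exp (-(δ0 * τ))) := by ring
        _ = C1 / 2 * Y * Real.exp (-((ε + δ0) * τ)) * 2 := by
            rw [← Real.exp_add]
            ring_nf
    have h4 : |(∑ μ ∈ S.erase κ, ((κ - μ : ℝ) : ℂ) *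
        (Complex.exp (((μ : ℂ) - c * Complex.I) * τ) * p μ τ)).re| ≤
        (S.erase κ).card * (2 * κ * (G / δ0)) * Y * Real.exp (-((ε + δ0) * τ)) := by
      refine (Complex.abs_re_le_norm _).trans ((norm_sum_le _ _).trans ?_)
      have h5 : ∀ μ ∈ S.erase κ, ‖((κ - μ : ℝ) : ℂ) *
          (Complex.exp (((μ : ℂ) - c * Complex.I) * τ) * p μ τ)‖ ≤
          2 * κ * (G / δ0) * Y * Real.exp (-((ε + δ0) * τ)) := by
        intro μ hμ
        have hμS := Finset.mem_of_mem_erase hμ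
        have h6 := hlt μ hμ
        have h7 := d.ge μ hμS
        have h8 := hpm μ hμS τ hτ
        rw [norm_mul, norm_mul, norm_mode, Complex.norm_real, Real.norm_eq_abs,
          abs_of_pos (by linarith : 0 < κ - μ)]
        have h9 : Real.exp (μ * τ) * Real.exp (-((κ + δ0) * τ)) ≤
            Real.exp (-((ε + δ0) * τ)) := by
          rw [← Real.exp_add]
          refine Real.exp_le_exp.2 ?_
          have := mul_le_mul_of_nonneg_right (hεg μ hμ) hτ0
          linarith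
        calc (κ - μ) * (Real.exp (μ * τ) * ‖p μ τ‖)
            ≤ (2 * κ) * (Real.exp (μ * τ) * (G * Y / δ0 * Real.exp (-((κ + δ0) * τ)))) := by
              refine mul_le_mul (by linarith)
                (mul_le_mul_of_nonneg_left h8 (Real.exp_pos _).le) (by positivity) (by positivity)
          _ = 2 * κ * (G / δ0) * Y * (Real.exp (μ * τ) * Real.exp (-((κ + δ0) * τ))) := by ring
          _ ≤ _ := mul_le_mul_of_nonneg_left h9 (by positivity)
      refine (Finset.sum_le_sum h5).trans ?_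
      rw [Finset.sum_const, nsmul_eq_mul]
      exact le_of_eq (by ring)
    calc _ ≤ |-(lam τ * (s' τ - 2 * κ * s τ)) / 2| + |2 * (∑ μ ∈ S.erase κ, ((κ - μ : ℝ) : ℂ) *
          (Complex.exp (((μ : ℂ) - c * Complex.I) * τ) * p μ τ)).re| := abs_add_le _ _
      _ ≤ C1 / 2 * Y * Real.exp (-((ε + δ0) * τ)) + 2 * ((S.erase κ).card *
          (2 * κ * (G / δ0)) * Y * Real.exp (-((ε + δ0) * τ))) := by
            rw [abs_mul, abs_of_pos (two_pos : (0 : ℝ) < 2)]
            linarith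
      _ = _ := by rw [hR]; ring
  have hfin := decay_unstable (y := fun t => lam t * s t) (t0 := t) (κ := κ) (r := ε + δ0)
    (Y := R * Y) (C := Y) hκ (by linarith) (by positivity) hd he (fun τ hτ => by
      rw [abs_of_nonneg (mul_nonneg (d.lam_pos τ).le (d.s_nonneg τ))]
      refine (hyY τ hτ).trans ?_
      refine mul_le_of_le_one_right hY ?_
      rw [← Real.exp_zero]
      exact Real.exp_le_exp.2 (by nlinarith [ht0.trans hτ])) τ hτ
  have h1 := (le_abs_self _).trans hfin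
  refine h1.trans ?_
  have h2 : Real.exp (-((ε + δ0) * τ)) ≤ Real.exp (-(ε * t)) * Real.exp (-(δ0 * τ)) := by
    rw [← Real.exp_add]
    refine Real.exp_le_exp.2 ?_
    have := mul_le_mul_of_nonneg_left hτ hεpos.le
    linarith
  calc R * Y / (κ + (ε + δ0)) * Real.exp (-((ε + δ0) * τ))
      ≤ R * Y / (κ + (ε + δ0)) * (Real.exp (-(ε * t)) * Real.exp (-(δ0 * τ))) :=
        mul_le_mul_of_nonneg_left h2 (by positivity)
    _ = _ := by ring

/-- The scalar system has no solution. -/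
theorem ScalarData.false (d : ScalarData c κ S lam s s' p g) : False := by
  obtain ⟨δ', hδ', ε, hε, C, hC, t1, ht1, ⟨Y0, hY0⟩, himp⟩ := d.improve
  obtain ⟨A, hA, δ1, hδ1, C1, hC1, t2, ht2, hs⟩ := d.s_low
  have hlim := tendsto_exp_neg hε C
  obtain ⟨t, ht, htt1, htt2⟩ : ∃ t, C * Real.exp (-(ε * t)) ≤ 1 / 2 ∧ t1 ≤ t ∧ t2 ≤ t := by
    have h1 : ∀ᶠ t in atTop, C * Real.exp (-(ε * t)) ≤ 1 / 2 :=
      (hlim.eventually_lt_const (by norm_num)).mono fun t h => h.le
    exact (h1.and ((eventually_ge_atTop t1).and (eventually_ge_atTop t2))).exists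
  have hY1 : 0 ≤ max Y0 0 := le_max_right _ _
  have hind : ∀ n : ℕ, ∀ τ ≥ t, lam τ * s τ ≤ (1 / 2) ^ n * max Y0 0 * Real.exp (-(δ' * τ)) := by
    intro n
    induction n with
    | zero =>
      intro τ hτ
      rw [pow_zero, one_mul]
      exact (hY0 τ (htt1.trans hτ)).trans
        (mul_le_mul_of_nonneg_right (le_max_left _ _) (Real.exp_pos _).le)
    | succ n ih =>
      intro τ hτ
      refine (himp t htt1 _ (by positivity) ih τ hτ).trans ?_
      refine mul_le_mul_of_nonneg_right ?_ (Real.exp_pos _).le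
      rw [pow_succ, mul_comm ((1 / 2 : ℝ) ^ n) (1 / 2), mul_assoc (1 / 2 : ℝ)]
      exact mul_le_mul_of_nonneg_right ht (by positivity)
  have h1 : lam t * s t ≤ 0 := by
    have h2 : Tendsto (fun n : ℕ => (1 / 2 : ℝ) ^ n * max Y0 0 * Real.exp (-(δ' * t))) atTop
        (𝓝 (0 * max Y0 0 * Real.exp (-(δ' * t)))) :=
      ((tendsto_pow_atTop_nhds_zero_of_lt_one (by norm_num) (by norm_num)).mul_const _).mul_const _
    rw [zero_mul, zero_mul] at h2
    exact ge_of_tendsto' h2 fun n => hind n t le_rfl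
  have h2 := (hs t htt2).1
  have h3 : 0 < A * Real.exp (2 * κ * t) := by positivity
  have h4 := mul_pos (d.lam_pos t) (h3.trans_le h2)
  linarith

end Pool.Agent.Helix
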