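import Pool.Agent.Helix.Asymp
import Pool.Agent.Helix.Pass2
import Pool.Agent.Helix.PairAlg

/-!
# The scalar system of a constrained profile
-/

set_option autoImplicit false

namespace Pool.Agent.Helix

open Set Filter Topology

variable {m : ℕ} {M : E m →L[ℝ] E m} {c : ℝ} {T P h Q : ℝ → E m}

/-- The scalar data of a constrained profile whose largest mode (in absolute value) is a
growing one. -/
theorem scalarData (hM : IsSim M c) (hs : Sol M c univ T P h Q)
    (hc : ∀ t, Cons (T t) (P t) (h t)) (hP : ∀ t, P t ≠ 0) {S : Finset ℝ} {a b : ℝ → E m}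
    (hm : Modes (BB M c) S a b (Q 0) (NN M c (h 0))) {κ : ℝ} (hκ : 0 < κ) (hκS : κ ∈ S)
    (hle : ∀ μ ∈ S, μ ≤ κ) (hge : ∀ μ ∈ S, -κ ≤ μ) :
    ScalarData c κ S (fun t => ‖P t‖ ^ 2) (fun t => ‖h t‖ ^ 2)
      (fun t => 2 * inner ℝ (h t) (Q t)) (fun μ t => pr (T t) (P t) (a μ) (b μ))
      (fun μ t => gr (h t) (a μ) (b μ)) := by
  have hc' : ∀ t ∈ (univ : Set ℝ), Cons (T t) (P t) (h t) := fun t _ => hc t
  refine
    { mem := hκS
      pos := hκ
      le := hle
      ge := hge
      lam_pos := fun t => by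
        have := norm_pos_iff.2 (hP t)
        positivity
      s_nonneg := fun t => by positivity
      ds := fun t => (hs.dh t (mem_univ t)).norm_sq
      dp := fun μ hμ t => pr_deriv hM hs (hm.Ba μ hμ) (hm.Bb μ hμ) t
      sum := ?_
      sumg := ?_
      pbd := ?_
      gbd := ?_
      asym := h_asymp hM hs hm hκ hκS hle }
  · intro t
    have e : ∀ μ ∈ S, Complex.exp (((μ : ℂ) - c * Complex.I) * t) * pr (T t) (P t) (a μ) (b μ) =
        pr (T t) (P t) (reM c μ (a μ) (b μ) t) (imM c μ (a μ) (b μ) t) :=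
      fun μ _ => (pr_mode (T t) (P t) (a μ) (b μ) c μ t).symm
    rw [Finset.sum_congr rfl e, ← pr_sum, ← Q_form hs hm t, ← Nh_form hs hm t]
    have h5 := c5 hM isOpen_univ hs hc' (mem_univ t)
    have h6 := c6 hM isOpen_univ hs hc' (mem_univ t)
    unfold pr
    apply Complex.ext
    · simp only [Complex.ofReal_re, Complex.neg_re]
      linarith
    · simp only [Complex.ofReal_im, Complex.neg_im]
      linarith
  · intro t
    have e : ∀ μ ∈ S, Complex.exp (((μ : ℂ) - c * Complex.I) * t) * gr (h t) (a μ) (b μ) =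
        gr (h t) (reM c μ (a μ) (b μ) t) (imM c μ (a μ) (b μ) t) :=
      fun μ _ => (gr_mode (h t) (a μ) (b μ) c μ t).symm
    rw [Finset.sum_congr rfl e, ← gr_sum, ← Q_form hs hm t, ← Nh_form hs hm t]
    unfold gr
    simp only
    ring
  · refine ⟨∑ μ ∈ S, 2 * (‖a μ‖ + ‖b μ‖), fun μ hμ t => ?_⟩
    refine (pr_norm (hc t).norm_eq).trans ?_
    refine mul_le_mul_of_nonneg_right ?_ (Real.sqrt_nonneg _)
    exact Finset.single_le_sum (f := fun μ => 2 * (‖a μ‖ + ‖b μ‖))
      (fun i _ => by positivity) hμ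
  · refine ⟨∑ μ ∈ S, (‖a μ‖ + ‖b μ‖), fun μ hμ t => ?_⟩
    refine (gr_norm (h t) (a μ) (b μ)).trans ?_
    refine mul_le_mul_of_nonneg_right ?_ (Real.sqrt_nonneg _)
    exact Finset.single_le_sum (f := fun μ => (‖a μ‖ + ‖b μ‖))
      (fun i _ => by positivity) hμ

end Pool.Agent.Helix
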