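import Pool.Agent.Helix.ScalarDefs

/-!
# First pass: `y = lam s` decays exponentially
-/

set_option autoImplicit false

namespace Pool.Agent.Helix

open Set Filter Topology

variable {c κ : ℝ} {S : Finset ℝ} {lam s s' : ℝ → ℝ} {p g : ℝ → ℝ → ℂ}

private theorem Pass1_exp_norm (c μ t : ℝ) :
    ‖Complex.exp (((μ : ℂ) - c * Complex.I) * t)‖ = Real.exp (μ * t) := by
  rw [Complex.norm_exp]
  congr 1
  simp

private theorem Pass1_y_nonneg (d : ScalarData c κ S lam s s' p g) (t : ℝ) : 0 ≤ lam t * s t :=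
  mul_nonneg (d.lam_pos t).le (d.s_nonneg t)

private theorem Pass1_y_le (d : ScalarData c κ S lam s s' p g) (t : ℝ) :
    lam t * s t ≤ ∑ μ ∈ S, Real.exp (μ * t) * ‖p μ t‖ := by
  have h1 : ‖((lam t * s t : ℝ) : ℂ)‖ = lam t * s t := by
    rw [Complex.norm_real, Real.norm_eq_abs, abs_of_nonneg (Pass1_y_nonneg d t)]
  rw [← h1, d.sum t, norm_neg]
  refine (norm_sum_le _ _).trans (le_of_eq ?_)
  refine Finset.sum_congr rfl fun μ _ => ?_
  rw [norm_mul, Pass1_exp_norm]

/-- `y` is bounded. -/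
theorem ScalarData.y_bdd (d : ScalarData c κ S lam s s' p g) :
    ∃ C ≥ 0, ∃ t1 ≥ 0, ∀ t ≥ t1, lam t * s t ≤ C := by
  obtain ⟨C0, hC0⟩ := d.pbd
  obtain ⟨A, hA, δ, hδ, C1, hC1, t1, ht1, h⟩ := d.s_low
  set C : ℝ := max C0 0 with hCdef
  have hC : 0 ≤ C := le_max_right _ _
  set K : ℝ := S.card * C with hK
  have hK0 : 0 ≤ K := by positivity
  refine ⟨K ^ 2 / A, by positivity, t1, ht1, fun t ht => ?_⟩
  have ht0 : 0 ≤ t := le_trans ht1 ht
  have hy0 := Pass1_y_nonneg d t
  have hlam := d.lam_pos t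
  have h1 : lam t * s t ≤ K * Real.exp (κ * t) * Real.sqrt (lam t) := by
    refine (Pass1_y_le d t).trans ?_
    calc ∑ μ ∈ S, Real.exp (μ * t) * ‖p μ t‖
        ≤ ∑ μ ∈ S, Real.exp (κ * t) * (C * Real.sqrt (lam t)) := by
          refine Finset.sum_le_sum fun μ hμ => ?_
          refine mul_le_mul ?_ ?_ (norm_nonneg _) (Real.exp_pos _).le
          · exact Real.exp_le_exp.mpr (mul_le_mul_of_nonneg_right (d.le μ hμ) ht0)
          · exact (hC0 μ hμ t).trans
              (mul_le_mul_of_nonneg_right (le_max_left _ _) (Real.sqrt_nonneg _))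
      _ = K * Real.exp (κ * t) * Real.sqrt (lam t) := by
          rw [Finset.sum_const, nsmul_eq_mul, hK]
          ring
  have h2 : (lam t * s t) ^ 2 ≤ K ^ 2 * Real.exp (2 * κ * t) * lam t := by
    refine (pow_le_pow_left₀ hy0 h1 2).trans (le_of_eq ?_)
    rw [mul_pow, mul_pow, Real.sq_sqrt hlam.le, ← Real.exp_nat_mul]
    congr 3
    push_cast
    ring
  have h3 := (h t ht).1
  rw [le_div_iff₀ hA]
  rcases hy0.lt_or_eq with hy | hy
  · have h4 : (lam t * s t) * (lam t * s t * A) ≤ (lam t * s t) * K ^ 2 := by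
      calc (lam t * s t) * (lam t * s t * A) = (lam t * s t) ^ 2 * A := by ring
        _ ≤ K ^ 2 * Real.exp (2 * κ * t) * lam t * A := mul_le_mul_of_nonneg_right h2 hA.le
        _ = K ^ 2 * lam t * (A * Real.exp (2 * κ * t)) := by ring
        _ ≤ K ^ 2 * lam t * s t := mul_le_mul_of_nonneg_left h3 (by positivity)
        _ = (lam t * s t) * K ^ 2 := by ring
    exact le_of_mul_le_mul_left h4 hy
  · rw [← hy, zero_mul]
    positivity

/-- The components `p μ` are `O(exp (-κ t))`. -/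
theorem ScalarData.p_bdd (d : ScalarData c κ S lam s s' p g) :
    ∃ C ≥ 0, ∃ t1 ≥ 0, ∀ t ≥ t1, ∀ μ ∈ S, ‖p μ t‖ ≤ C * Real.exp (-(κ * t)) := by
  obtain ⟨C0, hC0⟩ := d.pbd
  obtain ⟨A, hA, δ, hδ, C1, hC1, t1, ht1, h⟩ := d.s_low
  obtain ⟨C2, hC2, t2, ht2, h2⟩ := d.y_bdd
  set C : ℝ := max C0 0 with hCdef
  have hC : 0 ≤ C := le_max_right _ _
  refine ⟨C * Real.sqrt (C2 / A), by positivity, max t1 t2, le_trans ht1 (le_max_left _ _),
    fun t ht μ hμ => ?_⟩
  have ht1' : t ≥ t1 := le_trans (le_max_left _ _) ht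
  have ht2' : t ≥ t2 := le_trans (le_max_right _ _) ht
  have hlam := d.lam_pos t
  have h3 := (h t ht1').1
  have h4 := h2 t ht2'
  have h5 : lam t ≤ (Real.sqrt (C2 / A) * Real.exp (-(κ * t))) ^ 2 := by
    rw [mul_pow, Real.sq_sqrt (by positivity), ← Real.exp_nat_mul]
    have e1 : ((2 : ℕ) : ℝ) * -(κ * t) = -(2 * κ * t) := by
      push_cast
      ring
    rw [e1, Real.exp_neg]
    have hE := Real.exp_pos (2 * κ * t)
    have h6 : lam t * (A * Real.exp (2 * κ * t)) ≤ C2 :=
      (mul_le_mul_of_nonneg_left h3 hlam.le).trans h4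
    have h7 : C2 / A * (Real.exp (2 * κ * t))⁻¹ = C2 / (A * Real.exp (2 * κ * t)) := by
      field_simp
    rw [h7, le_div_iff₀ (by positivity)]
    exact h6
  have h8 : Real.sqrt (lam t) ≤ Real.sqrt (C2 / A) * Real.exp (-(κ * t)) := by
    rw [← Real.sqrt_sq (show 0 ≤ Real.sqrt (C2 / A) * Real.exp (-(κ * t)) by positivity)]
    exact Real.sqrt_le_sqrt h5
  calc ‖p μ t‖ ≤ C0 * Real.sqrt (lam t) := hC0 μ hμ t
    _ ≤ C * Real.sqrt (lam t) := mul_le_mul_of_nonneg_right (le_max_left _ _) (Real.sqrt_nonneg _)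
    _ ≤ C * (Real.sqrt (C2 / A) * Real.exp (-(κ * t))) := mul_le_mul_of_nonneg_left h8 hC
    _ = C * Real.sqrt (C2 / A) * Real.exp (-(κ * t)) := by ring

private theorem Pass1_gap (S : Finset ℝ) (κ : ℝ) (h : ∀ μ ∈ S, μ ≤ κ) :
    ∃ δ > 0, ∀ μ ∈ S.erase κ, μ + δ ≤ κ := by
  rcases (S.erase κ).eq_empty_or_nonempty with he | hne
  · exact ⟨1, one_pos, fun μ hμ => by rw [he] at hμ; exact absurd hμ (Finset.notMem_empty μ)⟩
  · obtain ⟨m, hm, hmax⟩ := Finset.exists_max_image (S.erase κ) (fun μ => μ) hne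
    refine ⟨κ - m, ?_, fun μ hμ => ?_⟩
    · have h1 := h m (Finset.mem_of_mem_erase hm)
      have h2 := Finset.ne_of_mem_erase hm
      have : m < κ := lt_of_le_of_ne h1 h2
      linarith
    · have := hmax μ hμ
      linarith

/-- `y` decays exponentially. -/
theorem ScalarData.y_decay (d : ScalarData c κ S lam s s' p g) :
    ∃ δ > 0, ∃ C ≥ 0, ∃ t1 ≥ 0, ∀ t ≥ t1, lam t * s t ≤ C * Real.exp (-(δ * t)) := by
  obtain ⟨A, hA, δ1, hδ1, C1, hC1, t1, ht1, h⟩ := d.s_low
  obtain ⟨C2, hC2, t2, ht2, h2⟩ := d.y_bdd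
  obtain ⟨C3, hC3, t3, ht3, h3⟩ := d.p_bdd
  obtain ⟨δ2, hδ2, hgap⟩ := Pass1_gap S κ d.le
  have hκ := d.pos
  set r : ℝ := min δ1 δ2 with hr
  have hr0 : 0 < r := lt_min hδ1 hδ2
  set t0 : ℝ := max t1 (max t2 t3) with ht0def
  have ht01 : t1 ≤ t0 := le_max_left _ _
  have ht02 : t2 ≤ t0 := (le_max_left _ _).trans (le_max_right _ _)
  have ht03 : t3 ≤ t0 := (le_max_right _ _).trans (le_max_right _ _)
  have ht0 : 0 ≤ t0 := le_trans ht1 ht01
  set Y : ℝ := C1 * C2 / 2 + 2 * (S.card * (2 * κ * C3)) with hY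
  have hY0 : 0 ≤ Y := by positivity
  set e : ℝ → ℝ := fun t => -(lam t * (s' t - 2 * κ * s t) / 2) +
    2 * (∑ μ ∈ S.erase κ, ((κ - μ : ℝ) : ℂ) *
          (Complex.exp (((μ : ℂ) - c * Complex.I) * t) * p μ t)).re with he
  have hd : ∀ t ≥ t0, HasDerivAt (fun t => lam t * s t) (κ * (lam t * s t) + e t) t := by
    intro t _
    have := d.dy t
    convert this using 1
    simp only [he]
    ring
  have hb : ∀ t ≥ t0, |e t| ≤ Y * Real.exp (-(r * t)) := by
    intro t ht
    have htt : 0 ≤ t := le_trans ht0 ht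
    have hlam := d.lam_pos t
    have a1 := (h t (le_trans ht01 ht)).2
    have a2 := h2 t (le_trans ht02 ht)
    have a3 := h3 t (le_trans ht03 ht)
    have b1 : |-(lam t * (s' t - 2 * κ * s t) / 2)| ≤ C1 * C2 / 2 * Real.exp (-(r * t)) := by
      rw [abs_neg, abs_div, abs_mul, abs_of_pos hlam, abs_two]
      have c1 : lam t * |s' t - 2 * κ * s t| ≤ lam t * (C1 * Real.exp (-(δ1 * t)) * s t) :=
        mul_le_mul_of_nonneg_left a1 hlam.le
      have c2 : lam t * (C1 * Real.exp (-(δ1 * t)) * s t) =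
          C1 * Real.exp (-(δ1 * t)) * (lam t * s t) := by ring
      have c3 : C1 * Real.exp (-(δ1 * t)) * (lam t * s t) ≤ C1 * Real.exp (-(δ1 * t)) * C2 :=
        mul_le_mul_of_nonneg_left a2 (by positivity)
      have c4 : Real.exp (-(δ1 * t)) ≤ Real.exp (-(r * t)) := by
        apply Real.exp_le_exp.mpr
        have : r * t ≤ δ1 * t := mul_le_mul_of_nonneg_right (min_le_left _ _) htt
        linarith
      have c5 : C1 * Real.exp (-(δ1 * t)) * C2 ≤ C1 * C2 * Real.exp (-(r * t)) := by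
        have := mul_le_mul_of_nonneg_left c4 (show 0 ≤ C1 * C2 by positivity)
        linarith
      linarith
    have b2 : |2 * (∑ μ ∈ S.erase κ, ((κ - μ : ℝ) : ℂ) *
          (Complex.exp (((μ : ℂ) - c * Complex.I) * t) * p μ t)).re| ≤
          2 * (S.card * (2 * κ * C3)) * Real.exp (-(r * t)) := by
      rw [abs_mul, abs_two, mul_assoc]
      refine mul_le_mul_of_nonneg_left ?_ (by norm_num)
      refine (Complex.abs_re_le_norm _).trans ((norm_sum_le _ _).trans ?_)
      calc ∑ μ ∈ S.erase κ, ‖((κ - μ : ℝ) : ℂ) *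
          (Complex.exp (((μ : ℂ) - c * Complex.I) * t) * p μ t)‖
          ≤ ∑ μ ∈ S.erase κ, 2 * κ * C3 * Real.exp (-(r * t)) := by
            refine Finset.sum_le_sum fun μ hμ => ?_
            have hμS := Finset.mem_of_mem_erase hμ
            have g1 := hgap μ hμ
            have g2 := d.ge μ hμS
            rw [norm_mul, norm_mul, Pass1_exp_norm, Complex.norm_real, Real.norm_eq_abs,
              abs_of_nonneg (by linarith)]
            have g3 : Real.exp (μ * t) * ‖p μ t‖ ≤ C3 * Real.exp (-(r * t)) := by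
              calc Real.exp (μ * t) * ‖p μ t‖ ≤ Real.exp (μ * t) * (C3 * Real.exp (-(κ * t))) :=
                    mul_le_mul_of_nonneg_left (a3 μ hμS) (Real.exp_pos _).le
                _ = C3 * Real.exp (μ * t + -(κ * t)) := by
                    rw [Real.exp_add]
                    ring
                _ ≤ C3 * Real.exp (-(r * t)) := by
                    refine mul_le_mul_of_nonneg_left ?_ hC3
                    apply Real.exp_le_exp.mpr
                    have k1 : r ≤ δ2 := min_le_right _ _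
                    have k2 : (κ - μ) * t ≥ r * t :=
                      mul_le_mul_of_nonneg_right (by linarith) htt
                    linarith
            have g4 : κ - μ ≤ 2 * κ := by linarith
            calc (κ - μ) * (Real.exp (μ * t) * ‖p μ t‖)
                ≤ (2 * κ) * (C3 * Real.exp (-(r * t))) :=
                  mul_le_mul g4 g3 (by positivity) (by linarith)
              _ = 2 * κ * C3 * Real.exp (-(r * t)) := by ring
        _ = (S.erase κ).card * (2 * κ * C3 * Real.exp (-(r * t))) := by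
            rw [Finset.sum_const, nsmul_eq_mul]
        _ ≤ S.card * (2 * κ * C3 * Real.exp (-(r * t))) := by
            refine mul_le_mul_of_nonneg_right ?_ (by positivity)
            exact_mod_cast Finset.card_le_card (Finset.erase_subset _ _)
        _ = S.card * (2 * κ * C3) * Real.exp (-(r * t)) := by ring
    simp only [he]
    refine (abs_add_le _ _).trans ((add_le_add b1 b2).trans (le_of_eq ?_))
    rw [hY]
    ring
  have hy : ∀ t ≥ t0, |lam t * s t| ≤ C2 := by
    intro t ht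
    rw [abs_of_nonneg (Pass1_y_nonneg d t)]
    exact h2 t (le_trans ht02 ht)
  have key := decay_unstable (y := fun t => lam t * s t) (e := e) (t0 := t0) hκ
    (by linarith : 0 < κ + r) hY0 hd hb hy
  refine ⟨r, hr0, Y / (κ + r), by positivity, t0, ht0, fun t ht => ?_⟩
  exact (le_abs_self _).trans (key t ht)

end Pool.Agent.Helix
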