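import Pool.Agent.Helix.PolyFun

/-!
# The identity theorem for polynomial ordinary differential equations
-/

set_option autoImplicit false

namespace Pool.Agent.Helix

open Set Filter Topology

variable {V : Type*} [NormedAddCommGroup V] [NormedSpace ℝ V]

private theorem pid_deriv {g : V → ℝ} (hg : g ∈ polyFun V) {F : V → V} {Z : ℝ → V} {t : ℝ}
    (hZ : HasDerivAt Z (F (Z t)) t) :
    HasDerivAt (fun s => g (Z s)) (fderiv ℝ g (Z t) (F (Z t))) t := by
  have h1 : DifferentiableAt ℝ g (Z t) :=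
    ((polyFun_contDiff hg).differentiable (by simp)).differentiableAt
  exact h1.hasFDerivAt.comp_hasDerivAt t hZ

/-- The ideal of polynomial functions vanishing along the germ of `Y` at zero. -/
private def pidIdeal (Y : ℝ → V) : Ideal (polyFun V) where
  carrier := {g | ∀ᶠ t in 𝓝 (0 : ℝ), (g : V → ℝ) (Y t) = 0}
  add_mem' := by
    intro a b ha hb
    filter_upwards [ha, hb] with t h1 h2
    change (a : V → ℝ) (Y t) + (b : V → ℝ) (Y t) = 0
    rw [h1, h2, add_zero]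
  zero_mem' := Eventually.of_forall fun t => rfl
  smul_mem' := by
    intro c x hx
    filter_upwards [hx] with t h1
    change (c : V → ℝ) (Y t) * (x : V → ℝ) (Y t) = 0
    rw [h1, mul_zero]

/-- If a polynomial function vanishes along a germ of an integral curve of a polynomial vector
field, then it vanishes along every integral curve with the same initial value. -/
theorem poly_ident [FiniteDimensional ℝ V] {F : V → V} (hF : IsPolyField F)
    {Y : ℝ → V} (hY : ∀ᶠ t in 𝓝 (0 : ℝ), HasDerivAt Y (F (Y t)) t)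
    {Z : ℝ → V} {a b : ℝ} (ha : a < 0) (hb : 0 < b)
    (hZ : ∀ t ∈ Ioo a b, HasDerivAt Z (F (Z t)) t) (hZ0 : Z 0 = Y 0)
    {g : V → ℝ} (hg : g ∈ polyFun V) (hgY : ∀ᶠ t in 𝓝 (0 : ℝ), g (Y t) = 0) :
    ∀ t ∈ Ioo a b, g (Z t) = 0 := by
  have := polyFun_noetherian (V := V)
  obtain ⟨n, s, hs⟩ := Submodule.fg_iff_exists_fin_generating_family.mp
    ((isNoetherianRing_iff_ideal_fg _).mp this (pidIdeal Y))
  have hsI : ∀ i, s i ∈ pidIdeal Y := fun i => by
    rw [← hs]; exact Submodule.subset_span ⟨i, rfl⟩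
  -- the derivative along the field
  let X : polyFun V → polyFun V := fun f => ⟨fun x => fderiv ℝ (f : V → ℝ) x (F x),
    polyFun_fderiv hF f.2⟩
  have hX : ∀ f ∈ pidIdeal Y, X f ∈ pidIdeal Y := by
    intro f hf
    have hf' : ∀ᶠ t in 𝓝 (0 : ℝ), (f : V → ℝ) (Y t) = 0 := hf
    change ∀ᶠ t in 𝓝 (0 : ℝ), fderiv ℝ (f : V → ℝ) (Y t) (F (Y t)) = 0
    filter_upwards [hf'.eventually_nhds, hY] with t h1 h2
    have h3 := pid_deriv f.2 h2
    have h4 : HasDerivAt (fun s => (f : V → ℝ) (Y s)) 0 t :=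
      (hasDerivAt_const t (0 : ℝ)).congr_of_eventuallyEq h1
    exact h3.unique h4
  have hcoef : ∀ i, ∃ c : Fin n → polyFun V, ∑ j, c j * s j = X (s i) := fun i => by
    have h1 := hX _ (hsI i)
    rw [← hs] at h1
    exact Ideal.mem_span_range_iff_exists_fun.mp h1
  choose c hc using hcoef
  have happ : ∀ (f : Fin n → polyFun V) (h : polyFun V), ∑ j, f j * s j = h → ∀ x : V,
      (h : V → ℝ) x = ∑ j, (f j : V → ℝ) x * (s j : V → ℝ) x := by
    intro f h hfh x
    rw [← hfh]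
    rw [AddSubmonoidClass.coe_finsetSum, Finset.sum_apply]
    rfl
  intro t₁ ht₁
  obtain ⟨a', ha'1, ha'2⟩ := exists_between (lt_min ha ht₁.1)
  obtain ⟨b', hb'1, hb'2⟩ := exists_between (max_lt hb ht₁.2)
  have hsub : Icc a' b' ⊆ Ioo a b := fun t ht => ⟨ha'1.trans_le ht.1, ht.2.trans_lt hb'2⟩
  have hZc : ContinuousOn Z (Icc a' b') := fun t ht =>
    (hZ t (hsub ht)).continuousAt.continuousWithinAt
  have hcont : ∀ i j, ContinuousOn (fun t => (c i j : V → ℝ) (Z t)) (Icc a' b') := fun i j =>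
    (polyFun_contDiff (c i j).2).continuous.comp_continuousOn hZc
  have hbd : ∀ i j, ∃ M, ∀ t ∈ Icc a' b', ‖(c i j : V → ℝ) (Z t)‖ ≤ M := fun i j =>
    isCompact_Icc.exists_bound_of_continuousOn (hcont i j)
  choose M hM using hbd
  set K : ℝ := ∑ i, ∑ j, |M i j| with hK
  have hK0 : 0 ≤ K := Finset.sum_nonneg fun i _ => Finset.sum_nonneg fun j _ => abs_nonneg _
  let v : ℝ → (Fin n → ℝ) → (Fin n → ℝ) := fun t y i => ∑ j, (c i j : V → ℝ) (Z t) * y j
  have hlip : ∀ t ∈ Ioo a' b', LipschitzOnWith ⟨K, hK0⟩ (v t) univ := by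
    intro t ht
    refine LipschitzOnWith.of_dist_le_mul fun y _ z _ => ?_
    rw [dist_eq_norm, dist_eq_norm]
    change ‖v t y - v t z‖ ≤ K * ‖y - z‖
    rw [pi_norm_le_iff_of_nonneg (mul_nonneg hK0 (norm_nonneg _))]
    intro i
    have h1 : (v t y - v t z) i = ∑ j, (c i j : V → ℝ) (Z t) * (y - z) j := by
      change ∑ j, (c i j : V → ℝ) (Z t) * y j - ∑ j, (c i j : V → ℝ) (Z t) * z j = _
      rw [← Finset.sum_sub_distrib]
      refine Finset.sum_congr rfl fun j _ => ?_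
      rw [Pi.sub_apply]; ring
    rw [h1]
    refine (norm_sum_le _ _).trans ?_
    calc ∑ j, ‖(c i j : V → ℝ) (Z t) * (y - z) j‖ ≤ ∑ j, |M i j| * ‖y - z‖ := by
          refine Finset.sum_le_sum fun j _ => ?_
          rw [norm_mul]
          exact mul_le_mul ((hM i j t (Ioo_subset_Icc_self ht)).trans (le_abs_self _))
            (norm_le_pi_norm _ j) (norm_nonneg _) (abs_nonneg _)
      _ = (∑ j, |M i j|) * ‖y - z‖ := by rw [Finset.sum_mul]
      _ ≤ K * ‖y - z‖ := by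
          refine mul_le_mul_of_nonneg_right ?_ (norm_nonneg _)
          exact Finset.single_le_sum (f := fun i => ∑ j, |M i j|)
            (fun i _ => Finset.sum_nonneg fun j _ => abs_nonneg _) (Finset.mem_univ i)
  let u : ℝ → (Fin n → ℝ) := fun t i => (s i : V → ℝ) (Z t)
  have hu : ∀ t ∈ Ioo a' b', HasDerivAt u (v t (u t)) t ∧ u t ∈ (univ : Set (Fin n → ℝ)) := by
    intro t ht
    refine ⟨hasDerivAt_pi.mpr fun i => ?_, mem_univ _⟩
    have h1 := pid_deriv (s i).2 (hZ t (hsub (Ioo_subset_Icc_self ht)))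
    have h2 : fderiv ℝ (s i : V → ℝ) (Z t) (F (Z t)) = v t (u t) i := happ _ _ (hc i) (Z t)
    rw [h2] at h1
    exact h1
  have h0 : ∀ t ∈ Ioo a' b', HasDerivAt (fun _ : ℝ => (0 : Fin n → ℝ))
      (v t ((fun _ : ℝ => (0 : Fin n → ℝ)) t)) t ∧
      (fun _ : ℝ => (0 : Fin n → ℝ)) t ∈ (univ : Set (Fin n → ℝ)) := by
    intro t _
    refine ⟨?_, mem_univ _⟩
    have h1 : v t 0 = 0 := by
      funext i
      change ∑ j, (c i j : V → ℝ) (Z t) * (0 : Fin n → ℝ) j = 0
      simp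
    change HasDerivAt (fun _ : ℝ => (0 : Fin n → ℝ)) (v t 0) t
    rw [h1]
    exact hasDerivAt_const t _
  have hu0 : u 0 = 0 := by
    funext i
    have h1 : ∀ᶠ t in 𝓝 (0 : ℝ), (s i : V → ℝ) (Y t) = 0 := hsI i
    change (s i : V → ℝ) (Z 0) = 0
    rw [hZ0]
    exact h1.self_of_nhds
  have heq := ODE_solution_unique_of_mem_Ioo hlip
    (⟨ha'2.trans_le (min_le_left _ _), (le_max_left _ _).trans_lt hb'1⟩ : (0 : ℝ) ∈ Ioo a' b')
    hu h0 hu0
  have ht₁' : t₁ ∈ Ioo a' b' := ⟨ha'2.trans_le (min_le_right _ _), (le_max_right _ _).trans_lt hb'1⟩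
  have hut : u t₁ = 0 := heq ht₁'
  have hgI : (⟨g, hg⟩ : polyFun V) ∈ pidIdeal Y := hgY
  rw [← hs] at hgI
  obtain ⟨d, hd⟩ := Ideal.mem_span_range_iff_exists_fun.mp hgI
  have h3 := happ d _ hd (Z t₁)
  change g (Z t₁) = _ at h3
  rw [h3]
  refine Finset.sum_eq_zero fun j _ => ?_
  have h4 : (s j : V → ℝ) (Z t₁) = 0 := congrFun hut j
  rw [h4, mul_zero]

end Pool.Agent.Helix
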