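import Pool.Agent.Helix.Field
import Pool.Agent.Helix.PolyIdent
import Pool.Agent.Helix.ExtODE
import Pool.Agent.Helix.GlueODE
import Pool.Agent.Helix.Bounds

/-!
# Global extension of a constrained profile
-/

set_option autoImplicit false

namespace Pool.Agent.Helix

open Set Filter Topology

variable {m : ℕ} {M : E m →L[ℝ] E m} {c : ℝ}

private theorem Sol.mono' {J K : Set ℝ} {T P h Q : ℝ → E m} (hs : Sol M c K T P h Q)
    (hJ : J ⊆ K) : Sol M c J T P h Q where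
  dT := fun t ht => hs.dT t (hJ ht)
  dP := fun t ht => hs.dP t (hJ ht)
  dh := fun t ht => hs.dh t (hJ ht)
  dQ := fun t ht => hs.dQ t (hJ ht)

/-- A solution of the field with the initial value of a constrained germ is constrained. -/
private theorem cons_of_field {r : ℝ} (hr : 0 < r) {T P h Q : ℝ → E m}
    (hs : Sol M c (Ioo (-r) r) T P h Q)
    (hc : ∀ t ∈ Ioo (-r) r, Cons (T t) (P t) (h t)) {Z : ℝ → St m} {b : ℝ} (hb : 0 < b)
    (hZ0 : Z 0 = (T 0, P 0, h 0, Q 0))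
    (hZ : ∀ t ∈ Ioo (-b) b, HasDerivAt Z (field M c (Z t)) t) :
    ∀ t ∈ Ioo (-b) b, Cons (Z t).1 (Z t).2.1 (Z t).2.2.1 := by
  have hmem : ∀ᶠ t in 𝓝 (0 : ℝ), t ∈ Ioo (-r) r := Ioo_mem_nhds (by linarith) hr
  have hY : ∀ᶠ t in 𝓝 (0 : ℝ), HasDerivAt (fun t => ((T t, P t, h t, Q t) : St m))
      (field M c (T t, P t, h t, Q t)) t := by
    filter_upwards [hmem] with t ht
    exact field_of_sol hs t ht
  have hnb : -b < 0 := by linarith
  intro t ht
  have h1 : ‖(Z t).2.1‖ ^ 2 - ‖(Z t).1‖ ^ 2 = 0 := by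
    refine poly_ident (field_poly M c) (Y := fun t => ((T t, P t, h t, Q t) : St m)) hY hnb hb
      hZ hZ0 (poly_c1 (m := m)) ?_ t ht
    filter_upwards [hmem] with s hs'
    exact sub_eq_zero.2 (hc s hs').norm_eq
  have h2 : (inner ℝ (Z t).2.1 (Z t).1 : ℝ) = 0 := by
    refine poly_ident (field_poly M c) (Y := fun t => ((T t, P t, h t, Q t) : St m)) hY hnb hb
      hZ hZ0 (poly_c2 (m := m)) ?_ t ht
    filter_upwards [hmem] with s hs'
    exact (hc s hs').PT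
  have h3 : (inner ℝ (Z t).2.1 (Z t).2.2.1 : ℝ) = 0 := by
    refine poly_ident (field_poly M c) (Y := fun t => ((T t, P t, h t, Q t) : St m)) hY hnb hb
      hZ hZ0 (poly_c3 (m := m)) ?_ t ht
    filter_upwards [hmem] with s hs'
    exact (hc s hs').Ph
  have h4 : (inner ℝ (Z t).1 (Z t).2.2.1 : ℝ) = 0 := by
    refine poly_ident (field_poly M c) (Y := fun t => ((T t, P t, h t, Q t) : St m)) hY hnb hb
      hZ hZ0 (poly_c4 (m := m)) ?_ t ht
    filter_upwards [hmem] with s hs'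
    exact (hc s hs').Th
  exact ⟨sub_eq_zero.1 h1, h2, h3, h4⟩

/-- A germ of a constrained solution extends to a constrained solution on the whole line. -/
theorem exists_profile {r : ℝ} (hr : 0 < r) {T P h Q : ℝ → E m}
    (hs : Sol M c (Ioo (-r) r) T P h Q)
    (hc : ∀ t ∈ Ioo (-r) r, Cons (T t) (P t) (h t)) :
    ∃ T' P' h' Q' : ℝ → E m, T' 0 = T 0 ∧ P' 0 = P 0 ∧ h' 0 = h 0 ∧ Q' 0 = Q 0 ∧
      Sol M c univ T' P' h' Q' ∧ ∀ t, Cons (T' t) (P' t) (h' t) := by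
  have hF : ContDiff ℝ 1 (field M c) := (field_contDiff M c).of_le (by norm_num)
  obtain ⟨Z, hZ0, hZ⟩ := exists_global hF ((T 0, P 0, h 0, Q 0) : St m) (by
    intro a ha
    obtain ⟨R, hR⟩ := state_le M c (T 0) (P 0) (h 0) (Q 0) a
    refine exists_sol_Ioo (R := R) hF _ ha ?_
    intro Z b hb hba hZ0 hZ t ht
    have hcons := cons_of_field hr hs hc hb hZ0 hZ
    have hsol := sol_of_field hZ
    obtain ⟨b1, b2, b3, b4⟩ := hR _ _ _ _ b hb hba (congrArg (fun Y : St m => Y.1) hZ0)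
      (congrArg (fun Y : St m => Y.2.1) hZ0) (congrArg (fun Y : St m => Y.2.2.1) hZ0)
      (congrArg (fun Y : St m => Y.2.2.2) hZ0) hsol hcons t ht
    rw [norm_prod_le_iff, norm_prod_le_iff, norm_prod_le_iff]
    exact ⟨b1, b2, b3, b4⟩)
  refine ⟨fun t => (Z t).1, fun t => (Z t).2.1, fun t => (Z t).2.2.1, fun t => (Z t).2.2.2,
    congrArg (fun Y : St m => Y.1) hZ0, congrArg (fun Y : St m => Y.2.1) hZ0,
    congrArg (fun Y : St m => Y.2.2.1) hZ0, congrArg (fun Y : St m => Y.2.2.2) hZ0,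
    sol_of_field fun t _ => hZ t, fun t => ?_⟩
  have hb : 0 < |t| + 1 := by positivity
  exact cons_of_field hr hs hc hb hZ0 (fun s _ => hZ s) t
    (abs_lt.1 (lt_add_one |t|))

/-- `P` never vanishes. -/
theorem P_ne {T P h Q : ℝ → E m} (hs : Sol M c univ T P h Q)
    (hc : ∀ t, Cons (T t) (P t) (h t)) (h0 : P 0 ≠ 0) (t : ℝ) : P t ≠ 0 := by
  have hb : 0 < |t| + 1 := by positivity
  have h1 := le_lam hb (hs.mono' (subset_univ (Ioo (-(|t| + 1)) (|t| + 1))))
    (fun s _ => hc s) (abs_lt.1 (lt_add_one |t|))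
  intro hP
  rw [hP] at h1
  have h2 : 0 < ‖P 0‖ ^ 2 * Real.exp (-(2 * ‖M‖ * |t|)) := by
    have : 0 < ‖P 0‖ := norm_pos_iff.2 h0
    positivity
  simp at h1
  linarith

end Pool.Agent.Helix
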