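import Pool.Agent.Helix.Decay

/-!
# The scalar system of the growing mode
-/

set_option autoImplicit false

namespace Pool.Agent.Helix

open Set Filter Topology

/-- The scalar quantities attached to a constrained profile: `lam = |P|^2`, `s = |h|^2`,
`p μ = (P - i T) · (a μ + i b μ)`, `g μ = h · (a μ + i b μ)`. -/
structure ScalarData (c κ : ℝ) (S : Finset ℝ) (lam s s' : ℝ → ℝ) (p g : ℝ → ℝ → ℂ) : Prop where
  mem : κ ∈ S
  pos : 0 < κ
  le : ∀ μ ∈ S, μ ≤ κ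
  ge : ∀ μ ∈ S, -κ ≤ μ
  lam_pos : ∀ t, 0 < lam t
  s_nonneg : ∀ t, 0 ≤ s t
  ds : ∀ t, HasDerivAt s (s' t) t
  dp : ∀ μ ∈ S, ∀ t : ℝ, HasDerivAt (p μ)
    (((μ : ℂ) - c * Complex.I) * p μ t + (lam t : ℂ) * g μ t) t
  sum : ∀ t : ℝ, ((lam t * s t : ℝ) : ℂ) =
    - ∑ μ ∈ S, Complex.exp (((μ : ℂ) - c * Complex.I) * t) * p μ t
  sumg : ∀ t : ℝ, (∑ μ ∈ S, Complex.exp (((μ : ℂ) - c * Complex.I) * t) * g μ t).re = s' t / 2
  pbd : ∃ C : ℝ, ∀ μ ∈ S, ∀ t, ‖p μ t‖ ≤ C * Real.sqrt (lam t)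
  gbd : ∃ C : ℝ, ∀ μ ∈ S, ∀ t, ‖g μ t‖ ≤ C * Real.sqrt (s t)
  asym : ∃ A > 0, ∃ δ > 0, ∃ C : ℝ, ∀ t ≥ 0,
    |s t - A * Real.exp (2 * κ * t)| ≤ C * Real.exp ((2 * κ - δ) * t) ∧
    |s' t - 2 * κ * s t| ≤ C * Real.exp ((2 * κ - δ) * t)

variable {c κ : ℝ} {S : Finset ℝ} {lam s s' : ℝ → ℝ} {p g : ℝ → ℝ → ℂ}

/-- The derivative of `y = lam s`. -/
theorem ScalarData.dy (d : ScalarData c κ S lam s s' p g) (t : ℝ) :
    HasDerivAt (fun t => lam t * s t)
      (2 * κ * (lam t * s t) - lam t * s' t / 2 +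
        2 * (∑ μ ∈ S.erase κ, ((κ - μ : ℝ) : ℂ) *
          (Complex.exp (((μ : ℂ) - c * Complex.I) * t) * p μ t)).re) t := by
  -- derivative of the exponential factors
  have hE : ∀ μ : ℝ, HasDerivAt (fun t : ℝ => Complex.exp (((μ : ℂ) - c * Complex.I) * t))
      (Complex.exp (((μ : ℂ) - c * Complex.I) * t) * ((μ : ℂ) - c * Complex.I)) t := by
    intro μ
    have h1 : HasDerivAt (fun t : ℝ => ((μ : ℂ) - c * Complex.I) * (t : ℂ))
        ((μ : ℂ) - c * Complex.I) t := by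
      have h2 := (Complex.ofRealCLM.hasDerivAt (x := t)).const_mul ((μ : ℂ) - c * Complex.I)
      simpa using h2
    exact h1.cexp
  have hF : HasDerivAt (fun t : ℝ => ∑ μ ∈ S,
      Complex.exp (((μ : ℂ) - c * Complex.I) * t) * p μ t)
      (∑ μ ∈ S, (Complex.exp (((μ : ℂ) - c * Complex.I) * t) * ((μ : ℂ) - c * Complex.I) * p μ t +
        Complex.exp (((μ : ℂ) - c * Complex.I) * t) *
          (((μ : ℂ) - c * Complex.I) * p μ t + (lam t : ℂ) * g μ t))) t :=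
    HasDerivAt.fun_sum fun μ hμ => (hE μ).mul (d.dp μ hμ t)
  have hR := Complex.reCLM.hasFDerivAt.comp_hasDerivAt t hF
  have hy : (fun t => lam t * s t) = fun t => -(Complex.reCLM ∘ fun t : ℝ => ∑ μ ∈ S,
      Complex.exp (((μ : ℂ) - c * Complex.I) * t) * p μ t) t := by
    funext τ
    have h1 := congrArg Complex.re (d.sum τ)
    rw [Complex.ofReal_re, Complex.neg_re] at h1
    rw [h1]
    rfl
  rw [hy]
  refine (hR.neg).congr_deriv ?_
  -- the algebra
  have hyt : (lam t * s t : ℝ) = -(∑ μ ∈ S,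
      Complex.exp (((μ : ℂ) - c * Complex.I) * t) * p μ t).re := by
    have h1 := congrArg Complex.re (d.sum t)
    rw [Complex.ofReal_re, Complex.neg_re] at h1
    exact h1
  have him : (∑ μ ∈ S, Complex.exp (((μ : ℂ) - c * Complex.I) * t) * p μ t).im = 0 := by
    have h1 := congrArg Complex.im (d.sum t)
    rw [Complex.ofReal_im, Complex.neg_im] at h1
    linarith
  have hg := d.sumg t
  have h2 : (∑ μ ∈ S, (Complex.exp (((μ : ℂ) - c * Complex.I) * t) *
        ((μ : ℂ) - c * Complex.I) * p μ t +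
        Complex.exp (((μ : ℂ) - c * Complex.I) * t) *
          (((μ : ℂ) - c * Complex.I) * p μ t + (lam t : ℂ) * g μ t))) =
      2 * ((κ : ℂ) - c * Complex.I) *
        (∑ μ ∈ S, Complex.exp (((μ : ℂ) - c * Complex.I) * t) * p μ t) -
      2 * (∑ μ ∈ S, ((κ - μ : ℝ) : ℂ) *
          (Complex.exp (((μ : ℂ) - c * Complex.I) * t) * p μ t)) +
      (lam t : ℂ) * ∑ μ ∈ S, Complex.exp (((μ : ℂ) - c * Complex.I) * t) * g μ t := by
    rw [Finset.mul_sum, Finset.mul_sum, Finset.mul_sum, ← Finset.sum_sub_distrib,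
      ← Finset.sum_add_distrib]
    refine Finset.sum_congr rfl fun μ _ => ?_
    push_cast
    ring
  have h3 : ∑ μ ∈ S, ((κ - μ : ℝ) : ℂ) *
      (Complex.exp (((μ : ℂ) - c * Complex.I) * t) * p μ t) =
      ∑ μ ∈ S.erase κ, ((κ - μ : ℝ) : ℂ) *
        (Complex.exp (((μ : ℂ) - c * Complex.I) * t) * p μ t) := by
    rw [← Finset.add_sum_erase S _ d.mem]
    simp
  rw [h2, h3]
  set Z := ∑ μ ∈ S, Complex.exp (((μ : ℂ) - c * Complex.I) * t) * p μ t with hZ
  set W := ∑ μ ∈ S.erase κ, ((κ - μ : ℝ) : ℂ) *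
        (Complex.exp (((μ : ℂ) - c * Complex.I) * t) * p μ t) with hW
  set G := ∑ μ ∈ S, Complex.exp (((μ : ℂ) - c * Complex.I) * t) * g μ t with hG
  have h4 : Complex.reCLM (2 * ((κ : ℂ) - c * Complex.I) * Z - 2 * W + (lam t : ℂ) * G) =
      2 * κ * Z.re + 2 * c * Z.im - 2 * W.re + lam t * G.re := by
    rw [Complex.reCLM_apply]
    simp
  rw [h4, him, hg]
  have h5 : -(Complex.reCLM ∘ fun t : ℝ => ∑ μ ∈ S,
      Complex.exp (((μ : ℂ) - c * Complex.I) * t) * p μ t) t = -Z.re := rfl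
  rw [hyt]
  ring

/-- `s` is eventually bounded below by a multiple of `exp (2 κ t)`, and `s'` is close to
`2 κ s` relatively to `s`. -/
theorem ScalarData.s_low (d : ScalarData c κ S lam s s' p g) :
    ∃ A > 0, ∃ δ > 0, ∃ C ≥ 0, ∃ t1 ≥ 0, ∀ t ≥ t1,
      A * Real.exp (2 * κ * t) ≤ s t ∧ |s' t - 2 * κ * s t| ≤ C * Real.exp (-(δ * t)) * s t := by
  obtain ⟨A, hA, δ, hδ, C, h⟩ := d.asym
  refine ⟨A / 2, by positivity, δ, hδ, 2 * |C| / A, by positivity, 2 * |C| / (A * δ),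
    by positivity, fun t ht => ?_⟩
  have ht0 : 0 ≤ t := le_trans (by positivity) ht
  obtain ⟨h1, h2⟩ := h t ht0
  have hC : |C| * Real.exp (-(δ * t)) ≤ A / 2 := by
    have h3 : |C| ≤ A / 2 * (δ * t) := by
      have h4 : 2 * |C| ≤ t * (A * δ) := by
        rwa [ge_iff_le, div_le_iff₀ (by positivity)] at ht
      linarith
    have h5 : δ * t ≤ Real.exp (δ * t) := by
      have := Real.add_one_le_exp (δ * t)
      linarith
    have h6 : |C| ≤ A / 2 * Real.exp (δ * t) :=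
      h3.trans (mul_le_mul_of_nonneg_left h5 (by positivity))
    have h7 := mul_le_mul_of_nonneg_right h6 (Real.exp_pos (-(δ * t))).le
    have h8 : Real.exp (δ * t) * Real.exp (-(δ * t)) = 1 := by
      rw [← Real.exp_add]
      simp
    calc |C| * Real.exp (-(δ * t)) ≤ A / 2 * Real.exp (δ * t) * Real.exp (-(δ * t)) := h7
      _ = A / 2 := by rw [mul_assoc, h8, mul_one]
  have he : Real.exp ((2 * κ - δ) * t) = Real.exp (-(δ * t)) * Real.exp (2 * κ * t) := by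
    rw [← Real.exp_add]
    congr 1
    ring
  have hCC : C * Real.exp ((2 * κ - δ) * t) ≤
      |C| * Real.exp (-(δ * t)) * Real.exp (2 * κ * t) := by
    rw [he, ← mul_assoc]
    gcongr
    exact le_abs_self C
  have hlow : A / 2 * Real.exp (2 * κ * t) ≤ s t := by
    have h9 := (abs_le.1 (h1.trans hCC)).1
    have h10 := mul_le_mul_of_nonneg_right hC (Real.exp_pos (2 * κ * t)).le
    linarith
  refine ⟨hlow, (h2.trans hCC).trans ?_⟩
  have h11 : Real.exp (2 * κ * t) ≤ 2 / A * s t := by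
    have h12 := mul_le_mul_of_nonneg_left hlow (by positivity : 0 ≤ 2 / A)
    have h13 : 2 / A * (A / 2 * Real.exp (2 * κ * t)) = Real.exp (2 * κ * t) := by
      field_simp
    rwa [h13] at h12
  calc |C| * Real.exp (-(δ * t)) * Real.exp (2 * κ * t)
      ≤ |C| * Real.exp (-(δ * t)) * (2 / A * s t) :=
        mul_le_mul_of_nonneg_left h11 (by positivity)
    _ = 2 * |C| / A * Real.exp (-(δ * t)) * s t := by ring

end Pool.Agent.Helix
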